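import Mathlib

set_option autoImplicit false

/-! Abstract part: pairs of symmetric real forms on a space with an action of a division ring. -/

namespace Pool.Agent.Helper915.QPair

variable {D V : Type*} [DivisionRing D] [Algebra ℝ D] [AddCommGroup V] [Module ℝ V] [Module D V]
  [IsScalarTower ℝ D V]

/-- the data: two symmetric forms, the first nondegenerate, and the operator relating them -/
structure Dat (b a : LinearMap.BilinForm ℝ V) (T : V →ₗ[D] V) : Prop where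
  bs : ∀ x y, b x y = b y x
  as : ∀ x y, a x y = a y x
  nd : ∀ x, (∀ y, b x y = 0) → x = 0
  hT : ∀ x y, a x y = b x (T y)
  adj : ∀ d : D, ∃ d' : D, ∀ x y, b (d • x) y = b x (d' • y)
  line : ∀ x, b x x = 0 → a x x = 0 → ∀ d e : D, b (d • x) (e • x) = 0 ∧ a (d • x) (e • x) = 0

/-- neutral subspaces -/
def Neu (b a : LinearMap.BilinForm ℝ V) (M : Submodule D V) : Prop :=
  ∀ x ∈ M, ∀ y ∈ M, b x y = 0 ∧ a x y = 0

/-- maximal neutral subspaces -/
def MaxNeu (b a : LinearMap.BilinForm ℝ V) (M : Submodule D V) : Prop :=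
  Neu b a M ∧ ∀ M' : Submodule D V, Neu b a M' → M ≤ M' → M' ≤ M

namespace Dat

variable {b a : LinearMap.BilinForm ℝ V} {T : V →ₗ[D] V} (h : Dat b a T)

include h

theorem sa (x y : V) : b (T x) y = b x (T y) := by
  rw [h.bs, ← h.hT, h.as, h.hT]

theorem T_smul (c : ℝ) (x : V) : T (c • x) = c • T x := by
  have e1 : ∀ z : V, c • z = (algebraMap ℝ D c) • z := fun z => by
    rw [Algebra.algebraMap_eq_smul_one, smul_assoc, one_smul]
  rw [e1, map_smul, ← e1]

/-- the orthogonal complement -/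
def orth (M : Submodule D V) : Submodule D V where
  carrier := {y | ∀ x ∈ M, b x y = 0}
  add_mem' := by
    intro y z hy hz x hx
    rw [map_add, hy x hx, hz x hx, add_zero]
  zero_mem' := by
    intro x _
    rw [map_zero]
  smul_mem' := by
    intro d y hy x hx
    obtain ⟨d', hd'⟩ := h.adj d
    rw [h.bs, hd', h.bs]
    exact hy _ (M.smul_mem d' hx)

theorem mem_orth (M : Submodule D V) (y : V) : y ∈ h.orth M ↔ ∀ x ∈ M, b x y = 0 := Iff.rfl

theorem bnd : b.Nondegenerate := by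
  refine ⟨fun x hx => h.nd x hx, fun y hy => h.nd y (fun x => ?_)⟩
  rw [h.bs]
  exact hy x

theorem finrank_orth [FiniteDimensional ℝ V] (M : Submodule D V) :
    Module.finrank ℝ ((h.orth M).restrictScalars ℝ) =
      Module.finrank ℝ V - Module.finrank ℝ (M.restrictScalars ℝ) := by
  have e : (h.orth M).restrictScalars ℝ = b.orthogonal (M.restrictScalars ℝ) := by
    ext y
    rw [LinearMap.BilinForm.mem_orthogonal_iff]
    exact Iff.rfl
  rw [e, LinearMap.BilinForm.finrank_orthogonal h.bnd]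

theorem neu_le_orth {M : Submodule D V} (hM : Neu b a M) : M ≤ h.orth M :=
  fun y hy x hx => (hM x hx y hy).1

theorem two_finrank_le [FiniteDimensional ℝ V] {M : Submodule D V} (hM : Neu b a M) :
    2 * Module.finrank ℝ (M.restrictScalars ℝ) ≤ Module.finrank ℝ V := by
  have h1 : M.restrictScalars ℝ ≤ (h.orth M).restrictScalars ℝ := h.neu_le_orth hM
  have h2 := Submodule.finrank_mono h1
  rw [h.finrank_orth] at h2
  have h3 := Submodule.finrank_le (M.restrictScalars ℝ)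
  omega

/-! ### the sufficiency -/

/-- a maximal neutral subspace is invariant when `T` satisfies a real quadratic equation -/
theorem inv_of_quad {α β : ℝ} (hq : ∀ x, T (T x) = α • T x + β • x) {M : Submodule D V}
    (hM : MaxNeu b a M) {x : V} (hx : x ∈ M) : T x ∈ M := by
  have hN : Neu b a (M ⊔ M.map T) := by
    intro x hx y hy
    obtain ⟨x1, hx1, _, ⟨x2, hx2, rfl⟩, rfl⟩ := Submodule.mem_sup.mp hx
    obtain ⟨y1, hy1, _, ⟨y2, hy2, rfl⟩, rfl⟩ := Submodule.mem_sup.mp hy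
    have k := hM.1
    have e1 : b x1 y1 = 0 := (k x1 hx1 y1 hy1).1
    have e2 : b x1 (T y2) = 0 := by rw [← h.hT]; exact (k x1 hx1 y2 hy2).2
    have e3 : b (T x2) y1 = 0 := by rw [h.sa, ← h.hT]; exact (k x2 hx2 y1 hy1).2
    have e4 : b (T x2) (T y2) = 0 := by
      rw [h.sa, hq, map_add, map_smul, map_smul, ← h.hT, (k x2 hx2 y2 hy2).2,
        (k x2 hx2 y2 hy2).1]
      simp
    have e5 : b x1 (T y1) = 0 := by rw [← h.hT]; exact (k x1 hx1 y1 hy1).2
    have e6 : b x1 (T (T y2)) = 0 := by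
      rw [hq, map_add, map_smul, map_smul, e2, (k x1 hx1 y2 hy2).1]
      simp
    have e7 : b (T x2) (T y1) = 0 := by
      rw [h.sa, hq, map_add, map_smul, map_smul, ← h.hT, (k x2 hx2 y1 hy1).2,
        (k x2 hx2 y1 hy1).1]
      simp
    have e8 : b (T x2) (T (T y2)) = 0 := by
      rw [hq, map_add, map_smul, map_smul, e4, h.sa, ← h.hT, (k x2 hx2 y2 hy2).2]
      simp
    refine ⟨?_, ?_⟩
    · rw [map_add, map_add, LinearMap.add_apply, LinearMap.add_apply, e1, e2, e3, e4]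
      simp
    · rw [h.hT, map_add, map_add, map_add, LinearMap.add_apply, LinearMap.add_apply, e5, e6, e7, e8]
      simp
  have hle := hM.2 _ hN le_sup_left
  exact hle (Submodule.mem_sup_right (Submodule.mem_map_of_mem hx))

theorem inf_orth_le {M₁ M₂ : Submodule D V} (h1 : Neu b a M₁) (h2 : MaxNeu b a M₂)
    (hinv : ∀ x ∈ M₂, T x ∈ M₂) : M₁ ⊓ h.orth M₂ ≤ M₂ := by
  have hN : Neu b a (M₂ ⊔ (M₁ ⊓ h.orth M₂)) := by
    intro x hx y hy
    obtain ⟨x1, hx1, x2, hx2, rfl⟩ := Submodule.mem_sup.mp hx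
    obtain ⟨y1, hy1, y2, hy2, rfl⟩ := Submodule.mem_sup.mp hy
    have e1 := h2.1 x1 hx1 y1 hy1
    have e2 := h1 x2 hx2.1 y2 hy2.1
    have e3 : b x1 y2 = 0 := hy2.2 x1 hx1
    have e4 : b x2 y1 = 0 := by rw [h.bs]; exact hx2.2 y1 hy1
    have e5 : a x1 y2 = 0 := by rw [h.hT, ← h.sa]; exact hy2.2 _ (hinv x1 hx1)
    have e6 : a x2 y1 = 0 := by rw [h.hT, h.bs]; exact hx2.2 _ (hinv y1 hy1)
    refine ⟨?_, ?_⟩
    · rw [map_add, map_add, LinearMap.add_apply, LinearMap.add_apply, e1.1, e2.1, e3, e4]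
      simp
    · rw [map_add, map_add, LinearMap.add_apply, LinearMap.add_apply, e1.2, e2.2, e5, e6]
      simp
  exact le_sup_right.trans (h2.2 _ hN le_sup_left)

theorem quad_finrank_le [FiniteDimensional ℝ V] {α β : ℝ} (hq : ∀ x, T (T x) = α • T x + β • x)
    {M₁ M₂ : Submodule D V} (h1 : MaxNeu b a M₁) (h2 : MaxNeu b a M₂) :
    Module.finrank ℝ (M₁.restrictScalars ℝ) ≤ Module.finrank ℝ (M₂.restrictScalars ℝ) := by
  have hle := h.inf_orth_le h1.1 h2 (fun x hx => h.inv_of_quad hq h2 hx)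
  set R₁ := M₁.restrictScalars ℝ
  set R₂ := M₂.restrictScalars ℝ
  set O₂ := (h.orth M₂).restrictScalars ℝ
  have e1 : R₁ ⊓ O₂ ≤ R₁ ⊓ R₂ := fun x hx => ⟨hx.1, hle hx⟩
  have e2 : R₁ ⊔ O₂ ≤ (h.orth (M₁ ⊓ M₂)).restrictScalars ℝ := by
    refine sup_le ?_ ?_
    · intro x hx z hz
      exact (h1.1 z hz.1 x hx).1
    · intro x hx z hz
      exact hx z hz.2
  have f1 := Submodule.finrank_sup_add_finrank_inf_eq R₁ O₂
  have f2 := Submodule.finrank_mono e1
  have f3 := Submodule.finrank_mono e2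
  have f4 : Module.finrank ℝ O₂ = Module.finrank ℝ V - Module.finrank ℝ R₂ := h.finrank_orth M₂
  have f5 : Module.finrank ℝ ((h.orth (M₁ ⊓ M₂)).restrictScalars ℝ) =
      Module.finrank ℝ V - Module.finrank ℝ ((M₁ ⊓ M₂).restrictScalars ℝ) := h.finrank_orth _
  have f6 : (M₁ ⊓ M₂).restrictScalars ℝ = R₁ ⊓ R₂ := rfl
  rw [f6] at f5
  have f7 := Submodule.finrank_le R₂
  have f8 := Submodule.finrank_le (R₁ ⊓ R₂)
  omega

theorem quad_finrank_eq [FiniteDimensional ℝ V] {α β : ℝ} (hq : ∀ x, T (T x) = α • T x + β • x)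
    {M₁ M₂ : Submodule D V} (h1 : MaxNeu b a M₁) (h2 : MaxNeu b a M₂) :
    Module.finrank ℝ (M₁.restrictScalars ℝ) = Module.finrank ℝ (M₂.restrictScalars ℝ) :=
  le_antisymm (h.quad_finrank_le hq h1 h2) (h.quad_finrank_le hq h2 h1)

/-! ### the necessity -/

theorem maxNeu_of_half [FiniteDimensional ℝ V] {M₀ : Submodule D V} (h0 : Neu b a M₀)
    (hdim : 2 * Module.finrank ℝ (M₀.restrictScalars ℝ) = Module.finrank ℝ V) :
    MaxNeu b a M₀ := by
  refine ⟨h0, fun M' hM' hle => ?_⟩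
  have h1 := h.two_finrank_le hM'
  have hle' : M₀.restrictScalars ℝ ≤ M'.restrictScalars ℝ := hle
  have h2 := Submodule.finrank_mono hle'
  have h3 : M₀.restrictScalars ℝ = M'.restrictScalars ℝ :=
    Submodule.eq_of_le_of_finrank_le hle' (by omega)
  intro x hx
  have h4 : x ∈ M'.restrictScalars ℝ := hx
  rw [← h3] at h4
  exact h4

theorem orth_le_of_half [FiniteDimensional ℝ V] {M : Submodule D V} (hM : Neu b a M)
    (hdim : 2 * Module.finrank ℝ (M.restrictScalars ℝ) = Module.finrank ℝ V) : h.orth M ≤ M := by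
  have h1 : M.restrictScalars ℝ ≤ (h.orth M).restrictScalars ℝ := h.neu_le_orth hM
  have h2 := h.finrank_orth M
  have h3 : M.restrictScalars ℝ = (h.orth M).restrictScalars ℝ :=
    Submodule.eq_of_le_of_finrank_le h1 (by omega)
  intro x hx
  have h4 : x ∈ (h.orth M).restrictScalars ℝ := hx
  rw [← h3] at h4
  exact h4

theorem inv_of_half [FiniteDimensional ℝ V] {M : Submodule D V} (hM : Neu b a M)
    (hdim : 2 * Module.finrank ℝ (M.restrictScalars ℝ) = Module.finrank ℝ V)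
    {x : V} (hx : x ∈ M) : T x ∈ M := by
  refine h.orth_le_of_half hM hdim ?_
  intro y hy
  rw [← h.hT]
  exact (hM y hy x hx).2

omit h in
theorem exists_max [FiniteDimensional ℝ V] {N : Submodule D V} (hN : Neu b a N) :
    ∃ M, MaxNeu b a M ∧ N ≤ M := by
  have : IsNoetherian D V := isNoetherian_of_tower ℝ inferInstance
  obtain ⟨M, hM, hmax⟩ := (wellFounded_gt (α := Submodule D V)).has_min
    {M | Neu b a M ∧ N ≤ M} ⟨N, hN, le_rfl⟩
  refine ⟨M, ⟨hM.1, fun M' hM' hle => ?_⟩, hM.2⟩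
  by_contra hlt
  exact hmax M' ⟨hM', hM.2.trans hle⟩ (lt_of_le_not_ge hle hlt)

theorem cone [FiniteDimensional ℝ V]
    (hh : ∀ M : Submodule D V, MaxNeu b a M →
      2 * Module.finrank ℝ (M.restrictScalars ℝ) = Module.finrank ℝ V)
    {x : V} (hb : b x x = 0) (ha : a x x = 0) : a x (T x) = 0 := by
  have hN : Neu b a (Submodule.span D {x}) := by
    intro y hy z hz
    obtain ⟨d, rfl⟩ := Submodule.mem_span_singleton.mp hy
    obtain ⟨e, rfl⟩ := Submodule.mem_span_singleton.mp hz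
    exact h.line x hb ha d e
  obtain ⟨M, hM, hle⟩ := exists_max hN
  have hx : x ∈ M := hle (Submodule.mem_span_singleton_self x)
  have hTx := h.inv_of_half hM.1 (hh M hM) hx
  exact (hM.1 x hx _ hTx).2

/-- the minor -/
def Dl (b : LinearMap.BilinForm ℝ V) (T : V →ₗ[D] V) (v e f : V) : ℝ :=
  b v e * b (T v) f - b v f * b (T v) e

/-- the basic relation at a vector with a nonzero minor -/
theorem star [FiniteDimensional ℝ V]
    (hh : ∀ M : Submodule D V, MaxNeu b a M →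
      2 * Module.finrank ℝ (M.restrictScalars ℝ) = Module.finrank ℝ V)
    {M₀ : Submodule D V} (h0 : Neu b a M₀) (hinv : ∀ u ∈ M₀, T u ∈ M₀)
    {v e₁ e₂ : V} (he₁ : e₁ ∈ M₀) (he₂ : e₂ ∈ M₀) (hD : Dl b T v e₁ e₂ ≠ 0) :
    ∃ α β : ℝ, (∀ u ∈ M₀, b (T (T v)) u = α * b v u + β * b (T v) u) ∧
      b v (T (T v)) = α * b v v + β * b v (T v) := by
  have hRs : ∀ (c : ℝ) (x : V), x ∈ M₀ → c • x ∈ M₀ := fun c x hx =>
    (M₀.restrictScalars ℝ).smul_mem c hx
  unfold Dl at hD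
  set Δ := b v e₁ * b (T v) e₂ - b v e₂ * b (T v) e₁ with hΔ
  -- Cramer
  have cram : ∀ c₁ c₂ : ℝ, ∃ x y : ℝ, x = (c₁ * b (T v) e₂ - c₂ * b v e₂) / Δ ∧
      y = (c₂ * b v e₁ - c₁ * b (T v) e₁) / Δ ∧ x • e₁ + y • e₂ ∈ M₀ ∧
      b v (x • e₁ + y • e₂) = c₁ ∧ b (T v) (x • e₁ + y • e₂) = c₂ := by
    intro c₁ c₂
    refine ⟨_, _, rfl, rfl, M₀.add_mem (hRs _ _ he₁) (hRs _ _ he₂), ?_, ?_⟩
    · rw [map_add, map_smul, map_smul, smul_eq_mul, smul_eq_mul]
      field_simp
      rw [hΔ]; ring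
    · rw [map_add, map_smul, map_smul, smul_eq_mul, smul_eq_mul]
      field_simp
      rw [hΔ]; ring
  have hG : ∀ w ∈ M₀, b v w = -(b v v) / 2 → b (T v) w = -(b v (T v)) / 2 →
      b (T (T v)) w = -(b v (T (T v))) / 2 := by
    intro w hw h1 h2
    have hTw := hinv w hw
    have hTTw := hinv _ hTw
    have k1 : b w v = b v w := h.bs _ _
    have k2 : b w w = 0 := (h0 w hw w hw).1
    have k3 : b w (T v) = b (T v) w := h.bs _ _
    have k4 : b v (T w) = b (T v) w := (h.sa v w).symm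
    have k5 : b w (T w) = 0 := (h0 w hw _ hTw).1
    have k6 : b w (T (T v)) = b (T (T v)) w := h.bs _ _
    have k7 : b v (T (T w)) = b (T (T v)) w := by rw [h.sa, h.sa]
    have k8 : b w (T (T w)) = 0 := (h0 w hw _ hTTw).1
    have hb : b (v + w) (v + w) = 0 := by
      rw [map_add, map_add, LinearMap.add_apply, LinearMap.add_apply, k1, k2, h1]
      ring
    have ha : a (v + w) (v + w) = 0 := by
      rw [h.hT, map_add, map_add, map_add, LinearMap.add_apply, LinearMap.add_apply, k3, k4, k5, h2]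
      ring
    have hc := h.cone hh hb ha
    rw [h.hT, map_add, map_add, map_add, map_add, LinearMap.add_apply, LinearMap.add_apply,
      k6, k7, k8] at hc
    linarith
  obtain ⟨x₀, y₀, -, -, hw0, hw1, hw2⟩ := cram (-(b v v) / 2) (-(b v (T v)) / 2)
  set w₀ := x₀ • e₁ + y₀ • e₂ with hw₀
  have hg0 := hG w₀ hw0 hw1 hw2
  have hH : ∀ u ∈ M₀, b v u = 0 → b (T v) u = 0 → b (T (T v)) u = 0 := by
    intro u hu h1 h2
    have := hG (w₀ + u) (M₀.add_mem hw0 hu) (by rw [map_add, hw1, h1, add_zero])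
      (by rw [map_add, hw2, h2, add_zero])
    rw [map_add, hg0] at this
    linarith
  have hrel : ∀ u ∈ M₀, b (T (T v)) u =
      ((b (T v) e₂ * b (T (T v)) e₁ - b (T v) e₁ * b (T (T v)) e₂) / Δ) * b v u +
      ((b v e₁ * b (T (T v)) e₂ - b v e₂ * b (T (T v)) e₁) / Δ) * b (T v) u := by
    intro u hu
    obtain ⟨x, y, hx, hy, hm, h1, h2⟩ := cram (b v u) (b (T v) u)
    have h3 := hH (u - (x • e₁ + y • e₂)) (M₀.sub_mem hu hm) (by rw [map_sub, h1, sub_self])
      (by rw [map_sub, h2, sub_self])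
    rw [map_sub, map_add, map_smul, map_smul, smul_eq_mul, smul_eq_mul, sub_eq_zero] at h3
    rw [h3, hx, hy]
    field_simp
    ring
  refine ⟨_, _, hrel, ?_⟩
  have h1 := hrel w₀ hw0
  rw [hg0, hw1, hw2] at h1
  linarith

/-- a submodule trick: if the pairing of `d • w` with `M₀` is controlled by two of its values,
then `w` lies in `M₀` -/
theorem trick [FiniteDimensional ℝ D] (hDim : 3 ≤ Module.finrank ℝ D)
    {M₀ : Submodule D V} (hM : h.orth M₀ ≤ M₀) {w e₁ e₂ : V}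
    (hw : ∀ d : D, b (d • w) e₁ = 0 → b (d • w) e₂ = 0 → ∀ u ∈ M₀, b (d • w) u = 0) : w ∈ M₀ := by
  let σ : D →ₗ[ℝ] V := (LinearMap.toSpanSingleton D V w).restrictScalars ℝ
  let φ : D →ₗ[ℝ] ℝ × ℝ := LinearMap.prod ((b.flip e₁).comp σ) ((b.flip e₂).comp σ)
  have hker : LinearMap.ker φ ≠ ⊥ := by
    apply LinearMap.ker_ne_bot_of_finrank_lt
    rw [Module.finrank_prod, Module.finrank_self]
    omega
  obtain ⟨d, hd, hd0⟩ := Submodule.exists_mem_ne_zero_of_ne_bot hker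
  have h1 : φ d = 0 := hd
  have h2 : b (d • w) e₁ = 0 := congrArg Prod.fst h1
  have h3 : b (d • w) e₂ = 0 := congrArg Prod.snd h1
  have h4 := hw d h2 h3
  have h5 : d • w ∈ M₀ := by
    apply hM
    intro u hu
    rw [h.bs]
    exact h4 u hu
  have h6 := M₀.smul_mem d⁻¹ h5
  rwa [smul_smul, inv_mul_cancel₀ hd0, one_smul] at h6

theorem converse_A [FiniteDimensional ℝ V] [FiniteDimensional ℝ D]
    (hDim : 3 ≤ Module.finrank ℝ D)
    {M₀ : Submodule D V} (h0 : Neu b a M₀) (hM : h.orth M₀ ≤ M₀) 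
    (hA : ∀ v, ∀ e ∈ M₀, ∀ f ∈ M₀, Dl b T v e f = 0) :
    ∃ α β : ℝ, ∀ x, T (T x) = α • T x + β • x := by
  by_cases htop : ∀ v, v ∈ M₀
  · refine ⟨0, 0, fun x => ?_⟩
    have h1 : ∀ y : V, y = 0 := fun y => h.nd y (fun z => (h0 y (htop y) z (htop z)).1)
    rw [h1 (T (T x)), h1 x]
    simp
  push Not at htop
  obtain ⟨v₀, hv₀⟩ := htop
  have h1 : ∃ e ∈ M₀, b v₀ e ≠ 0 := by
    by_contra hcon
    push Not at hcon
    exact hv₀ (hM (fun u hu => by rw [h.bs]; exact hcon u hu))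
  obtain ⟨e, he, hbe⟩ := h1
  set lam := b (T v₀) e / b v₀ e with hlam
  have h2 : ∀ f ∈ M₀, b (T v₀) f = lam * b v₀ f := by
    intro f hf
    have h3 := hA v₀ e he f hf
    unfold Dl at h3
    rw [hlam]
    field_simp
    linarith
  have hR : ∀ v, T v - lam • v ∈ M₀ := by
    intro v
    refine h.trick hDim hM (e₁ := e) (e₂ := e) ?_
    intro d hd1 _ u hu
    have e1 : d • (T v - lam • v) = T (d • v) - lam • (d • v) := by
      rw [smul_sub, map_smul, smul_comm d lam v]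
    rw [e1] at hd1 ⊢
    set y := d • v with hy
    have k1 := hA (y + v₀) e he u hu
    have k2 := hA y e he u hu
    have k3 := hA v₀ e he u hu
    unfold Dl at k1 k2 k3
    simp only [map_add, LinearMap.add_apply] at k1
    have k4 := h2 e he
    have k5 := h2 u hu
    simp only [map_sub, map_smul, LinearMap.sub_apply, LinearMap.smul_apply, smul_eq_mul] at hd1 ⊢
    have k6 : b v₀ e * (b (T y) u - lam * b y u) = 0 := by
      linear_combination k1 - k2 - k3 - b y e * k5 + b y u * k4 + b v₀ u * hd1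
    rcases mul_eq_zero.mp k6 with k7 | k7
    · exact absurd k7 hbe
    · exact k7
  have hK : ∀ u ∈ M₀, T u - lam • u = 0 := by
    intro u hu
    apply h.nd
    intro x
    have k1 := (h0 u hu _ (hR x)).1
    simp only [map_sub, map_smul, LinearMap.sub_apply, LinearMap.smul_apply, smul_eq_mul] at k1 ⊢
    rw [h.sa]
    exact k1
  refine ⟨2 * lam, -(lam * lam), fun x => ?_⟩
  have k1 := hK _ (hR x)
  rw [map_sub, h.T_smul] at k1
  have k2 : T (T x) = lam • T x + lam • (T x - lam • x) := by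
    rw [sub_sub, sub_eq_zero] at k1
    exact k1
  rw [k2]
  module

theorem det3 [FiniteDimensional ℝ V]
    (hh : ∀ M : Submodule D V, MaxNeu b a M →
      2 * Module.finrank ℝ (M.restrictScalars ℝ) = Module.finrank ℝ V)
    {M₀ : Submodule D V} (h0 : Neu b a M₀) (hinv : ∀ u ∈ M₀, T u ∈ M₀)
    (v : V) {e₁ e₂ e₃ : V} (he₁ : e₁ ∈ M₀) (he₂ : e₂ ∈ M₀) (he₃ : e₃ ∈ M₀) :
    b (T (T v)) e₁ * Dl b T v e₂ e₃ - b (T (T v)) e₂ * Dl b T v e₁ e₃
      + b (T (T v)) e₃ * Dl b T v e₁ e₂ = 0 := by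
  by_cases hz : Dl b T v e₂ e₃ = 0 ∧ Dl b T v e₁ e₃ = 0 ∧ Dl b T v e₁ e₂ = 0
  · rw [hz.1, hz.2.1, hz.2.2]
    ring
  have hex : ∃ α β : ℝ, (∀ u ∈ M₀, b (T (T v)) u = α * b v u + β * b (T v) u) := by
    by_cases z1 : Dl b T v e₂ e₃ = 0
    · by_cases z2 : Dl b T v e₁ e₃ = 0
      · by_cases z3 : Dl b T v e₁ e₂ = 0
        · exact absurd ⟨z1, z2, z3⟩ hz
        · obtain ⟨α, β, h1, -⟩ := h.star hh h0 hinv he₁ he₂ z3
          exact ⟨α, β, h1⟩
      · obtain ⟨α, β, h1, -⟩ := h.star hh h0 hinv he₁ he₃ z2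
        exact ⟨α, β, h1⟩
    · obtain ⟨α, β, h1, -⟩ := h.star hh h0 hinv he₂ he₃ z1
      exact ⟨α, β, h1⟩
  obtain ⟨α, β, h1⟩ := hex
  rw [h1 e₁ he₁, h1 e₂ he₂, h1 e₃ he₃]
  unfold Dl
  ring

theorem converse_B [FiniteDimensional ℝ V] [FiniteDimensional ℝ D]
    (hDim : 3 ≤ Module.finrank ℝ D)
    (hh : ∀ M : Submodule D V, MaxNeu b a M →
      2 * Module.finrank ℝ (M.restrictScalars ℝ) = Module.finrank ℝ V)
    {M₀ : Submodule D V} (h0 : Neu b a M₀) (hinv : ∀ u ∈ M₀, T u ∈ M₀) (hM : h.orth M₀ ≤ M₀)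
    {v₁ e₁ e₂ : V} (he₁ : e₁ ∈ M₀) (he₂ : e₂ ∈ M₀) (hD : Dl b T v₁ e₁ e₂ ≠ 0) :
    ∃ α β : ℝ, ∀ x, T (T x) = α • T x + β • x := by
  obtain ⟨α, β, hrel, hquad⟩ := h.star hh h0 hinv he₁ he₂ hD
  refine ⟨β, α, ?_⟩
  -- `Q = T² - β T - α`
  have hQs : ∀ x y, b x (T (T y) - β • T y - α • y) = b (T (T x) - β • T x - α • x) y := by
    intro x y
    simp only [map_sub, map_smul, LinearMap.sub_apply, LinearMap.smul_apply, smul_eq_mul]
    rw [h.sa (T x) y, h.sa x (T y), h.sa x y]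
  have hQM : ∀ v, T (T v) - β • T v - α • v ∈ M₀ := by
    intro v
    refine h.trick hDim hM (e₁ := e₁) (e₂ := e₂) ?_
    intro d hd1 hd2 u hu
    have e1 : d • (T (T v) - β • T v - α • v) =
        T (T (d • v)) - β • T (d • v) - α • (d • v) := by
      rw [smul_sub, smul_sub, map_smul, map_smul, smul_comm d β, smul_comm d α]
    rw [e1] at hd1 hd2 ⊢
    set y := d • v with hy
    have f1 := h.det3 hh h0 hinv (v₁ + (1:ℝ) • y) he₁ he₂ hu
    have f2 := h.det3 hh h0 hinv (v₁ + (-1:ℝ) • y) he₁ he₂ hu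
    have f3 := h.det3 hh h0 hinv (v₁ + (2:ℝ) • y) he₁ he₂ hu
    have f4 := h.det3 hh h0 hinv (v₁ + (-2:ℝ) • y) he₁ he₂ hu
    have r1 := hrel e₁ he₁
    have r2 := hrel e₂ he₂
    have r3 := hrel u hu
    unfold Dl at f1 f2 f3 f4 hD
    simp only [map_add, map_sub, map_smul, h.T_smul, LinearMap.add_apply, LinearMap.sub_apply,
      LinearMap.smul_apply, smul_eq_mul] at f1 f2 f3 f4 hd1 hd2 ⊢
    rw [r1, r2, r3] at f1 f2 f3 f4
    have key : (b v₁ e₁ * b (T v₁) e₂ - b v₁ e₂ * b (T v₁) e₁) *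
        (b (T (T y)) u - β * b (T y) u - α * b y u) = 0 := by
      linear_combination (8 * (f1 - f2) - (f3 - f4)) / 12
        - (b v₁ e₂ * b (T v₁) u - b v₁ u * b (T v₁) e₂) * hd1
        + (b v₁ e₁ * b (T v₁) u - b v₁ u * b (T v₁) e₁) * hd2
    rcases mul_eq_zero.mp key with k | k
    · exact absurd k hD
    · exact k
  have hP : ∀ x, Dl b T x e₁ e₂ ≠ 0 → b x (T (T x) - β • T x - α • x) = 0 := by
    intro x hx
    obtain ⟨α', β', hrel', hquad'⟩ := h.star hh h0 hinv he₁ he₂ hx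
    have g1 := (h0 _ (hQM x) e₁ he₁).1
    have g2 := (h0 _ (hQM x) e₂ he₂).1
    simp only [map_sub, map_smul, LinearMap.sub_apply, LinearMap.smul_apply, smul_eq_mul]
      at g1 g2 ⊢
    rw [hrel' e₁ he₁] at g1
    rw [hrel' e₂ he₂] at g2
    unfold Dl at hx
    have ka : (b x e₁ * b (T x) e₂ - b x e₂ * b (T x) e₁) * (α' - α) = 0 := by
      linear_combination b (T x) e₂ * g1 - b (T x) e₁ * g2
    have kb : (b x e₁ * b (T x) e₂ - b x e₂ * b (T x) e₁) * (β' - β) = 0 := by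
      linear_combination b x e₁ * g2 - b x e₂ * g1
    have ka' : α' - α = 0 := by
      rcases mul_eq_zero.mp ka with k | k
      · exact absurd k hx
      · exact k
    have kb' : β' - β = 0 := by
      rcases mul_eq_zero.mp kb with k | k
      · exact absurd k hx
      · exact k
    rw [hquad']
    linear_combination ka' * b x x + kb' * b x (T x)
  have hP0 : ∀ v, b v (T (T v) - β • T v - α • v) = 0 := by
    intro v
    have hPM : ∀ t : ℝ, b (v + t • v₁) (T (T (v + t • v₁)) - β • T (v + t • v₁)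
        - α • (v + t • v₁)) * Dl b T (v + t • v₁) e₁ e₂ = 0 := by
      intro t
      by_cases hz : Dl b T (v + t • v₁) e₁ e₂ = 0
      · rw [hz, mul_zero]
      · rw [hP _ hz, zero_mul]
    have f0 := hPM 0
    have f1 := hPM 1
    have f2 := hPM (-1)
    have f3 := hPM 2
    have f4 := hPM (-2)
    have g := hP v₁ hD
    unfold Dl at f0 f1 f2 f3 f4 hD
    simp only [map_add, map_sub, map_smul, h.T_smul, LinearMap.add_apply, LinearMap.sub_apply,
      LinearMap.smul_apply, smul_eq_mul] at f0 f1 f2 f3 f4 g ⊢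
    have c3 : ((b v (T (T v₁)) - β * b v (T v₁) - α * b v v₁) +
        (b v₁ (T (T v)) - β * b v₁ (T v) - α * b v₁ v)) *
        (b v₁ e₁ * b (T v₁) e₂ - b v₁ e₂ * b (T v₁) e₁) = 0 := by
      linear_combination ((f3 - f4) - 2 * (f1 - f2)) / 12
        - (b v e₁ * b (T v₁) e₂ + b v₁ e₁ * b (T v) e₂ - b v e₂ * b (T v₁) e₁
          - b v₁ e₂ * b (T v) e₁) * g
    have hp : ((b v (T (T v₁)) - β * b v (T v₁) - α * b v v₁) +
        (b v₁ (T (T v)) - β * b v₁ (T v) - α * b v₁ v)) = 0 := by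
      rcases mul_eq_zero.mp c3 with k | k
      · exact k
      · exact absurd k hD
    have c2 : (b v (T (T v)) - β * b v (T v) - α * b v v) *
        (b v₁ e₁ * b (T v₁) e₂ - b v₁ e₂ * b (T v₁) e₁) = 0 := by
      linear_combination (f1 + f2) / 2 - f0
        - ((b v₁ e₁ * b (T v₁) e₂ - b v₁ e₂ * b (T v₁) e₁)
          + (b v e₁ * b (T v) e₂ - b v e₂ * b (T v) e₁)) * g
        - (b v e₁ * b (T v₁) e₂ + b v₁ e₁ * b (T v) e₂ - b v e₂ * b (T v₁) e₁
          - b v₁ e₂ * b (T v) e₁) * hp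
    rcases mul_eq_zero.mp c2 with k | k
    · exact k
    · exact absurd k hD
  intro y
  have hz : T (T y) - β • T y - α • y = 0 := by
    apply h.nd
    intro x
    have k1 := hP0 (x + y)
    have k2 := hP0 x
    have k3 := hP0 y
    have k4 := hQs x y
    have k5 := hQs y x
    have k6 : b (T (T x) - β • T x - α • x) y = b y (T (T x) - β • T x - α • x) := h.bs _ _
    have k7 : T (T (x + y)) - β • T (x + y) - α • (x + y) =
        (T (T x) - β • T x - α • x) + (T (T y) - β • T y - α • y) := by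
      simp only [map_add, smul_add]
      abel
    rw [k7, map_add, map_add, LinearMap.add_apply, LinearMap.add_apply] at k1
    rw [h.bs]
    linarith
  rw [sub_sub, sub_eq_zero] at hz
  exact hz

/-- the converse: if some neutral subspace has half the dimension and all maximal neutral subspaces
have the same dimension, then `T` satisfies a real quadratic equation -/
theorem converse [FiniteDimensional ℝ V] [FiniteDimensional ℝ D]
    (hDim : 3 ≤ Module.finrank ℝ D)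
    {M₀ : Submodule D V} (h0 : Neu b a M₀)
    (hdim : 2 * Module.finrank ℝ (M₀.restrictScalars ℝ) = Module.finrank ℝ V)
    (hall : ∀ M₁ M₂ : Submodule D V, MaxNeu b a M₁ → MaxNeu b a M₂ →
      Module.finrank ℝ (M₁.restrictScalars ℝ) = Module.finrank ℝ (M₂.restrictScalars ℝ)) :
    ∃ α β : ℝ, ∀ x, T (T x) = α • T x + β • x := by
  have hmax := h.maxNeu_of_half h0 hdim
  have hh : ∀ M : Submodule D V, MaxNeu b a M →
      2 * Module.finrank ℝ (M.restrictScalars ℝ) = Module.finrank ℝ V := by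
    intro M hM
    rw [hall M M₀ hM hmax, hdim]
  have hM := h.orth_le_of_half h0 hdim
  by_cases hA : ∀ v, ∀ e ∈ M₀, ∀ f ∈ M₀, Dl b T v e f = 0
  · exact h.converse_A hDim h0 hM hA
  · push Not at hA
    obtain ⟨v₁, e₁, he₁, e₂, he₂, hD⟩ := hA
    exact h.converse_B hDim hh h0 (fun u hu => h.inv_of_half h0 hdim hu) hM he₁ he₂ hD

end Dat

end Pool.Agent.Helper915.QPair
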