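import Pool.Agent.Helper915.Walks

set_option autoImplicit false

namespace Pool.Agent.Helper915.Scc

open Finset Pool.Agent.Helper915.Walks

/-! The graph: the Petersen graph with the four outer vertices 0, 1, 2, 3 replaced by
a five-vertex gadget (`K5` minus two edges). -/

/-- The 47 edges. -/
def eL : List (Sym2 (Fin 26)) :=
  [s(3, 0), s(3, 1), s(3, 2), s(3, 4), s(4, 0), s(4, 1), s(4, 2), s(1, 2),
   s(8, 5), s(8, 6), s(8, 7), s(8, 9), s(9, 5), s(9, 6), s(9, 7), s(6, 7),
   s(13, 10), s(13, 11), s(13, 12), s(13, 14), s(14, 10), s(14, 11), s(14, 12), s(11, 12),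
   s(18, 15), s(18, 16), s(18, 17), s(18, 19), s(19, 15), s(19, 16), s(19, 17), s(16, 17),
   s(1, 7), s(6, 12), s(11, 17), s(16, 20), s(20, 2), s(0, 21), s(5, 22), s(10, 23),
   s(15, 24), s(20, 25), s(21, 23), s(22, 24), s(23, 25), s(24, 21), s(25, 22)]

/-- The graph on 26 vertices. -/
def G : SimpleGraph (Fin 26) where
  Adj x y := s(x, y) ∈ eL
  symm := ⟨fun x y h => by rw [Sym2.eq_swap]; exact h⟩
  loopless := ⟨fun x => by revert x; decide +kernel⟩

instance : DecidableRel G.Adj := fun x y => by unfold G; infer_instance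

lemma mem_edgeSet_iff (e : Sym2 (Fin 26)) : e ∈ G.edgeSet ↔ e ∈ eL := by
  induction e with
  | _ x y => exact Iff.rfl

lemma eL_nodup : eL.Nodup := by decide +kernel

/-- The edges at each vertex, as a list. -/
def incL : List (List (Sym2 (Fin 26))) :=
  [[s(3, 0), s(4, 0), s(0, 21)],
   [s(3, 1), s(4, 1), s(1, 2), s(1, 7)],
   [s(3, 2), s(4, 2), s(1, 2), s(20, 2)],
   [s(3, 0), s(3, 1), s(3, 2), s(3, 4)],
   [s(3, 4), s(4, 0), s(4, 1), s(4, 2)],
   [s(8, 5), s(9, 5), s(5, 22)],
   [s(8, 6), s(9, 6), s(6, 7), s(6, 12)],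
   [s(8, 7), s(9, 7), s(6, 7), s(1, 7)],
   [s(8, 5), s(8, 6), s(8, 7), s(8, 9)],
   [s(8, 9), s(9, 5), s(9, 6), s(9, 7)],
   [s(13, 10), s(14, 10), s(10, 23)],
   [s(13, 11), s(14, 11), s(11, 12), s(11, 17)],
   [s(13, 12), s(14, 12), s(11, 12), s(6, 12)],
   [s(13, 10), s(13, 11), s(13, 12), s(13, 14)],
   [s(13, 14), s(14, 10), s(14, 11), s(14, 12)],
   [s(18, 15), s(19, 15), s(15, 24)],
   [s(18, 16), s(19, 16), s(16, 17), s(16, 20)],
   [s(18, 17), s(19, 17), s(16, 17), s(11, 17)],
   [s(18, 15), s(18, 16), s(18, 17), s(18, 19)],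
   [s(18, 19), s(19, 15), s(19, 16), s(19, 17)],
   [s(16, 20), s(20, 2), s(20, 25)],
   [s(0, 21), s(21, 23), s(24, 21)],
   [s(5, 22), s(22, 24), s(25, 22)],
   [s(10, 23), s(21, 23), s(23, 25)],
   [s(15, 24), s(22, 24), s(24, 21)],
   [s(20, 25), s(23, 25), s(25, 22)]]

/-- The edges at each vertex. -/
def inc (x : Fin 26) : List (Sym2 (Fin 26)) := incL.getD x.1 []


lemma inc_0 : inc 0 = [s(3, 0), s(4, 0), s(0, 21)] := rfl
lemma inc_1 : inc 1 = [s(3, 1), s(4, 1), s(1, 2), s(1, 7)] := rfl
lemma inc_2 : inc 2 = [s(3, 2), s(4, 2), s(1, 2), s(20, 2)] := rfl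
lemma inc_3 : inc 3 = [s(3, 0), s(3, 1), s(3, 2), s(3, 4)] := rfl
lemma inc_4 : inc 4 = [s(3, 4), s(4, 0), s(4, 1), s(4, 2)] := rfl
lemma inc_5 : inc 5 = [s(8, 5), s(9, 5), s(5, 22)] := rfl
lemma inc_6 : inc 6 = [s(8, 6), s(9, 6), s(6, 7), s(6, 12)] := rfl
lemma inc_7 : inc 7 = [s(8, 7), s(9, 7), s(6, 7), s(1, 7)] := rfl
lemma inc_8 : inc 8 = [s(8, 5), s(8, 6), s(8, 7), s(8, 9)] := rfl
lemma inc_9 : inc 9 = [s(8, 9), s(9, 5), s(9, 6), s(9, 7)] := rfl
lemma inc_10 : inc 10 = [s(13, 10), s(14, 10), s(10, 23)] := rfl
lemma inc_11 : inc 11 = [s(13, 11), s(14, 11), s(11, 12), s(11, 17)] := rfl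
lemma inc_12 : inc 12 = [s(13, 12), s(14, 12), s(11, 12), s(6, 12)] := rfl
lemma inc_13 : inc 13 = [s(13, 10), s(13, 11), s(13, 12), s(13, 14)] := rfl
lemma inc_14 : inc 14 = [s(13, 14), s(14, 10), s(14, 11), s(14, 12)] := rfl
lemma inc_15 : inc 15 = [s(18, 15), s(19, 15), s(15, 24)] := rfl
lemma inc_16 : inc 16 = [s(18, 16), s(19, 16), s(16, 17), s(16, 20)] := rfl
lemma inc_17 : inc 17 = [s(18, 17), s(19, 17), s(16, 17), s(11, 17)] := rfl
lemma inc_18 : inc 18 = [s(18, 15), s(18, 16), s(18, 17), s(18, 19)] := rfl
lemma inc_19 : inc 19 = [s(18, 19), s(19, 15), s(19, 16), s(19, 17)] := rfl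
lemma inc_20 : inc 20 = [s(16, 20), s(20, 2), s(20, 25)] := rfl
lemma inc_21 : inc 21 = [s(0, 21), s(21, 23), s(24, 21)] := rfl
lemma inc_22 : inc 22 = [s(5, 22), s(22, 24), s(25, 22)] := rfl
lemma inc_23 : inc 23 = [s(10, 23), s(21, 23), s(23, 25)] := rfl
lemma inc_24 : inc 24 = [s(15, 24), s(22, 24), s(24, 21)] := rfl
lemma inc_25 : inc 25 = [s(20, 25), s(23, 25), s(25, 22)] := rfl

lemma inc_nodup : ∀ x, (inc x).Nodup := by decide +kernel

lemma inc_mem : ∀ x, ∀ e ∈ eL, x ∈ e → e ∈ inc x := by decide +kernel

lemma inc_mem' : ∀ x, ∀ e ∈ inc x, x ∈ e := by decide +kernel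

/-! ### Connectivity -/

/-- Breadth-first distances in the graph minus two vertices `a ≤ b`, in base 16. -/
def tab : List (List ℕ) :=
  [[4220237048203994217533116846351, 2868076407960703507301501309183,
    6765466108403229831782235971343, 4220237048203994217533116903695,
    4220237048203994217533117763855, 4220237048203994217533129429263,
    4220237048204148201937781723407, 4220237048204148202233465475343,
    4220237048203994217588951421199, 4220237048203994218426470043919,
    4220237048203994228528233124111, 4220237048203994411047163334927,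
    4220237048204150735212354015503, 4220237048204043757129017921807,
    4220237048204786851067534053647, 4220237048215523432579185316111,
    4220237209282116390669528404239, 4220237051450621174505997930767,
    4220237100150025529099214197007, 4220237879340495202590674456847,
    6765476988735606363444808323343, 4220430476335132558201069834511,
    4302869545826293350882633388303, 4274725752745664783695473611023,
    5012518673346637593468556349711, 19441967114070143911759543603471],
   [3972263393321750480653979292400, 3972264602266016839356863553520,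
    3972263393321750480653979349744, 3972263393321750480653980209904,
    3972263393321750480800288150256, 3972263393321750480654130287344,
    3972263393321750480656395211504, 3972263393321750480696928965360,
    3972263393321750481341174059760, 3972263393321980757971254186736,
    3972263393321750656575839736560, 3972263393321753295403746398960,
    3972263393321800020249880367856, 3972263393322543114188396499696,
    3972263473615815747493230088944, 3972263393524664665464784360176,
    3972263396273229532447507550960, 3972263445267781792220076643056,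
    3972264224458251465711536902896, 3972277900450032600277785318128,
    5572571773765617403762292364016, 3975977213439606621624978182896,
    5304286875593049926066130457328, 5002539071300697187809848529648,
    19184070596060503298614417756912],
   [3972264602266016839283010248480, 3972264602266016839283010305824,
    3972264602266016839283011165984, 3972264602266016839283021782816,
    3972264602266016839283194797856, 3972264602266016839359279472416,
    3972264602266016839330254888736, 3972264602266016840038924492576,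
    3972264602266169992456666423072, 3972264602266017015204870692640,
    3972264602266019654032777355040, 3972264602266066378878911323936,
    3972264602266809472817427455776, 3972264763135460220085582503712,
    3972264602450484280020105764640, 3972264605217495891076538507040,
    3972264654212048150849107599136, 3972265433402517824340567858976,
    3972277900450032600203932016416, 9469922788581916060109436428064,
    3975978422383872980107708669728, 5304289293463058774081205772064,
    5002540360821494581833524911904, 19184074222856408886501798125344],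
   [3972263393321750480580126044704, 3972264602266016839356864525664,
    3972263393321750480580137579040, 3972263393321750480580310594080,
    3972263393321750480656395268640, 3972263393321750480627370684960,
    3972263393321750481336040288800, 3972263393321903633753782219296,
    3972263393321750656501986488864, 3972263393321753295329893151264,
    3972263393321800020176027120160, 3972263393322543114114543252000,
    3972263473615815747419376841248, 3972263393524664665390931112480,
    3972263396273229532373654303264, 3972263445267781792146223395360,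
    3972264224458251465637683655200, 3972277900450032600203932070432,
    5572571773765540279398220034592, 3975977213439606621404824465952,
    5304286875592972800749146862112, 5002539071300697187662712402464,
    19184070596060503298540564509216],
   [3972263393321750480580126904864, 3972263393321750480580138439200,
    3972263393321750480580311454240, 3972263393321750480656396128800,
    3972263393321750480627371545120, 3972263393321750481336041148960,
    3972263393321903633753783079456, 3972263393321750656501987349024,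
    3972263393321753295329894011424, 3972263393321800020176027980320,
    3972263393322543114114544112160, 3972263473615815747419377701408,
    3972263393524664665390931972640, 3972263396273229532373655163424,
    3972263445267781792146224255520, 3972264224458251465637684515360,
    3972277900450032600203932930592, 5572571773765540279398220894752,
    3975977213439606621404825326112, 5304286875592972800749147722272,
    5002539071300697187662713262624, 19184070596060503298540565369376],
   [3972263393321750480580137521696, 3972263393321750480580322071072,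
    3972263393321750480802435633696, 3972263393321750480627382161952,
    3972263393321750481336051765792, 3972263393321903633753793696288,
    3972263393321750656501997965856, 3972263393321753295329904628256,
    3972263393321800020176038597152, 3972263393322543114114554728992,
    3972263473615815747419388318240, 3972263393524664665390942589472,
    3972263396273229532373665780256, 3972263445267781792146234872352,
    3972264224458251465637695132192, 3972277900450032600203943547424,
    5572571773765540279398230463008, 3975977213439606621404834894368,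
    5304286875592972800749158339104, 5002539071300697187662722830880,
    19184070596060503298540575986208],
   [3972263393321750480580310536736, 3972263393321750480656546206240,
    3972263393321750480627555176992, 3972263393321750481336224780832,
    3972263393321980757897585431072, 3972263393321750656502170980896,
    3972263393321753295330077643296, 3972263393321800020176211612192,
    3972263393322543114114727744032, 3972263473615815747419561333280,
    3972263393524664665391115604512, 3972263396273229532373838795296,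
    3972263445267781792146407887392, 3972264224458251465637868147232,
    3972277900450032600204116562464, 5572571773765617403542023246368,
    3975977213439606621405008957984, 5304286875593049925992461701664,
    5002539071300697187662896894496, 19184070596060503298540749001248],
   [3972263393321750480656395211296, 3972263393321750480699344884256,
    3972263393321750481343589978656, 3972263393321980757973670105632,
    3972263393321750656578255655456, 3972263393321753295406162317856,
    3972263393321800020252296286752, 3972263393322543114190812418592,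
    3972263473615815747495646007840, 3972263393524664665467200279072,
    3972263396273229532449923469856, 3972263445267781792222492561952,
    3972264224458251465713952821792, 3972277900450032600280201237024,
    5572571773765617403764171412000, 3975977213439606621627125666336,
    5304286875593049926068546376224, 5002539071300697187811996013088,
    19184070596060503298616833675808],
   [3972263393321750480627370627616, 3972263393321750481383284871712,
    3972263393321903633801026802208, 3972263393321750656549231071776,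
    3972263393321753295377137734176, 3972263393321800020223271703072,
    3972263393322543114161787834912, 3972263473615815747466621424160,
    3972263393524664665438175695392, 3972263396273229532420898886176,
    3972263445267781792193467978272, 3972264224458251465684928238112,
    3972277900450032600251176653344, 5572571773765540279445464617504,
    3975977213439606621452069048864, 5304286875592972800796391445024,
    5002539071300697187709956985376, 19184070596060503298587809092128],
   [3972263393321750481336040231456, 3972263393321903634509696406048,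
    3972263393321750657257900675616, 3972263393321753296085807338016,
    3972263393321800020931941306912, 3972263393322543114870457438752,
    3972263473615815748175291028000, 3972263393524664666146845299232,
    3972263396273229533129568490016, 3972263445267781792902137582112,
    3972264224458251466393597841952, 3972277900450032600959846257184,
    5572571773765540280154134221344, 3975977213439606622160738652704,
    5304286875592972801505061048864, 5002539071300697188418626589216,
    19184070596060503299296478695968],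
   [3972263393321903633753782161952, 3972263393321903792083456561696,
    3972263393321983009697214566944, 3972263393321944166150428496416,
    3972263393322552152100123513376, 3972263473615968900593032958496,
    3972263393524817818564587229728, 3972263396273382685547310420512,
    3972263445267934945319879512608, 3972264224458404618811339772448,
    3972277900450185753377588187680, 5572571773765540289293824627232,
    3975977213439759774578480583200, 5304286875592972809545239826976,
    5002539071300850340836368519712, 19184070596060656451714220626464],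
   [3972263393321750656501986431520, 3972263393321753471251753538080,
    3972263393321800196097887506976, 3972263393322543290036403638816,
    3972263473615815923341237228064, 3972263393524664841312791499296,
    3972263396273229708295514690080, 3972263445267781968068083782176,
    3972264224458251641559544042016, 3972277900450032776125792457248,
    5572571773765540437727894376992, 3975977213439606797326684852768,
    5304286875592972959078821204512, 5002539071300697363584572789280,
    19184070596060503474462424896032],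
   [3972263393321753295329893093920, 3972263393321802834925794169376,
    3972263393322545928864310301216, 3972263473615818562169143890464,
    3972263393524667480140698161696, 3972263396273232347123421352480,
    3972263445267784606895990444576, 3972264224458254280387450704416,
    3972277900450035414953699119648, 5572571773765619655341652382240,
    3975977213439609436154591515168, 5304286875593052177792090837536,
    5002539071300700002412479451680, 19184070596060506113290331558432],
   [3972263393321800020176027062816, 3972263393322592671302630314528,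
    3972263473615865287015277859360, 3972263393524714204986832130592,
    3972263396273279071969555321376, 3972263445267831331742124413472,
    3972264224458301005233584673312, 3972277900450082139799833088544,
    5572571773765580811794866311712, 3975977213439656161000725484064,
    5304286875593013333145793139232, 5002539071300746727258613420576,
    19184070596060552838136465527328],
   [3972263393322543114114543194656, 3972263473616608380953793991200,
    3972263393525457298925348262432, 3972263396274022165908071453216,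
    3972263445268574425680640545312, 3972264224459044099172100805152,
    3972277900450825233738349220384, 5572571773766188797744561328672,
    3975977213440399254939241615904, 5304286875593621319095488156192,
    5002539071301489821197129552416, 19184070596061295932074981659168],
   [3972263473615815747419376783904, 3972263634674338254977471943200,
    3972263476567294799212905042464, 3972263520839480576115828920864,
    3972264229194453006562610975264, 3972278141636599677937892004384,
    5572571773775916572939681600032, 3975977293733671888244075205152,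
    5304286955887038067588397601312, 5002539071311073481204173967904,
    19184070676354568565379815248416],
   [3972263393524664665390931055136, 3972263396476143717184459313696,
    3972263445470695976957028405792, 3972264224661165650448488665632,
    3972277900634500040941027529248, 5572572015400593822424243442208,
    3975977213642520806215629476384, 5304286875795886985559951872544,
    5002539232361525538230021198368, 19184070596263417483351369519648],
   [3972263396273229532373654245920, 3972263448219260843939751596576,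
    3972264227409730517431211856416, 3972277903401511651997460271648,
    5572571776717019331191748235808, 3975977216391085673198352667168,
    5304286878544451852542675063328, 5002539074252176239456240603680,
    19184070599011982350334092710432],
   [3972263445267781792146223338016, 3972264276404282777203780948512,
    3972277952396063911770029363744, 5572571820989205108094672114208,
    3975977265385637932970921759264, 5304286927539004112315244155424,
    5002539118524362016359164482080, 19184070648006534610106661802528],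
   [3972264224458251465637683597856, 3972278731586533585261489623584,
    5572572529344177538541454168608, 3975978044576107606462382019104,
    5304287706729473785806704415264, 5002539826879334446805946536480,
    19184071427197004283598122062368],
   [3972277900450032600203932013088, 9469931251062653362513659367968,
    3975991720567888741028630434336, 5304301382721254920372952830496,
    5002553739323786961190441259552, 19184085103188785418164370477600],
   [5572571773765540279398219977248, 5654894786378018067679011738144,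
    5622089375336955491493696573984, 6285625236393919317740115530272,
    19611121304271573942922525086240],
   [3975977213439606621404824408608, 5308000695710828941573845226016,
    5005943406408731983418684936736, 19187784416178359439365262873120],
   [5304286875592972800749146804768, 6334872038581740852900457943584,
    19248443478103496217212882063904],
   [5002539071300697187662712345120, 20214965244059092695760600371744],
   [19184070596060503298540564451872]]

/-- The rank of `v` in the graph minus `a` and `b`, for `a ≤ b`. -/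
def rk (a b v : Fin 26) : ℕ := ((tab.getD a.1 []).getD (b.1 - a.1) 0) / 16 ^ v.1 % 16

/-- The rank of `v` in the graph. -/
def rk0 (v : Fin 26) : ℕ := 3972263393321750480580125987360 / 16 ^ v.1 % 16

/-- The root used when `a` and `b` are deleted. -/
def rt (a b : Fin 26) : Fin 26 :=
  if a ≠ 0 ∧ b ≠ 0 then 0 else if a ≠ 1 ∧ b ≠ 1 then 1 else 2

/-- Neighbours as lists. -/
def nbL : List (List (Fin 26)) :=
  [[3, 4, 21],
   [2, 3, 4, 7],
   [1, 3, 4, 20],
   [0, 1, 2, 4],
   [0, 1, 2, 3],
   [8, 9, 22],
   [7, 8, 9, 12],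
   [1, 6, 8, 9],
   [5, 6, 7, 9],
   [5, 6, 7, 8],
   [13, 14, 23],
   [12, 13, 14, 17],
   [6, 11, 13, 14],
   [10, 11, 12, 14],
   [10, 11, 12, 13],
   [18, 19, 24],
   [17, 18, 19, 20],
   [11, 16, 18, 19],
   [15, 16, 17, 19],
   [15, 16, 17, 18],
   [2, 16, 25],
   [0, 23, 24],
   [5, 24, 25],
   [10, 21, 25],
   [15, 21, 22],
   [20, 22, 23]]

/-- The neighbours of `x`. -/
def nb (x : Fin 26) : List (Fin 26) := nbL.getD x.1 []

lemma nb_adj : ∀ x, ∀ y ∈ nb x, G.Adj x y := by decide +kernel

lemma rt_check : ∀ a b : Fin 26, rt a b ≠ a ∧ rt a b ≠ b := by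
  decide +kernel

lemma rk_check1 : ∀ a b : Fin 26, a ≤ b → ∀ v : Fin 26, v ≠ a ∧ v ≠ b → rk a b v = 0 →
    v = rt a b := by
  decide +kernel

lemma rk_check2 : ∀ a b : Fin 26, a ≤ b → ∀ v : Fin 26, v ≠ a ∧ v ≠ b → rk a b v ≠ 0 →
      ∃ u ∈ nb v, rk a b u < rk a b v ∧ (u ≠ a ∧ u ≠ b) := by
  decide +kernel

lemma rk0_check1 : ∀ v : Fin 26, rk0 v = 0 → v = 0 := by
  decide +kernel

lemma rk0_check2 : ∀ v : Fin 26, rk0 v ≠ 0 → ∃ u ∈ nb v, rk0 u < rk0 v := by
  decide +kernel

lemma G_conn_pair (a b : Fin 26) (hab : a ≤ b) :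
    (G.induce ((↑({a, b} : Finset (Fin 26)) : Set (Fin 26))ᶜ)).Connected := by
  apply connected_of_rank G {a, b} (rk a b) (rt a b) (by simpa using rt_check a b)
  · intro v hv h
    exact rk_check1 a b hab v (by simpa using hv) h
  · intro v hv h
    obtain ⟨u, hm, h2, hu⟩ := rk_check2 a b hab v (by simpa using hv) h
    exact ⟨u, by simpa using hu, nb_adj v u hm, h2⟩

lemma G_three_connected : 3 < Fintype.card (Fin 26) ∧
    ∀ S : Finset (Fin 26), S.card < 3 → (G.induce ((↑S : Set (Fin 26))ᶜ)).Connected := by
  refine ⟨by simp, ?_⟩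
  intro S hS
  have hcases : S = ∅ ∨ ∃ a b : Fin 26, S = {a, b} := by
    rcases Nat.lt_or_ge S.card 1 with h | h
    · left
      exact Finset.card_eq_zero.1 (by omega)
    · rcases Nat.lt_or_ge S.card 2 with h' | h'
      · obtain ⟨a, ha⟩ := Finset.card_eq_one.1 (show S.card = 1 by omega)
        exact Or.inr ⟨a, a, by simp [ha]⟩
      · obtain ⟨a, b, _, hab⟩ := Finset.card_eq_two.1 (show S.card = 2 by omega)
        exact Or.inr ⟨a, b, hab⟩
  rcases hcases with rfl | ⟨a, b, rfl⟩
  · apply connected_of_rank G ∅ rk0 0 (by simp)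
    · intro v _ hv
      exact rk0_check1 v hv
    · intro v _ hv
      obtain ⟨u, hm, hu⟩ := rk0_check2 v hv
      exact ⟨u, by simp, nb_adj v u hm, hu⟩
  · rcases le_total a b with hab | hab
    · exact G_conn_pair a b hab
    · rw [Finset.pair_comm]
      exact G_conn_pair b a hab

/-! ### A cycle cover of total length 54 -/

def c0 : G.Walk 21 21 :=
  .cons (by decide : G.Adj 21 0) <|
  .cons (by decide : G.Adj 0 3) <|
  .cons (by decide : G.Adj 3 1) <|
  .cons (by decide : G.Adj 1 7) <|
  .cons (by decide : G.Adj 7 9) <|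
  .cons (by decide : G.Adj 9 5) <|
  .cons (by decide : G.Adj 5 22) <|
  .cons (by decide : G.Adj 22 24) <|
  .cons (by decide : G.Adj 24 15) <|
  .cons (by decide : G.Adj 15 19) <|
  .cons (by decide : G.Adj 19 17) <|
  .cons (by decide : G.Adj 17 11) <|
  .cons (by decide : G.Adj 11 13) <|
  .cons (by decide : G.Adj 13 10) <|
  .cons (by decide : G.Adj 10 23) <|
  .cons (by decide : G.Adj 23 21) .nil

lemma c0_cycle : c0.IsCycle := by
  rw [SimpleGraph.Walk.isCycle_def]
  refine ⟨?_, ?_, ?_⟩
  · rw [SimpleGraph.Walk.isTrail_def]; decide +kernel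
  · simp [c0]
  · decide +kernel

def c1 : G.Walk 21 21 :=
  .cons (by decide : G.Adj 21 0) <|
  .cons (by decide : G.Adj 0 4) <|
  .cons (by decide : G.Adj 4 2) <|
  .cons (by decide : G.Adj 2 20) <|
  .cons (by decide : G.Adj 20 25) <|
  .cons (by decide : G.Adj 25 23) <|
  .cons (by decide : G.Adj 23 21) .nil

lemma c1_cycle : c1.IsCycle := by
  rw [SimpleGraph.Walk.isCycle_def]
  refine ⟨?_, ?_, ?_⟩
  · rw [SimpleGraph.Walk.isTrail_def]; decide +kernel
  · simp [c1]
  · decide +kernel

def c2 : G.Walk 22 22 :=
  .cons (by decide : G.Adj 22 5) <|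
  .cons (by decide : G.Adj 5 8) <|
  .cons (by decide : G.Adj 8 6) <|
  .cons (by decide : G.Adj 6 12) <|
  .cons (by decide : G.Adj 12 14) <|
  .cons (by decide : G.Adj 14 10) <|
  .cons (by decide : G.Adj 10 23) <|
  .cons (by decide : G.Adj 23 21) <|
  .cons (by decide : G.Adj 21 24) <|
  .cons (by decide : G.Adj 24 15) <|
  .cons (by decide : G.Adj 15 18) <|
  .cons (by decide : G.Adj 18 16) <|
  .cons (by decide : G.Adj 16 20) <|
  .cons (by decide : G.Adj 20 25) <|
  .cons (by decide : G.Adj 25 22) .nil

lemma c2_cycle : c2.IsCycle := by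
  rw [SimpleGraph.Walk.isCycle_def]
  refine ⟨?_, ?_, ?_⟩
  · rw [SimpleGraph.Walk.isTrail_def]; decide +kernel
  · simp [c2]
  · decide +kernel

def c3 : G.Walk 3 3 :=
  .cons (by decide : G.Adj 3 2) <|
  .cons (by decide : G.Adj 2 1) <|
  .cons (by decide : G.Adj 1 4) <|
  .cons (by decide : G.Adj 4 3) .nil

lemma c3_cycle : c3.IsCycle := by
  rw [SimpleGraph.Walk.isCycle_def]
  refine ⟨?_, ?_, ?_⟩
  · rw [SimpleGraph.Walk.isTrail_def]; decide +kernel
  · simp [c3]
  · decide +kernel

def c4 : G.Walk 8 8 :=
  .cons (by decide : G.Adj 8 7) <|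
  .cons (by decide : G.Adj 7 6) <|
  .cons (by decide : G.Adj 6 9) <|
  .cons (by decide : G.Adj 9 8) .nil

lemma c4_cycle : c4.IsCycle := by
  rw [SimpleGraph.Walk.isCycle_def]
  refine ⟨?_, ?_, ?_⟩
  · rw [SimpleGraph.Walk.isTrail_def]; decide +kernel
  · simp [c4]
  · decide +kernel

def c5 : G.Walk 13 13 :=
  .cons (by decide : G.Adj 13 12) <|
  .cons (by decide : G.Adj 12 11) <|
  .cons (by decide : G.Adj 11 14) <|
  .cons (by decide : G.Adj 14 13) .nil

lemma c5_cycle : c5.IsCycle := by
  rw [SimpleGraph.Walk.isCycle_def]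
  refine ⟨?_, ?_, ?_⟩
  · rw [SimpleGraph.Walk.isTrail_def]; decide +kernel
  · simp [c5]
  · decide +kernel

def c6 : G.Walk 18 18 :=
  .cons (by decide : G.Adj 18 17) <|
  .cons (by decide : G.Adj 17 16) <|
  .cons (by decide : G.Adj 16 19) <|
  .cons (by decide : G.Adj 19 18) .nil

lemma c6_cycle : c6.IsCycle := by
  rw [SimpleGraph.Walk.isCycle_def]
  refine ⟨?_, ?_, ?_⟩
  · rw [SimpleGraph.Walk.isTrail_def]; decide +kernel
  · simp [c6]
  · decide +kernel

/-- The family of seven cycles. -/
def fam : List (Σ u : Fin 26, G.Walk u u) := [⟨21, c0⟩, ⟨21, c1⟩, ⟨22, c2⟩, ⟨3, c3⟩, ⟨8, c4⟩, ⟨13, c5⟩, ⟨18, c6⟩]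

lemma fam_cycles : ∀ C ∈ fam, C.2.IsCycle := by
  intro C hC
  simp only [fam, List.mem_cons, List.not_mem_nil, or_false] at hC
  rcases hC with rfl | rfl | rfl | rfl | rfl | rfl | rfl
  · exact c0_cycle
  · exact c1_cycle
  · exact c2_cycle
  · exact c3_cycle
  · exact c4_cycle
  · exact c5_cycle
  · exact c6_cycle

lemma fam_covers : ∀ e ∈ G.edgeSet, ∃ C ∈ fam, e ∈ C.2.edges := by
  intro e he
  rw [mem_edgeSet_iff] at he
  revert e
  decide +kernel

lemma fam_length : (fam.map (fun C => C.2.length)).sum = 54 := by
  decide +kernel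

/-! ### The lower bound -/

/-- parity of three weights -/
lemma xor3 {x y z : ℕ} (hx : 1 ≤ x ∧ x ≤ 2) (hy : 1 ≤ y ∧ y ≤ 2) (hz : 1 ≤ z ∧ z ≤ 2)
    (h : (x + y + z) % 2 = 0) :
    (decide (x = 2) ^^ decide (y = 2) ^^ decide (z = 2)) = true := by
  obtain ⟨hx1, hx2⟩ := hx
  obtain ⟨hy1, hy2⟩ := hy
  obtain ⟨hz1, hz2⟩ := hz
  interval_cases x <;> interval_cases y <;> interval_cases z <;> simp_all

/-- The internal edges of a gadget. -/
lemma gadget {em ea eb cm ca cb cd dm da db ab : ℕ}
    (h1 : 1 ≤ em ∧ em ≤ 2) (h2 : 1 ≤ ea ∧ ea ≤ 2) (h3 : 1 ≤ eb ∧ eb ≤ 2)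
    (h4 : 1 ≤ cm ∧ cm ≤ 2) (h5 : 1 ≤ ca ∧ ca ≤ 2) (h6 : 1 ≤ cb ∧ cb ≤ 2)
    (h7 : 1 ≤ cd ∧ cd ≤ 2) (h8 : 1 ≤ dm ∧ dm ≤ 2) (h9 : 1 ≤ da ∧ da ≤ 2)
    (h10 : 1 ≤ db ∧ db ≤ 2) (h11 : 1 ≤ ab ∧ ab ≤ 2)
    (pm : (em + cm + dm) % 2 = 0) (pa : (ea + ca + da + ab) % 2 = 0)
    (pb : (eb + cb + db + ab) % 2 = 0) (pc : (cm + ca + cb + cd) % 2 = 0)
    (pd : (cd + dm + da + db) % 2 = 0) :
    (em + ea + eb) % 2 = 0 ∧
    8 + (if em = 1 then 2 else if ea = 2 then 1 else 0) ≤ cm + ca + cb + cd + dm + da + db + ab := by
  constructor
  · omega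
  · have e1 : em = 1 ∨ em = 2 := by omega
    have e2 : ea = 1 ∨ ea = 2 := by omega
    have e3 : ca = 1 ∨ ca = 2 := by omega
    have e4 : cm = 1 ∨ cm = 2 := by omega
    have e5 : cb = 1 ∨ cb = 2 := by omega
    have e6 : ab = 1 ∨ ab = 2 := by omega
    rcases e1 with rfl | rfl <;> rcases e2 with rfl | rfl <;> rcases e3 with rfl | rfl <;>
      rcases e4 with rfl | rfl <;> rcases e5 with rfl | rfl <;> rcases e6 with rfl | rfl <;>
      simp only [if_true, Nat.reduceEqDiff, if_false] <;> omega

/-- the excess of a gadget -/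
def ex (t a : Bool) : ℕ := if t = false then 2 else if a = true then 1 else 0

lemma ex_eq {t a : ℕ} (ht : 1 ≤ t ∧ t ≤ 2) :
    ex (decide (t = 2)) (decide (a = 2)) = if t = 1 then 2 else if a = 2 then 1 else 0 := by
  unfold ex
  obtain ⟨h1, h2⟩ := ht
  interval_cases t <;> simp

lemma toNat_eq {x : ℕ} (hx : 1 ≤ x ∧ x ≤ 2) : x = 1 + (decide (x = 2)).toNat := by
  obtain ⟨h1, h2⟩ := hx
  interval_cases x <;> simp

/-- The six perfect matchings of the Petersen graph. -/
def pms : List (List Bool) :=
  [[true, false, true, false, false, false, false, false, false, true, true, true, false, false, false],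
   [true, false, false, true, false, false, false, true, false, false, false, false, false, true, true],
   [false, true, false, false, true, false, false, false, true, false, true, false, false, false, true],
   [false, false, true, false, true, false, true, false, false, false, false, false, true, true, false],
   [false, true, false, true, false, true, false, false, false, false, false, true, true, false, false],
   [false, false, false, false, false, true, true, true, true, true, false, false, false, false, false]]

set_option synthInstance.maxSize 100000 in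
lemma plevel : ∀ A4 A0 T0 : Bool, (A4 ^^ A0 ^^ T0) = true → ∀ A1 T1 : Bool,
    (A0 ^^ A1 ^^ T1) = true → ∀ A2 T2 : Bool, (A1 ^^ A2 ^^ T2) = true → ∀ A3 T3 : Bool,
    (A2 ^^ A3 ^^ T3) = true → ∀ T4 : Bool, (A3 ^^ A4 ^^ T4) = true →
    ∀ B0 B3 : Bool, (B0 ^^ B3 ^^ T0) = true → ∀ B1 : Bool, (B3 ^^ B1 ^^ T3) = true →
    ∀ B4 : Bool, (B1 ^^ B4 ^^ T1) = true → ∀ B2 : Bool, (B2 ^^ B0 ^^ T2) = true →
    (B4 ^^ B2 ^^ T4) = true →
    (A0.toNat + A1.toNat + A2.toNat + A3.toNat + A4.toNat
      + (T0.toNat + T1.toNat + T2.toNat + T3.toNat + T4.toNat)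
      + (B0.toNat + B1.toNat + B2.toNat + B3.toNat + B4.toNat)
      + (ex T0 A0 + ex T1 A1 + ex T2 A2 + ex T3 A3) ≤ 7) →
    [A0, A1, A2, A3, A4, T0, T1, T2, T3, T4, B0, B1, B2, B3, B4] ∈ pms := by
  decide +kernel

/-- membership indicator -/
def chi (F : List (Σ u : Fin 26, G.Walk u u)) (e : Sym2 (Fin 26)) (k : Fin F.length) : ℕ :=
  if e ∈ (F.get k).2.edges then 1 else 0

/-- the indices of the members that contain `e` -/
def S (F : List (Σ u : Fin 26, G.Walk u u)) (e : Sym2 (Fin 26)) : Finset (Fin F.length) :=
  univ.filter (fun k => e ∈ (F.get k).2.edges)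

lemma ite_S (F : List (Σ u : Fin 26, G.Walk u u)) (e : Sym2 (Fin 26)) (k : Fin F.length) :
    (if k ∈ S F e then 1 else 0) = chi F e k := by
  simp [S, chi]

lemma card_S (F : List (Σ u : Fin 26, G.Walk u u)) (e : Sym2 (Fin 26)) :
    (S F e).card = cov F e :=
  (countP_eq_card (fun C : (Σ u : Fin 26, G.Walk u u) => e ∈ C.2.edges) F).symm

lemma chi_parity (F : List (Σ u : Fin 26, G.Walk u u)) (hF : ∀ C ∈ F, C.2.IsCycle)
    (x : Fin 26) (k : Fin F.length) : ((inc x).map (fun e => chi F e k)).sum % 2 = 0 := by
  have hC := hF (F.get k) (List.get_mem F k)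
  have h := inc_parity (F.get k).2 x (inc x) (inc_nodup x) (inc_mem' x)
    (fun e he => inc_mem x e ((mem_edgeSet_iff e).1 he))
  rw [← h]
  congr 2
  apply List.map_congr_left
  intro e _
  rw [count_cycle hC]
  rfl

lemma cov_parity (F : List (Σ u : Fin 26, G.Walk u u)) (hF : ∀ C ∈ F, C.2.IsCycle)
    (x : Fin 26) : ((inc x).map (fun e => cov F e)).sum % 2 = 0 :=
  family_parity F hF x (inc x) (inc_nodup x) (inc_mem' x)
    (fun e he => inc_mem x e ((mem_edgeSet_iff e).1 he))

lemma par0 (F : List (Σ u : Fin 26, G.Walk u u)) (hF : ∀ C ∈ F, C.2.IsCycle) :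
    Par (S F s(20, 2)) (S F s(1, 7)) (S F s(0, 21)) := by
  intro k
  rw [ite_S, ite_S, ite_S]
  have h0 := chi_parity F hF 0 k
  have h1 := chi_parity F hF 1 k
  have h2 := chi_parity F hF 2 k
  have h3 := chi_parity F hF 3 k
  have h4 := chi_parity F hF 4 k
  simp only [inc_0, inc_1, inc_2, inc_3, inc_4, List.map_cons, List.map_nil, List.sum_cons, List.sum_nil] at h0 h1 h2 h3 h4
  omega

lemma par1 (F : List (Σ u : Fin 26, G.Walk u u)) (hF : ∀ C ∈ F, C.2.IsCycle) :
    Par (S F s(1, 7)) (S F s(6, 12)) (S F s(5, 22)) := by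
  intro k
  rw [ite_S, ite_S, ite_S]
  have h0 := chi_parity F hF 5 k
  have h1 := chi_parity F hF 6 k
  have h2 := chi_parity F hF 7 k
  have h3 := chi_parity F hF 8 k
  have h4 := chi_parity F hF 9 k
  simp only [inc_5, inc_6, inc_7, inc_8, inc_9, List.map_cons, List.map_nil, List.sum_cons, List.sum_nil] at h0 h1 h2 h3 h4
  omega

lemma par2 (F : List (Σ u : Fin 26, G.Walk u u)) (hF : ∀ C ∈ F, C.2.IsCycle) :
    Par (S F s(6, 12)) (S F s(11, 17)) (S F s(10, 23)) := by
  intro k
  rw [ite_S, ite_S, ite_S]
  have h0 := chi_parity F hF 10 k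
  have h1 := chi_parity F hF 11 k
  have h2 := chi_parity F hF 12 k
  have h3 := chi_parity F hF 13 k
  have h4 := chi_parity F hF 14 k
  simp only [inc_10, inc_11, inc_12, inc_13, inc_14, List.map_cons, List.map_nil, List.sum_cons, List.sum_nil] at h0 h1 h2 h3 h4
  omega

lemma par3 (F : List (Σ u : Fin 26, G.Walk u u)) (hF : ∀ C ∈ F, C.2.IsCycle) :
    Par (S F s(11, 17)) (S F s(16, 20)) (S F s(15, 24)) := by
  intro k
  rw [ite_S, ite_S, ite_S]
  have h0 := chi_parity F hF 15 k
  have h1 := chi_parity F hF 16 k
  have h2 := chi_parity F hF 17 k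
  have h3 := chi_parity F hF 18 k
  have h4 := chi_parity F hF 19 k
  simp only [inc_15, inc_16, inc_17, inc_18, inc_19, List.map_cons, List.map_nil, List.sum_cons, List.sum_nil] at h0 h1 h2 h3 h4
  omega

lemma par4 (F : List (Σ u : Fin 26, G.Walk u u)) (hF : ∀ C ∈ F, C.2.IsCycle) :
    Par (S F s(16, 20)) (S F s(20, 2)) (S F s(20, 25)) := by
  intro k
  rw [ite_S, ite_S, ite_S]
  have h0 := chi_parity F hF 20 k
  simp only [inc_20, List.map_cons, List.map_nil, List.sum_cons, List.sum_nil] at h0
  omega

lemma par5 (F : List (Σ u : Fin 26, G.Walk u u)) (hF : ∀ C ∈ F, C.2.IsCycle) :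
    Par (S F s(21, 23)) (S F s(24, 21)) (S F s(0, 21)) := by
  intro k
  rw [ite_S, ite_S, ite_S]
  have h0 := chi_parity F hF 21 k
  simp only [inc_21, List.map_cons, List.map_nil, List.sum_cons, List.sum_nil] at h0
  omega

lemma par6 (F : List (Σ u : Fin 26, G.Walk u u)) (hF : ∀ C ∈ F, C.2.IsCycle) :
    Par (S F s(22, 24)) (S F s(25, 22)) (S F s(5, 22)) := by
  intro k
  rw [ite_S, ite_S, ite_S]
  have h0 := chi_parity F hF 22 k
  simp only [inc_22, List.map_cons, List.map_nil, List.sum_cons, List.sum_nil] at h0
  omega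

lemma par7 (F : List (Σ u : Fin 26, G.Walk u u)) (hF : ∀ C ∈ F, C.2.IsCycle) :
    Par (S F s(23, 25)) (S F s(21, 23)) (S F s(10, 23)) := by
  intro k
  rw [ite_S, ite_S, ite_S]
  have h0 := chi_parity F hF 23 k
  simp only [inc_23, List.map_cons, List.map_nil, List.sum_cons, List.sum_nil] at h0
  omega

lemma par8 (F : List (Σ u : Fin 26, G.Walk u u)) (hF : ∀ C ∈ F, C.2.IsCycle) :
    Par (S F s(24, 21)) (S F s(22, 24)) (S F s(15, 24)) := by
  intro k
  rw [ite_S, ite_S, ite_S]
  have h0 := chi_parity F hF 24 k
  simp only [inc_24, List.map_cons, List.map_nil, List.sum_cons, List.sum_nil] at h0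
  omega

lemma par9 (F : List (Σ u : Fin 26, G.Walk u u)) (hF : ∀ C ∈ F, C.2.IsCycle) :
    Par (S F s(25, 22)) (S F s(23, 25)) (S F s(20, 25)) := by
  intro k
  rw [ite_S, ite_S, ite_S]
  have h0 := chi_parity F hF 25 k
  simp only [inc_25, List.map_cons, List.map_nil, List.sum_cons, List.sum_nil] at h0
  omega

lemma gad0 (F : List (Σ u : Fin 26, G.Walk u u)) (hF : ∀ C ∈ F, C.2.IsCycle)
    (hr : ∀ e ∈ eL, 1 ≤ cov F e ∧ cov F e ≤ 2) :
    (cov F s(0, 21) + cov F s(1, 7) + cov F s(20, 2)) % 2 = 0 ∧
    8 + (if cov F s(0, 21) = 1 then 2 else if cov F s(1, 7) = 2 then 1 else 0) ≤ cov F s(3, 0) + cov F s(3, 1) + cov F s(3, 2) + cov F s(3, 4) + cov F s(4, 0) + cov F s(4, 1) + cov F s(4, 2) + cov F s(1, 2) := by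
  have h0 := cov_parity F hF 0
  have h1 := cov_parity F hF 1
  have h2 := cov_parity F hF 2
  have h3 := cov_parity F hF 3
  have h4 := cov_parity F hF 4
  simp only [inc_0, inc_1, inc_2, inc_3, inc_4, List.map_cons, List.map_nil, List.sum_cons, List.sum_nil] at h0 h1 h2 h3 h4
  exact gadget (hr s(0, 21) (by decide +kernel)) (hr s(1, 7) (by decide +kernel)) (hr s(20, 2) (by decide +kernel)) (hr s(3, 0) (by decide +kernel)) (hr s(3, 1) (by decide +kernel)) (hr s(3, 2) (by decide +kernel)) (hr s(3, 4) (by decide +kernel)) (hr s(4, 0) (by decide +kernel)) (hr s(4, 1) (by decide +kernel)) (hr s(4, 2) (by decide +kernel)) (hr s(1, 2) (by decide +kernel))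
    (by omega) (by omega) (by omega) (by omega) (by omega)

lemma gad1 (F : List (Σ u : Fin 26, G.Walk u u)) (hF : ∀ C ∈ F, C.2.IsCycle)
    (hr : ∀ e ∈ eL, 1 ≤ cov F e ∧ cov F e ≤ 2) :
    (cov F s(5, 22) + cov F s(6, 12) + cov F s(1, 7)) % 2 = 0 ∧
    8 + (if cov F s(5, 22) = 1 then 2 else if cov F s(6, 12) = 2 then 1 else 0) ≤ cov F s(8, 5) + cov F s(8, 6) + cov F s(8, 7) + cov F s(8, 9) + cov F s(9, 5) + cov F s(9, 6) + cov F s(9, 7) + cov F s(6, 7) := by
  have h0 := cov_parity F hF 5
  have h1 := cov_parity F hF 6
  have h2 := cov_parity F hF 7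
  have h3 := cov_parity F hF 8
  have h4 := cov_parity F hF 9
  simp only [inc_5, inc_6, inc_7, inc_8, inc_9, List.map_cons, List.map_nil, List.sum_cons, List.sum_nil] at h0 h1 h2 h3 h4
  exact gadget (hr s(5, 22) (by decide +kernel)) (hr s(6, 12) (by decide +kernel)) (hr s(1, 7) (by decide +kernel)) (hr s(8, 5) (by decide +kernel)) (hr s(8, 6) (by decide +kernel)) (hr s(8, 7) (by decide +kernel)) (hr s(8, 9) (by decide +kernel)) (hr s(9, 5) (by decide +kernel)) (hr s(9, 6) (by decide +kernel)) (hr s(9, 7) (by decide +kernel)) (hr s(6, 7) (by decide +kernel))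
    (by omega) (by omega) (by omega) (by omega) (by omega)

lemma gad2 (F : List (Σ u : Fin 26, G.Walk u u)) (hF : ∀ C ∈ F, C.2.IsCycle)
    (hr : ∀ e ∈ eL, 1 ≤ cov F e ∧ cov F e ≤ 2) :
    (cov F s(10, 23) + cov F s(11, 17) + cov F s(6, 12)) % 2 = 0 ∧
    8 + (if cov F s(10, 23) = 1 then 2 else if cov F s(11, 17) = 2 then 1 else 0) ≤ cov F s(13, 10) + cov F s(13, 11) + cov F s(13, 12) + cov F s(13, 14) + cov F s(14, 10) + cov F s(14, 11) + cov F s(14, 12) + cov F s(11, 12) := by
  have h0 := cov_parity F hF 10
  have h1 := cov_parity F hF 11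
  have h2 := cov_parity F hF 12
  have h3 := cov_parity F hF 13
  have h4 := cov_parity F hF 14
  simp only [inc_10, inc_11, inc_12, inc_13, inc_14, List.map_cons, List.map_nil, List.sum_cons, List.sum_nil] at h0 h1 h2 h3 h4
  exact gadget (hr s(10, 23) (by decide +kernel)) (hr s(11, 17) (by decide +kernel)) (hr s(6, 12) (by decide +kernel)) (hr s(13, 10) (by decide +kernel)) (hr s(13, 11) (by decide +kernel)) (hr s(13, 12) (by decide +kernel)) (hr s(13, 14) (by decide +kernel)) (hr s(14, 10) (by decide +kernel)) (hr s(14, 11) (by decide +kernel)) (hr s(14, 12) (by decide +kernel)) (hr s(11, 12) (by decide +kernel))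
    (by omega) (by omega) (by omega) (by omega) (by omega)

lemma gad3 (F : List (Σ u : Fin 26, G.Walk u u)) (hF : ∀ C ∈ F, C.2.IsCycle)
    (hr : ∀ e ∈ eL, 1 ≤ cov F e ∧ cov F e ≤ 2) :
    (cov F s(15, 24) + cov F s(16, 20) + cov F s(11, 17)) % 2 = 0 ∧
    8 + (if cov F s(15, 24) = 1 then 2 else if cov F s(16, 20) = 2 then 1 else 0) ≤ cov F s(18, 15) + cov F s(18, 16) + cov F s(18, 17) + cov F s(18, 19) + cov F s(19, 15) + cov F s(19, 16) + cov F s(19, 17) + cov F s(16, 17) := by
  have h0 := cov_parity F hF 15
  have h1 := cov_parity F hF 16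
  have h2 := cov_parity F hF 17
  have h3 := cov_parity F hF 18
  have h4 := cov_parity F hF 19
  simp only [inc_15, inc_16, inc_17, inc_18, inc_19, List.map_cons, List.map_nil, List.sum_cons, List.sum_nil] at h0 h1 h2 h3 h4
  exact gadget (hr s(15, 24) (by decide +kernel)) (hr s(16, 20) (by decide +kernel)) (hr s(11, 17) (by decide +kernel)) (hr s(18, 15) (by decide +kernel)) (hr s(18, 16) (by decide +kernel)) (hr s(18, 17) (by decide +kernel)) (hr s(18, 19) (by decide +kernel)) (hr s(19, 15) (by decide +kernel)) (hr s(19, 16) (by decide +kernel)) (hr s(19, 17) (by decide +kernel)) (hr s(16, 17) (by decide +kernel))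
    (by omega) (by omega) (by omega) (by omega) (by omega)

lemma cpar4 (F : List (Σ u : Fin 26, G.Walk u u)) (hF : ∀ C ∈ F, C.2.IsCycle) :
    (cov F s(16, 20) + cov F s(20, 2) + cov F s(20, 25)) % 2 = 0 := by
  have h0 := cov_parity F hF 20
  simp only [inc_20, List.map_cons, List.map_nil, List.sum_cons, List.sum_nil] at h0
  omega

lemma cpar5 (F : List (Σ u : Fin 26, G.Walk u u)) (hF : ∀ C ∈ F, C.2.IsCycle) :
    (cov F s(21, 23) + cov F s(24, 21) + cov F s(0, 21)) % 2 = 0 := by
  have h0 := cov_parity F hF 21
  simp only [inc_21, List.map_cons, List.map_nil, List.sum_cons, List.sum_nil] at h0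
  omega

lemma cpar6 (F : List (Σ u : Fin 26, G.Walk u u)) (hF : ∀ C ∈ F, C.2.IsCycle) :
    (cov F s(22, 24) + cov F s(25, 22) + cov F s(5, 22)) % 2 = 0 := by
  have h0 := cov_parity F hF 22
  simp only [inc_22, List.map_cons, List.map_nil, List.sum_cons, List.sum_nil] at h0
  omega

lemma cpar7 (F : List (Σ u : Fin 26, G.Walk u u)) (hF : ∀ C ∈ F, C.2.IsCycle) :
    (cov F s(23, 25) + cov F s(21, 23) + cov F s(10, 23)) % 2 = 0 := by
  have h0 := cov_parity F hF 23
  simp only [inc_23, List.map_cons, List.map_nil, List.sum_cons, List.sum_nil] at h0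
  omega

lemma cpar8 (F : List (Σ u : Fin 26, G.Walk u u)) (hF : ∀ C ∈ F, C.2.IsCycle) :
    (cov F s(24, 21) + cov F s(22, 24) + cov F s(15, 24)) % 2 = 0 := by
  have h0 := cov_parity F hF 24
  simp only [inc_24, List.map_cons, List.map_nil, List.sum_cons, List.sum_nil] at h0
  omega

lemma cpar9 (F : List (Σ u : Fin 26, G.Walk u u)) (hF : ∀ C ∈ F, C.2.IsCycle) :
    (cov F s(25, 22) + cov F s(23, 25) + cov F s(20, 25)) % 2 = 0 := by
  have h0 := cov_parity F hF 25
  simp only [inc_25, List.map_cons, List.map_nil, List.sum_cons, List.sum_nil] at h0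
  omega

lemma plevel_nat {A0 A1 A2 A3 A4 T0 T1 T2 T3 T4 B0 B1 B2 B3 B4 : ℕ}
    (rA0 : 1 ≤ A0 ∧ A0 ≤ 2) (rA1 : 1 ≤ A1 ∧ A1 ≤ 2) (rA2 : 1 ≤ A2 ∧ A2 ≤ 2) (rA3 : 1 ≤ A3 ∧ A3 ≤ 2) (rA4 : 1 ≤ A4 ∧ A4 ≤ 2) (rT0 : 1 ≤ T0 ∧ T0 ≤ 2) (rT1 : 1 ≤ T1 ∧ T1 ≤ 2) (rT2 : 1 ≤ T2 ∧ T2 ≤ 2) (rT3 : 1 ≤ T3 ∧ T3 ≤ 2) (rT4 : 1 ≤ T4 ∧ T4 ≤ 2) (rB0 : 1 ≤ B0 ∧ B0 ≤ 2) (rB1 : 1 ≤ B1 ∧ B1 ≤ 2) (rB2 : 1 ≤ B2 ∧ B2 ≤ 2) (rB3 : 1 ≤ B3 ∧ B3 ≤ 2) (rB4 : 1 ≤ B4 ∧ B4 ≤ 2)
    (p0 : (A4 + A0 + T0) % 2 = 0) (p1 : (A0 + A1 + T1) % 2 = 0) (p2 : (A1 + A2 + T2) % 2 = 0) (p3 : (A2 + A3 + T3) % 2 = 0) (p4 : (A3 + A4 + T4) % 2 = 0) (p5 : (B0 + B3 + T0) % 2 = 0) (p6 : (B1 + B4 + T1) % 2 = 0) (p7 : (B2 + B0 + T2) % 2 = 0) (p8 : (B3 + B1 + T3) % 2 = 0) (p9 : (B4 + B2 + T4) % 2 = 0)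
    (h : A0 + A1 + A2 + A3 + A4 + T0 + T1 + T2 + T3 + T4 + B0 + B1 + B2 + B3 + B4
      + ((if T0 = 1 then 2 else if A0 = 2 then 1 else 0)
      + (if T1 = 1 then 2 else if A1 = 2 then 1 else 0)
      + (if T2 = 1 then 2 else if A2 = 2 then 1 else 0)
      + (if T3 = 1 then 2 else if A3 = 2 then 1 else 0)) ≤ 22) :
    [decide (A0 = 2), decide (A1 = 2), decide (A2 = 2), decide (A3 = 2), decide (A4 = 2), decide (T0 = 2), decide (T1 = 2), decide (T2 = 2), decide (T3 = 2), decide (T4 = 2), decide (B0 = 2), decide (B1 = 2), decide (B2 = 2), decide (B3 = 2), decide (B4 = 2)] ∈ pms := by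
  apply plevel (decide (A4 = 2)) (decide (A0 = 2)) (decide (T0 = 2)) (xor3 rA4 rA0 rT0 p0)
    (decide (A1 = 2)) (decide (T1 = 2)) (xor3 rA0 rA1 rT1 p1)
    (decide (A2 = 2)) (decide (T2 = 2)) (xor3 rA1 rA2 rT2 p2)
    (decide (A3 = 2)) (decide (T3 = 2)) (xor3 rA2 rA3 rT3 p3)
    (decide (T4 = 2)) (xor3 rA3 rA4 rT4 p4)
    (decide (B0 = 2)) (decide (B3 = 2)) (xor3 rB0 rB3 rT0 p5)
    (decide (B1 = 2)) (xor3 rB3 rB1 rT3 p8)
    (decide (B4 = 2)) (xor3 rB1 rB4 rT1 p6)
    (decide (B2 = 2)) (xor3 rB2 rB0 rT2 p7)
    (xor3 rB4 rB2 rT4 p9)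
  rw [ex_eq rT0, ex_eq rT1, ex_eq rT2, ex_eq rT3]

  have tA0 := toNat_eq rA0
  have tA1 := toNat_eq rA1
  have tA2 := toNat_eq rA2
  have tA3 := toNat_eq rA3
  have tA4 := toNat_eq rA4
  have tT0 := toNat_eq rT0
  have tT1 := toNat_eq rT1
  have tT2 := toNat_eq rT2
  have tT3 := toNat_eq rT3
  have tT4 := toNat_eq rT4
  have tB0 := toNat_eq rB0
  have tB1 := toNat_eq rB1
  have tB2 := toNat_eq rB2
  have tB3 := toNat_eq rB3
  have tB4 := toNat_eq rB4
  linarith

lemma rot3 {a b c : ℕ} (h : (a + b + c) % 2 = 0) : (c + b + a) % 2 = 0 := by omega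

theorem main (F : List (Σ u : Fin 26, G.Walk u u)) (hF : ∀ C ∈ F, C.2.IsCycle)
    (hr : ∀ e ∈ eL, 1 ≤ cov F e ∧ cov F e ≤ 2)
    (hlen : (F.map (fun C => C.2.length)).sum ≤ 54) : False := by
  rw [family_length F hF eL eL_nodup (fun e he => (mem_edgeSet_iff e).1 he)] at hlen
  simp only [eL, List.map_cons, List.map_nil, List.sum_cons, List.sum_nil] at hlen
  obtain ⟨p0, g0⟩ := gad0 F hF hr
  obtain ⟨p1, g1⟩ := gad1 F hF hr
  obtain ⟨p2, g2⟩ := gad2 F hF hr
  obtain ⟨p3, g3⟩ := gad3 F hF hr
  have rA0 := hr s(1, 7) (by decide +kernel)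
  have rA1 := hr s(6, 12) (by decide +kernel)
  have rA2 := hr s(11, 17) (by decide +kernel)
  have rA3 := hr s(16, 20) (by decide +kernel)
  have rA4 := hr s(20, 2) (by decide +kernel)
  have rT0 := hr s(0, 21) (by decide +kernel)
  have rT1 := hr s(5, 22) (by decide +kernel)
  have rT2 := hr s(10, 23) (by decide +kernel)
  have rT3 := hr s(15, 24) (by decide +kernel)
  have rT4 := hr s(20, 25) (by decide +kernel)
  have rB0 := hr s(21, 23) (by decide +kernel)
  have rB1 := hr s(22, 24) (by decide +kernel)
  have rB2 := hr s(23, 25) (by decide +kernel)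
  have rB3 := hr s(24, 21) (by decide +kernel)
  have rB4 := hr s(25, 22) (by decide +kernel)
  have key := plevel_nat rA0 rA1 rA2 rA3 rA4 rT0 rT1 rT2 rT3 rT4 rB0 rB1 rB2 rB3 rB4
    (rot3 p0) (rot3 p1) (rot3 p2) (rot3 p3) (cpar4 F hF) (cpar5 F hF) (cpar6 F hF) (cpar7 F hF) (cpar8 F hF) (cpar9 F hF) (by linarith)
  clear hlen g0 g1 g2 g3
  simp only [pms, List.mem_cons, List.not_mem_nil, or_false, List.cons.injEq, and_true,
    decide_eq_true_eq, decide_eq_false_iff_not] at key
  rcases key with ⟨kA0, kA1, kA2, kA3, kA4, kT0, kT1, kT2, kT3, kT4, kB0, kB1, kB2, kB3, kB4⟩ | ⟨kA0, kA1, kA2, kA3, kA4, kT0, kT1, kT2, kT3, kT4, kB0, kB1, kB2, kB3, kB4⟩ | ⟨kA0, kA1, kA2, kA3, kA4, kT0, kT1, kT2, kT3, kT4, kB0, kB1, kB2, kB3, kB4⟩ | ⟨kA0, kA1, kA2, kA3, kA4, kT0, kT1, kT2, kT3, kT4, kB0, kB1, kB2, kB3, kB4⟩ | ⟨kA0, kA1, kA2, kA3, kA4, kT0, kT1, kT2, kT3, kT4, kB0, kB1, kB2, kB3, kB4⟩ | ⟨kA0, kA1, kA2, kA3, kA4, kT0, kT1, kT2, kT3, kT4, kB0, kB1, kB2, kB3, kB4⟩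
  · exact no_cover
      ((card_S F s(20, 2)).trans (show cov F s(20, 2) = 1 by omega))
      ((card_S F s(16, 20)).trans (show cov F s(16, 20) = 1 by omega))
      ((card_S F s(15, 24)).trans (show cov F s(15, 24) = 1 by omega))
      ((card_S F s(24, 21)).trans (show cov F s(24, 21) = 1 by omega))
      ((card_S F s(0, 21)).trans (show cov F s(0, 21) = 1 by omega))
      ((card_S F s(1, 7)).trans (show cov F s(1, 7) = 2 by omega))
      ((card_S F s(20, 25)).trans (show cov F s(20, 25) = 2 by omega))
      ((card_S F s(11, 17)).trans (show cov F s(11, 17) = 2 by omega))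
      ((card_S F s(22, 24)).trans (show cov F s(22, 24) = 2 by omega))
      ((card_S F s(21, 23)).trans (show cov F s(21, 23) = 2 by omega))
      ((card_S F s(6, 12)).trans (show cov F s(6, 12) = 1 by omega))
      ((card_S F s(25, 22)).trans (show cov F s(25, 22) = 1 by omega))
      ((card_S F s(10, 23)).trans (show cov F s(10, 23) = 1 by omega))
      ((card_S F s(5, 22)).trans (show cov F s(5, 22) = 1 by omega))
      ((card_S F s(23, 25)).trans (show cov F s(23, 25) = 1 by omega))
      (par0 F hF).p312 (par4 F hF).p213 (par3 F hF).p231 (par8 F hF).p312 (par5 F hF).p231 (par1 F hF).p231 (par9 F hF) (par2 F hF).p312 (par6 F hF).p321 (par7 F hF).p132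
  · exact no_cover
      ((card_S F s(20, 2)).trans (show cov F s(20, 2) = 1 by omega))
      ((card_S F s(20, 25)).trans (show cov F s(20, 25) = 1 by omega))
      ((card_S F s(23, 25)).trans (show cov F s(23, 25) = 1 by omega))
      ((card_S F s(21, 23)).trans (show cov F s(21, 23) = 1 by omega))
      ((card_S F s(0, 21)).trans (show cov F s(0, 21) = 1 by omega))
      ((card_S F s(1, 7)).trans (show cov F s(1, 7) = 2 by omega))
      ((card_S F s(16, 20)).trans (show cov F s(16, 20) = 2 by omega))
      ((card_S F s(25, 22)).trans (show cov F s(25, 22) = 2 by omega))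
      ((card_S F s(10, 23)).trans (show cov F s(10, 23) = 2 by omega))
      ((card_S F s(24, 21)).trans (show cov F s(24, 21) = 2 by omega))
      ((card_S F s(5, 22)).trans (show cov F s(5, 22) = 1 by omega))
      ((card_S F s(11, 17)).trans (show cov F s(11, 17) = 1 by omega))
      ((card_S F s(22, 24)).trans (show cov F s(22, 24) = 1 by omega))
      ((card_S F s(6, 12)).trans (show cov F s(6, 12) = 1 by omega))
      ((card_S F s(15, 24)).trans (show cov F s(15, 24) = 1 by omega))
      (par0 F hF).p312 (par4 F hF).p231 (par9 F hF).p321 (par7 F hF) (par5 F hF).p132 (par1 F hF).p321 (par3 F hF).p132 (par6 F hF).p132 (par2 F hF) (par8 F hF).p321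
  · exact no_cover
      ((card_S F s(1, 7)).trans (show cov F s(1, 7) = 1 by omega))
      ((card_S F s(5, 22)).trans (show cov F s(5, 22) = 1 by omega))
      ((card_S F s(22, 24)).trans (show cov F s(22, 24) = 1 by omega))
      ((card_S F s(24, 21)).trans (show cov F s(24, 21) = 1 by omega))
      ((card_S F s(0, 21)).trans (show cov F s(0, 21) = 1 by omega))
      ((card_S F s(20, 2)).trans (show cov F s(20, 2) = 2 by omega))
      ((card_S F s(6, 12)).trans (show cov F s(6, 12) = 2 by omega))
      ((card_S F s(25, 22)).trans (show cov F s(25, 22) = 2 by omega))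
      ((card_S F s(15, 24)).trans (show cov F s(15, 24) = 2 by omega))
      ((card_S F s(21, 23)).trans (show cov F s(21, 23) = 2 by omega))
      ((card_S F s(20, 25)).trans (show cov F s(20, 25) = 1 by omega))
      ((card_S F s(11, 17)).trans (show cov F s(11, 17) = 1 by omega))
      ((card_S F s(23, 25)).trans (show cov F s(23, 25) = 1 by omega))
      ((card_S F s(16, 20)).trans (show cov F s(16, 20) = 1 by omega))
      ((card_S F s(10, 23)).trans (show cov F s(10, 23) = 1 by omega))
      (par0 F hF).p321 (par1 F hF).p132 (par6 F hF).p312 (par8 F hF).p213 (par5 F hF).p231 (par4 F hF).p312 (par2 F hF).p231 (par9 F hF).p231 (par3 F hF).p213 (par7 F hF).p312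
  · exact no_cover
      ((card_S F s(1, 7)).trans (show cov F s(1, 7) = 1 by omega))
      ((card_S F s(6, 12)).trans (show cov F s(6, 12) = 1 by omega))
      ((card_S F s(10, 23)).trans (show cov F s(10, 23) = 1 by omega))
      ((card_S F s(21, 23)).trans (show cov F s(21, 23) = 1 by omega))
      ((card_S F s(0, 21)).trans (show cov F s(0, 21) = 1 by omega))
      ((card_S F s(20, 2)).trans (show cov F s(20, 2) = 2 by omega))
      ((card_S F s(5, 22)).trans (show cov F s(5, 22) = 2 by omega))
      ((card_S F s(11, 17)).trans (show cov F s(11, 17) = 2 by omega))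
      ((card_S F s(23, 25)).trans (show cov F s(23, 25) = 2 by omega))
      ((card_S F s(24, 21)).trans (show cov F s(24, 21) = 2 by omega))
      ((card_S F s(16, 20)).trans (show cov F s(16, 20) = 1 by omega))
      ((card_S F s(25, 22)).trans (show cov F s(25, 22) = 1 by omega))
      ((card_S F s(15, 24)).trans (show cov F s(15, 24) = 1 by omega))
      ((card_S F s(20, 25)).trans (show cov F s(20, 25) = 1 by omega))
      ((card_S F s(22, 24)).trans (show cov F s(22, 24) = 1 by omega))
      (par0 F hF).p321 (par1 F hF) (par2 F hF).p132 (par7 F hF).p321 (par5 F hF).p132 (par4 F hF).p132 (par6 F hF).p213 (par3 F hF).p321 (par9 F hF).p312 (par8 F hF).p231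
  · exact no_cover
      ((card_S F s(1, 7)).trans (show cov F s(1, 7) = 1 by omega))
      ((card_S F s(5, 22)).trans (show cov F s(5, 22) = 1 by omega))
      ((card_S F s(25, 22)).trans (show cov F s(25, 22) = 1 by omega))
      ((card_S F s(20, 25)).trans (show cov F s(20, 25) = 1 by omega))
      ((card_S F s(20, 2)).trans (show cov F s(20, 2) = 1 by omega))
      ((card_S F s(0, 21)).trans (show cov F s(0, 21) = 2 by omega))
      ((card_S F s(6, 12)).trans (show cov F s(6, 12) = 2 by omega))
      ((card_S F s(22, 24)).trans (show cov F s(22, 24) = 2 by omega))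
      ((card_S F s(23, 25)).trans (show cov F s(23, 25) = 2 by omega))
      ((card_S F s(16, 20)).trans (show cov F s(16, 20) = 2 by omega))
      ((card_S F s(24, 21)).trans (show cov F s(24, 21) = 1 by omega))
      ((card_S F s(10, 23)).trans (show cov F s(10, 23) = 1 by omega))
      ((card_S F s(15, 24)).trans (show cov F s(15, 24) = 1 by omega))
      ((card_S F s(21, 23)).trans (show cov F s(21, 23) = 1 by omega))
      ((card_S F s(11, 17)).trans (show cov F s(11, 17) = 1 by omega))
      (par0 F hF) (par1 F hF).p132 (par6 F hF).p321 (par9 F hF).p132 (par4 F hF).p321 (par5 F hF).p213 (par2 F hF).p321 (par8 F hF).p312 (par7 F hF).p231 (par3 F hF).p132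
  · exact no_cover
      ((card_S F s(1, 7)).trans (show cov F s(1, 7) = 1 by omega))
      ((card_S F s(6, 12)).trans (show cov F s(6, 12) = 1 by omega))
      ((card_S F s(11, 17)).trans (show cov F s(11, 17) = 1 by omega))
      ((card_S F s(16, 20)).trans (show cov F s(16, 20) = 1 by omega))
      ((card_S F s(20, 2)).trans (show cov F s(20, 2) = 1 by omega))
      ((card_S F s(0, 21)).trans (show cov F s(0, 21) = 2 by omega))
      ((card_S F s(5, 22)).trans (show cov F s(5, 22) = 2 by omega))
      ((card_S F s(10, 23)).trans (show cov F s(10, 23) = 2 by omega))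
      ((card_S F s(15, 24)).trans (show cov F s(15, 24) = 2 by omega))
      ((card_S F s(20, 25)).trans (show cov F s(20, 25) = 2 by omega))
      ((card_S F s(21, 23)).trans (show cov F s(21, 23) = 1 by omega))
      ((card_S F s(22, 24)).trans (show cov F s(22, 24) = 1 by omega))
      ((card_S F s(23, 25)).trans (show cov F s(23, 25) = 1 by omega))
      ((card_S F s(24, 21)).trans (show cov F s(24, 21) = 1 by omega))
      ((card_S F s(25, 22)).trans (show cov F s(25, 22) = 1 by omega))
      (par0 F hF) (par1 F hF) (par2 F hF) (par3 F hF) (par4 F hF) (par5 F hF) (par6 F hF) (par7 F hF) (par8 F hF) (par9 F hF)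

end Pool.Agent.Helper915.Scc
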