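import Mathlib

set_option autoImplicit false

/-! General facts on closed walks, families of cycles and parities. -/

namespace Pool.Agent.Helper915.Walks

open Finset

variable {V : Type} [DecidableEq V]

lemma countP_eq_sum {α : Type} [DecidableEq α] (P : α → Prop) [DecidablePred P] (L : List α)
    (hL : L.Nodup) (hP : ∀ e ∈ L, P e) (l : List α) (h : ∀ e ∈ l, P e → e ∈ L) :
    l.countP (fun e => decide (P e)) = (L.map (fun e => l.count e)).sum := by
  induction l with
  | nil => simp
  | cons a l ih =>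
    have ih' := ih (fun e he => h e (List.mem_cons_of_mem a he))
    rw [List.countP_cons, ih']
    have h1 : (L.map (fun e => (a :: l).count e)).sum
        = (L.map (fun e => l.count e)).sum + (L.map (fun e => if a = e then 1 else 0)).sum := by
      rw [← List.sum_map_add]
      congr 1
      apply List.map_congr_left
      intro e _
      rw [List.count_cons]
      simp
    rw [h1]
    congr 1
    have h2 : (L.map (fun e => if a = e then 1 else 0)).sum = L.count a := by
      clear hL hP h ih ih' h1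
      induction L with
      | nil => simp
      | cons b L ihL =>
        rw [List.map_cons, List.sum_cons, ihL, List.count_cons]
        by_cases hab : a = b
        · subst hab; simp [add_comm]
        · have : ¬ (b = a) := fun h => hab h.symm
          simp [hab, this]
    rw [h2]
    by_cases hPa : P a
    · rw [List.count_eq_one_of_mem hL (h a (by simp) hPa)]
      simp [hPa]
    · rw [List.count_eq_zero_of_not_mem (fun h' => hPa (hP a h'))]
      simp [hPa]

lemma length_eq_sum {α : Type} [DecidableEq α] (L : List α)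
    (hL : L.Nodup) (l : List α) (h : ∀ e ∈ l, e ∈ L) :
    l.length = (L.map (fun e => l.count e)).sum := by
  have := countP_eq_sum (fun _ : α => True) L hL (fun _ _ => trivial) l (fun e he _ => h e he)
  rw [← this]
  simp

lemma countP_parity {G : SimpleGraph V} {u v : V} (p : G.Walk u v) (x : V) :
    (p.edges.countP (fun e => decide (x ∈ e)) + (if x = u then 1 else 0)
      + (if x = v then 1 else 0)) % 2 = 0 := by
  induction p with
  | nil => simp; split_ifs <;> simp
  | @cons a b c h p ih =>
    have hab : a ≠ b := h.ne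
    rw [SimpleGraph.Walk.edges_cons, List.countP_cons]
    by_cases hxa : x = a
    · subst hxa
      simp only [Sym2.mem_iff, true_or, decide_true, if_true, hab, if_false] at ih ⊢
      split_ifs at * <;> omega
    · by_cases hxb : x = b
      · subst hxb
        simp only [Sym2.mem_iff, or_true, decide_true, if_true, hxa, if_false] at ih ⊢
        split_ifs at * <;> omega
      · simp only [Sym2.mem_iff, hxa, hxb, or_false, decide_false, if_false] at ih ⊢
        simpa using ih

lemma closed_parity {G : SimpleGraph V} {u : V} (p : G.Walk u u) (x : V) :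
    (p.edges.countP (fun e => decide (x ∈ e))) % 2 = 0 := by
  have := countP_parity p x
  split_ifs at this <;> omega

/-- parity at the vertex `x` in terms of a list of the edges at `x`. -/
lemma inc_parity {G : SimpleGraph V} {u : V} (p : G.Walk u u) (x : V) (L : List (Sym2 V))
    (hL : L.Nodup) (hx : ∀ e ∈ L, x ∈ e) (h : ∀ e ∈ G.edgeSet, x ∈ e → e ∈ L) :
    (L.map (fun e => p.edges.count e)).sum % 2 = 0 := by
  rw [← countP_eq_sum (fun e => x ∈ e) L hL hx p.edges
    (fun e he hxe => h e (SimpleGraph.Walk.edges_subset_edgeSet p he) hxe)]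
  exact closed_parity p x

lemma count_cycle {G : SimpleGraph V} {u : V} {p : G.Walk u u} (hp : p.IsCycle)
    (e : Sym2 V) : p.edges.count e = if e ∈ p.edges then 1 else 0 := by
  have hnd : p.edges.Nodup := hp.edges_nodup
  split_ifs with h
  · exact List.count_eq_one_of_mem hnd h
  · exact List.count_eq_zero_of_not_mem h

/-- The number of members of `F` containing `e`. -/
def cov {G : SimpleGraph V} (F : List (Σ u : V, G.Walk u u)) (e : Sym2 V) : ℕ :=
  F.countP (fun C => decide (e ∈ C.2.edges))

lemma cov_nil {G : SimpleGraph V} (e : Sym2 V) :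
    cov ([] : List (Σ u : V, G.Walk u u)) e = 0 := rfl

lemma cov_cons {G : SimpleGraph V} (C : Σ u : V, G.Walk u u)
    (F : List (Σ u : V, G.Walk u u)) (hC : C.2.IsCycle) (e : Sym2 V) :
    cov (C :: F) e = cov F e + C.2.edges.count e := by
  unfold cov
  rw [List.countP_cons, count_cycle hC]
  simp

lemma family_parity {G : SimpleGraph V} (F : List (Σ u : V, G.Walk u u))
    (hF : ∀ C ∈ F, C.2.IsCycle) (x : V) (L : List (Sym2 V))
    (hL : L.Nodup) (hx : ∀ e ∈ L, x ∈ e) (h : ∀ e ∈ G.edgeSet, x ∈ e → e ∈ L) :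
    (L.map (fun e => cov F e)).sum % 2 = 0 := by
  induction F with
  | nil => simp [cov_nil]
  | cons C F ih =>
    have hC : C.2.IsCycle := hF C (by simp)
    have hF' : ∀ D ∈ F, D.2.IsCycle := fun D hD => hF D (by simp [hD])
    have h1 : (L.map (fun e => cov (C :: F) e)).sum
        = (L.map (fun e => cov F e)).sum + (L.map (fun e => C.2.edges.count e)).sum := by
      rw [← List.sum_map_add]
      congr 1
      apply List.map_congr_left
      intro e _
      exact cov_cons C F hC e
    have h2 := ih hF'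
    have h3 := inc_parity C.2 x L hL hx h
    omega

lemma family_length {G : SimpleGraph V} (F : List (Σ u : V, G.Walk u u))
    (hF : ∀ C ∈ F, C.2.IsCycle) (L : List (Sym2 V))
    (hL : L.Nodup) (h : ∀ e ∈ G.edgeSet, e ∈ L) :
    (F.map (fun C => C.2.length)).sum = (L.map (fun e => cov F e)).sum := by
  induction F with
  | nil => simp [cov_nil]
  | cons C F ih =>
    have hC : C.2.IsCycle := hF C (by simp)
    have hF' : ∀ D ∈ F, D.2.IsCycle := fun D hD => hF D (by simp [hD])
    have h1 : (L.map (fun e => cov (C :: F) e)).sum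
        = (L.map (fun e => cov F e)).sum + (L.map (fun e => C.2.edges.count e)).sum := by
      rw [← List.sum_map_add]
      congr 1
      apply List.map_congr_left
      intro e _
      exact cov_cons C F hC e
    have h2 := length_eq_sum L hL C.2.edges
      (fun e he => h e (SimpleGraph.Walk.edges_subset_edgeSet C.2 he))
    rw [List.map_cons, List.sum_cons, ih hF', h1, ← h2, SimpleGraph.Walk.length_edges]
    ring

lemma countP_eq_card {α : Type} (P : α → Prop) [DecidablePred P] (F : List α) :
    F.countP (fun a => decide (P a)) = (univ.filter (fun i : Fin F.length => P (F.get i))).card := by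
  induction F with
  | nil => simp
  | cons a F ih =>
    rw [List.countP_cons, ih]
    have := Fin.card_filter_univ_succ (n := F.length)
      (p := fun i : Fin (F.length + 1) => P ((a :: F).get i))
    simp only [List.length_cons]
    rw [this]
    simp only [List.get_cons_zero]
    by_cases h : P a <;> simp [h, add_comm]

/-- A rank function on the vertices outside `S` that decreases along some edge outside `S`
and has a single zero shows that the graph minus `S` is connected. -/
lemma connected_of_rank (G : SimpleGraph V) (S : Finset V) (f : V → ℕ) (r : V) (hr : r ∉ S)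
    (h0 : ∀ v, v ∉ S → f v = 0 → v = r)
    (h : ∀ v, v ∉ S → f v ≠ 0 → ∃ u, u ∉ S ∧ G.Adj v u ∧ f u < f v) :
    (G.induce ((↑S : Set V)ᶜ)).Connected := by
  have hmem : ∀ v, v ∉ S → v ∈ ((↑S : Set V)ᶜ) := by
    intro v hv
    simpa using hv
  have key : ∀ n : ℕ, ∀ v (hv : v ∉ S), f v = n →
      (G.induce ((↑S : Set V)ᶜ)).Reachable ⟨v, hmem v hv⟩ ⟨r, hmem r hr⟩ := by
    intro n
    induction n using Nat.strong_induction_on with
    | _ n ih =>
      intro v hv hfv
      by_cases hz : f v = 0
      · have := h0 v hv hz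
        subst this
        exact SimpleGraph.Reachable.refl _
      · obtain ⟨u, hu, hadj, hlt⟩ := h v hv hz
        have h1 := ih (f u) (by omega) u hu rfl
        have h2 : (G.induce ((↑S : Set V)ᶜ)).Adj ⟨v, hmem v hv⟩ ⟨u, hmem u hu⟩ := by
          simpa using hadj
        exact h2.reachable.trans h1
  have : Nonempty ↑((↑S : Set V)ᶜ) := ⟨⟨r, hmem r hr⟩⟩
  refine ⟨fun x y => ?_⟩
  have hx : x.1 ∉ S := fun h => x.2 (by exact_mod_cast h)
  have hy : y.1 ∉ S := fun h => y.2 (by exact_mod_cast h)
  exact (key _ x.1 hx rfl).trans (key _ y.1 hy rfl).symm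

/-! ### Labels -/

/-- The sets `X, Y, Z` have even sum at every index. -/
def Par {n : ℕ} (X Y Z : Finset (Fin n)) : Prop :=
  ∀ k, ((if k ∈ X then 1 else 0) + (if k ∈ Y then 1 else 0) + (if k ∈ Z then 1 else 0)) % 2 = 0

lemma Par.p132 {n : ℕ} {X Y Z : Finset (Fin n)} (h : Par X Y Z) : Par X Z Y := by
  intro k; have := h k; omega
lemma Par.p213 {n : ℕ} {X Y Z : Finset (Fin n)} (h : Par X Y Z) : Par Y X Z := by
  intro k; have := h k; omega
lemma Par.p231 {n : ℕ} {X Y Z : Finset (Fin n)} (h : Par X Y Z) : Par Y Z X := by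
  intro k; have := h k; omega
lemma Par.p312 {n : ℕ} {X Y Z : Finset (Fin n)} (h : Par X Y Z) : Par Z X Y := by
  intro k; have := h k; omega
lemma Par.p321 {n : ℕ} {X Y Z : Finset (Fin n)} (h : Par X Y Z) : Par Z Y X := by
  intro k; have := h k; omega

lemma labels {n : ℕ} {A B C : Finset (Fin n)} {i j : Fin n} (hA : A = {i}) (hB : B = {j})
    (hC : C.card = 2) (hpar : Par A B C) : i ≠ j ∧ C = {i, j} := by
  subst hA hB
  have hmem : ∀ k, k ∈ C ↔ ¬ (k = i ↔ k = j) := by
    intro k
    have := hpar k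
    simp only [Finset.mem_singleton] at this
    by_cases h1 : k = i <;> by_cases h2 : k = j <;> by_cases h3 : k ∈ C <;>
      simp [h1, h2, h3] at this ⊢ <;> simp_all
  have hij : i ≠ j := by
    rintro rfl
    have : C = ∅ := by
      ext k
      simp [hmem k]
    rw [this] at hC
    simp at hC
  refine ⟨hij, ?_⟩
  ext k
  rw [hmem k]
  simp only [Finset.mem_insert, Finset.mem_singleton]
  constructor
  · intro h
    by_contra h2
    push Not at h2
    exact h ⟨fun h3 => absurd h3 h2.1, fun h3 => absurd h3 h2.2⟩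
  · rintro (rfl | rfl) h
    · exact hij (h.1 rfl)
    · exact hij (h.2 rfl).symm

lemma pair_cases {n : ℕ} {C : Finset (Fin n)} {a b c d : Fin n} (h1 : C = {a, b})
    (h2 : C = {c, d}) (hab : a ≠ b) : (a = c ∧ b = d) ∨ (a = d ∧ b = c) := by
  have ha : a ∈ C := by rw [h1]; simp
  have hb : b ∈ C := by rw [h1]; simp
  rw [h2] at ha hb
  simp only [Finset.mem_insert, Finset.mem_singleton] at ha hb
  rcases ha with rfl | rfl <;> rcases hb with rfl | rfl <;> simp_all

/-- The Petersen graph with weight 2 on a perfect matching and 1 elsewhere has no cycle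
cover with these multiplicities. -/
lemma no_cover {n : ℕ} {A0 A1 A2 A3 A4 T0 T1 T2 T3 T4 B0 B1 B2 B3 B4 : Finset (Fin n)}
    (hA0 : A0.card = 1) (hA1 : A1.card = 1) (hA2 : A2.card = 1) (hA3 : A3.card = 1)
    (hA4 : A4.card = 1)
    (hT0 : T0.card = 2) (hT1 : T1.card = 2) (hT2 : T2.card = 2) (hT3 : T3.card = 2)
    (hT4 : T4.card = 2)
    (hB0 : B0.card = 1) (hB1 : B1.card = 1) (hB2 : B2.card = 1) (hB3 : B3.card = 1)
    (hB4 : B4.card = 1)
    (p0 : Par A4 A0 T0) (p1 : Par A0 A1 T1) (p2 : Par A1 A2 T2) (p3 : Par A2 A3 T3)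
    (p4 : Par A3 A4 T4)
    (q0 : Par B0 B3 T0) (q1 : Par B1 B4 T1) (q2 : Par B2 B0 T2) (q3 : Par B3 B1 T3)
    (q4 : Par B4 B2 T4) : False := by
  obtain ⟨a0, ha0⟩ := Finset.card_eq_one.1 hA0
  obtain ⟨a1, ha1⟩ := Finset.card_eq_one.1 hA1
  obtain ⟨a2, ha2⟩ := Finset.card_eq_one.1 hA2
  obtain ⟨a3, ha3⟩ := Finset.card_eq_one.1 hA3
  obtain ⟨a4, ha4⟩ := Finset.card_eq_one.1 hA4
  obtain ⟨b0, hb0⟩ := Finset.card_eq_one.1 hB0
  obtain ⟨b1, hb1⟩ := Finset.card_eq_one.1 hB1
  obtain ⟨b2, hb2⟩ := Finset.card_eq_one.1 hB2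
  obtain ⟨b3, hb3⟩ := Finset.card_eq_one.1 hB3
  obtain ⟨b4, hb4⟩ := Finset.card_eq_one.1 hB4
  have v0 := labels ha4 ha0 hT0 p0
  have v1 := labels ha0 ha1 hT1 p1
  have v2 := labels ha1 ha2 hT2 p2
  have v3 := labels ha2 ha3 hT3 p3
  have v4 := labels ha3 ha4 hT4 p4
  have w0 := labels hb0 hb3 hT0 q0
  have w1 := labels hb1 hb4 hT1 q1
  have w2 := labels hb2 hb0 hT2 q2
  have w3 := labels hb3 hb1 hT3 q3
  have w4 := labels hb4 hb2 hT4 q4
  have e0 := pair_cases v0.2 w0.2 v0.1
  have e1 := pair_cases v1.2 w1.2 v1.1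
  have e2 := pair_cases v2.2 w2.2 v2.1
  have e3 := pair_cases v3.2 w3.2 v3.1
  have e4 := pair_cases v4.2 w4.2 v4.1
  have n0 := v0.1
  have n1 := v1.1
  have n2 := v2.1
  have n3 := v3.1
  have n4 := v4.1
  have m0 := w0.1
  have m1 := w1.1
  have m2 := w2.1
  have m3 := w3.1
  have m4 := w4.1
  clear v0 v1 v2 v3 v4 w0 w1 w2 w3 w4 p0 p1 p2 p3 p4 q0 q1 q2 q3 q4 ha0 ha1 ha2 ha3 ha4
    hb0 hb1 hb2 hb3 hb4
  rcases e0 with ⟨h1, h2⟩ | ⟨h1, h2⟩ <;> rcases e1 with ⟨h3, h4⟩ | ⟨h3, h4⟩ <;>
    rcases e2 with ⟨h5, h6⟩ | ⟨h5, h6⟩ <;> rcases e3 with ⟨h7, h8⟩ | ⟨h7, h8⟩ <;>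
    rcases e4 with ⟨h9, h10⟩ | ⟨h9, h10⟩ <;>
    subst_vars <;> simp_all

end Pool.Agent.Helper915.Walks
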