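import Mathlib

set_option autoImplicit false

namespace Pool.Agent.Helper915.WeakOdd

open Finset

section basics
variable {V : Type*}

/-- one step along a Kempe line avoiding the colour `z` -/
def Step (ι : V × Fin 3 → V × Fin 3) (z : Fin 3) (p q : V) : Prop :=
  ∃ k, k ≠ z ∧ ι (p, k) = (q, k)

/-- the Kempe line relation -/
def Reach (ι : V × Fin 3 → V × Fin 3) (z : Fin 3) : V → V → Prop :=
  Relation.ReflTransGen (Step ι z)

/-- mismatched dart whose partner colour is not `1` -/
def Rel (ι : V × Fin 3 → V × Fin 3) (h : V × Fin 3) : Prop :=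
  (ι h).2 ≠ h.2 ∧ (ι h).2 ≠ 1

variable {ι : V × Fin 3 → V × Fin 3}

theorem Step.symm' (hι : ∀ h, ι (ι h) = h) {z : Fin 3} {p q : V} (h : Step ι z p q) :
    Step ι z q p := by
  obtain ⟨k, hk, e⟩ := h
  exact ⟨k, hk, by rw [← e, hι]⟩

theorem Reach.symm' (hι : ∀ h, ι (ι h) = h) {z : Fin 3} {p q : V} (h : Reach ι z p q) :
    Reach ι z q p := by
  induction h with
  | refl => exact Relation.ReflTransGen.refl
  | tail _ h2 ih => exact Relation.ReflTransGen.head (Step.symm' hι h2) ih

theorem Reach.trans' {z : Fin 3} {p q r : V} (h : Reach ι z p q) (h' : Reach ι z q r) :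
    Reach ι z p r := Relation.ReflTransGen.trans h h'

theorem Reach.step' {z : Fin 3} {p q : V} (h : Step ι z p q) : Reach ι z p q :=
  Relation.ReflTransGen.single h

end basics

/-- parity of a finite set with a fixed-point-free involution -/
theorem even_of_invol {α : Type*} [DecidableEq α] (s : Finset α) (g : α → α)
    (hg : ∀ a ∈ s, g a ∈ s) (hgg : ∀ a ∈ s, g (g a) = a) (hne : ∀ a ∈ s, g a ≠ a) :
    Even s.card := by
  have h : ∑ x ∈ s, (1 : ZMod 2) = 0 := by
    refine Finset.sum_involution (fun a _ => g a) ?_ ?_ ?_ ?_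
    · intro a _; decide
    · intro a ha _; exact hne a ha
    · intro a ha; exact hg a ha
    · intro a ha; exact hgg a ha
  rw [Finset.sum_const, nsmul_eq_mul, mul_one] at h
  exact (ZMod.natCast_eq_zero_iff_even).1 h

section ends
variable {V : Type*} [Fintype V] [DecidableEq V] {ι : V × Fin 3 → V × Fin 3}

open Classical in
/-- the ends of the line through `v` -/
noncomputable def Ends (ι : V × Fin 3 → V × Fin 3) (z : Fin 3) (v : V) : Finset (V × Fin 3) :=
  univ.filter (fun d => (Reach ι z v d.1 ∧ d.2 ≠ z) ∧ (ι d).2 ≠ d.2)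

open Classical in
theorem ends_facts (hι : ∀ h, ι (ι h) = h) (hv : ∀ h, (ι h).1 ≠ h.1) (z : Fin 3) (v : V) :
    Even (Ends ι z v).card ∧ (Ends ι z v).card ≤ 2 := by
  classical
  set C : Finset V := univ.filter (fun p => Reach ι z v p) with hC
  set Δ : Finset (V × Fin 3) := univ.filter (fun d => Reach ι z v d.1 ∧ d.2 ≠ z) with hΔ
  have hΔc : Δ.card = 2 * C.card := by
    have : Δ = C ×ˢ (univ.erase z) := by
      ext ⟨p, k⟩
      simp [hΔ, hC]
    rw [this, Finset.card_product, Finset.card_erase_of_mem (mem_univ z)]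
    simp [mul_comm]
  set M : Finset (V × Fin 3) := Δ.filter (fun d => ¬ (ι d).2 ≠ d.2) with hM
  have hE : Ends ι z v = Δ.filter (fun d => (ι d).2 ≠ d.2) := by
    ext d
    simp [Ends, hΔ]
  have hsum : (Ends ι z v).card + M.card = 2 * C.card := by
    rw [hE, hM, ← hΔc]
    exact Finset.card_filter_add_card_filter_not _
  have hstep : ∀ d ∈ M, Step ι z d.1 (ι d).1 := by
    intro d hd
    simp only [hM, hΔ, mem_filter, mem_univ, true_and, not_not] at hd
    exact ⟨d.2, hd.1.2, Prod.ext rfl hd.2⟩
  have hMev : Even M.card := by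
    refine even_of_invol M ι ?_ (fun a _ => hι a) ?_
    · intro d hd
      have hs := hstep d hd
      simp only [hM, hΔ, mem_filter, mem_univ, true_and, not_not] at hd ⊢
      refine ⟨⟨Reach.trans' hd.1.1 (Reach.step' hs), ?_⟩, ?_⟩
      · rw [hd.2]; exact hd.1.2
      · rw [hι]; exact hd.2.symm
    · intro d _ h
      exact hv d (by rw [h])
  have hMge : 2 * C.card ≤ M.card + 2 := by
    let G : SimpleGraph {p // p ∈ C} :=
      { Adj := fun p q => p ≠ q ∧ Step ι z p.1 q.1
        symm := ⟨fun p q h => ⟨h.1.symm, Step.symm' hι h.2⟩⟩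
        loopless := ⟨fun p h => h.1 rfl⟩ }
    have hGc : G.Connected := by
      have hvC : v ∈ C := by simp only [hC, mem_filter, mem_univ, true_and]; exact Relation.ReflTransGen.refl
      have key : ∀ p, Reach ι z v p → ∃ hp : p ∈ C, G.Reachable ⟨v, hvC⟩ ⟨p, hp⟩ := by
        intro p hp
        induction hp with
        | refl => exact ⟨hvC, SimpleGraph.Reachable.refl _⟩
        | tail h1 h2 ih =>
          rename_i b c
          obtain ⟨hb, hr⟩ := ih
          have hc : c ∈ C := by
            simp only [hC, mem_filter, mem_univ, true_and]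
            exact Relation.ReflTransGen.tail h1 h2
          refine ⟨hc, ?_⟩
          by_cases hbc : b = c
          · subst hbc; exact hr
          · refine hr.trans (SimpleGraph.Adj.reachable ?_)
            exact ⟨fun h => hbc (Subtype.ext_iff.1 h), h2⟩
      have : Nonempty {p // p ∈ C} := ⟨⟨v, hvC⟩⟩
      refine SimpleGraph.Connected.mk ?_
      intro p q
      obtain ⟨hp, h1⟩ := key p.1 (mem_filter.1 p.2).2
      obtain ⟨hq, h2⟩ := key q.1 (mem_filter.1 q.2).2
      exact h1.symm.trans h2
    have h1 := hGc.card_vert_le_card_edgeSet_add_one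
    have h2 : Nat.card {p // p ∈ C} = C.card := by simp
    have h3 : Nat.card G.edgeSet = G.edgeFinset.card := by
      rw [Nat.card_eq_fintype_card, SimpleGraph.edgeFinset_card]
    have h4 := G.dart_card_eq_twice_card_edges
    have h5 : Fintype.card G.Dart ≤ M.card := by
      have hch : ∀ d : G.Dart, ∃ k, k ≠ z ∧ ι (d.fst.1, k) = (d.snd.1, k) := fun d => d.adj.2
      choose f hf using hch
      have : (univ : Finset G.Dart).card ≤ M.card := by
        refine Finset.card_le_card_of_injOn (fun d => (d.fst.1, f d)) ?_ ?_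
        · intro d _
          simp only [hM, hΔ, mem_coe, mem_filter, mem_univ, true_and, not_not]
          refine ⟨⟨?_, (hf d).1⟩, ?_⟩
          · exact (mem_filter.1 d.fst.2).2
          · rw [(hf d).2]
        · intro d _ d' _ he
          simp only [Prod.mk.injEq] at he
          have e1 := (hf d).2
          have e2 := (hf d').2
          rw [he.1, he.2, e2] at e1
          simp only [Prod.mk.injEq] at e1
          ext
          · exact he.1
          · exact e1.1.symm
      simpa using this
    omega
  constructor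
  · have : Even ((Ends ι z v).card + M.card) := by rw [hsum]; exact even_two_mul _
    exact (Nat.even_add.1 this).2 hMev
  · omega

end ends

end Pool.Agent.Helper915.WeakOdd
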