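import Pool.Agent.Helper915.WeakOdd1

set_option autoImplicit false

namespace Pool.Agent.Helper915.WeakOdd

open Finset

/-- a cubic multigraph with a half-edge colouring, mismatches being unavoidable -/
structure Sys (V : Type*) where
  ι : V × Fin 3 → V × Fin 3
  inv : ∀ h, ι (ι h) = h
  ne : ∀ h, (ι h).1 ≠ h.1
  hmin : ∀ (v : V) (x : Fin 3) (w : V) (y z : Fin 3), ι (v, x) = (w, y) → x ≠ y → z ≠ x → z ≠ y →
    Reach ι z v w

namespace Sys
variable {V : Type*} [Fintype V] [DecidableEq V] (S : Sys V)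

open Classical in
theorem pair_exists {h : V × Fin 3} (hr : Rel S.ι h) :
    ∃ g, g ≠ h ∧ Rel S.ι g ∧ (S.ι g).2 = (S.ι h).2 ∧ Reach S.ι (S.ι h).2 h.1 g.1 := by
  obtain ⟨he, hle⟩ := ends_facts S.inv S.ne (S.ι h).2 h.1
  set En := Ends S.ι (S.ι h).2 h.1 with hEn
  have hmem : h ∈ En := by
    simp only [hEn, Ends, mem_filter, mem_univ, true_and]
    exact ⟨⟨Relation.ReflTransGen.refl, fun e => hr.1 e.symm⟩, hr.1⟩
  have hcard : En.card = 2 := by
    have hpos : 0 < En.card := card_pos.2 ⟨h, hmem⟩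
    obtain ⟨n, hn⟩ := he
    omega
  obtain ⟨g, hg, hgh⟩ : ∃ g ∈ En, g ≠ h := by
    by_contra hc
    push Not at hc
    have : En.card ≤ 1 := card_le_one.2 (fun a ha b hb => by rw [hc a ha, hc b hb])
    omega
  have hg' := hg
  simp only [hEn, Ends, mem_filter, mem_univ, true_and] at hg'
  have hcol : (S.ι g).2 = (S.ι h).2 := by
    by_contra hne
    -- then the partner of g is also an end of the same line
    have hR : Reach S.ι (S.ι h).2 g.1 (S.ι g).1 := by
      refine S.hmin g.1 g.2 (S.ι g).1 (S.ι g).2 (S.ι h).2 rfl (fun e => hg'.2 e.symm) ?_ ?_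
      · exact fun e => hg'.1.2 e.symm
      · exact fun e => hne e.symm
    have hmem2 : S.ι g ∈ En := by
      simp only [hEn, Ends, mem_filter, mem_univ, true_and]
      refine ⟨⟨Reach.trans' hg'.1.1 hR, hne⟩, ?_⟩
      rw [S.inv]; exact fun e => hg'.2 e.symm
    have h1 : S.ι g ≠ g := fun e => S.ne g (by rw [e])
    have h2 : S.ι g ≠ h := by
      intro e
      apply hg'.1.2
      rw [← e, S.inv]
    have : 3 ≤ En.card := by
      have hsub : ({h, g, S.ι g} : Finset (V × Fin 3)) ⊆ En := by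
        intro x hx
        simp only [mem_insert, mem_singleton] at hx
        rcases hx with rfl | rfl | rfl
        · exact hmem
        · exact hg
        · exact hmem2
      have h3 : ({h, g, S.ι g} : Finset (V × Fin 3)).card = 3 := by
        rw [card_eq_three]
        exact ⟨h, g, S.ι g, hgh.symm, h2.symm, h1.symm, rfl⟩
      calc 3 = _ := h3.symm
        _ ≤ _ := card_le_card hsub
    omega
  exact ⟨g, hgh, ⟨hg'.2, by rw [hcol]; exact hr.2⟩, hcol, hg'.1.1⟩

open Classical in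
theorem pair_unique {h g g' : V × Fin 3} (hr : Rel S.ι h) (h1 : g ≠ h) (h2 : Rel S.ι g)
    (h3 : (S.ι g).2 = (S.ι h).2) (h4 : Reach S.ι (S.ι h).2 h.1 g.1)
    (h1' : g' ≠ h) (h2' : Rel S.ι g') (h3' : (S.ι g').2 = (S.ι h).2)
    (h4' : Reach S.ι (S.ι h).2 h.1 g'.1) : g = g' := by
  obtain ⟨_, hle⟩ := ends_facts S.inv S.ne (S.ι h).2 h.1
  by_contra hne
  have hm : ∀ x : V × Fin 3, Rel S.ι x → (S.ι x).2 = (S.ι h).2 → Reach S.ι (S.ι h).2 h.1 x.1 →
      x ∈ Ends S.ι (S.ι h).2 h.1 := by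
    intro x hx hx2 hx3
    simp only [Ends, mem_filter, mem_univ, true_and]
    refine ⟨⟨hx3, ?_⟩, hx.1⟩
    rw [← hx2]; exact fun e => hx.1 e.symm
  have hsub : ({h, g, g'} : Finset (V × Fin 3)) ⊆ Ends S.ι (S.ι h).2 h.1 := by
    intro x hx
    simp only [mem_insert, mem_singleton] at hx
    rcases hx with rfl | rfl | rfl
    · exact hm _ hr rfl Relation.ReflTransGen.refl
    · exact hm _ h2 h3 h4
    · exact hm _ h2' h3' h4'
  have hc3 : ({h, g, g'} : Finset (V × Fin 3)).card = 3 := by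
    rw [card_eq_three]
    exact ⟨h, g, g', h1.symm, h1'.symm, hne, rfl⟩
  have := card_le_card hsub
  omega

open Classical in
/-- the other end of the line of a relevant dart -/
noncomputable def theta (h : V × Fin 3) : V × Fin 3 :=
  if hr : Rel S.ι h then Classical.choose (S.pair_exists hr) else h

theorem theta_spec {h : V × Fin 3} (hr : Rel S.ι h) :
    S.theta h ≠ h ∧ Rel S.ι (S.theta h) ∧ (S.ι (S.theta h)).2 = (S.ι h).2 ∧
      Reach S.ι (S.ι h).2 h.1 (S.theta h).1 := by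
  unfold theta
  rw [dif_pos hr]
  exact Classical.choose_spec (S.pair_exists hr)

theorem theta_unique {h g : V × Fin 3} (hr : Rel S.ι h) (h1 : g ≠ h) (h2 : Rel S.ι g)
    (h3 : (S.ι g).2 = (S.ι h).2) (h4 : Reach S.ι (S.ι h).2 h.1 g.1) : g = S.theta h := by
  obtain ⟨a, b, c, d⟩ := S.theta_spec hr
  exact S.pair_unique hr h1 h2 h3 h4 a b c d

theorem theta_theta {h : V × Fin 3} (hr : Rel S.ι h) : S.theta (S.theta h) = h := by
  obtain ⟨a, b, c, d⟩ := S.theta_spec hr
  refine (S.theta_unique b a.symm hr c.symm ?_).symm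
  rw [c]
  exact Reach.symm' S.inv d

end Sys

end Pool.Agent.Helper915.WeakOdd
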