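import Pool.Agent.Helper915.WeakOdd2

set_option autoImplicit false

namespace Pool.Agent.Helper915.WeakOdd

open Finset

namespace Sys
variable {V : Type*} [Fintype V] [DecidableEq V] (S : Sys V)

/-- darts allowed in the network -/
def inK (W : Finset V) (ex : V → Fin 3) (X : Finset (V × Fin 3)) (d : V × Fin 3) : Prop :=
  (d.1 ∈ W ∧ (S.ι d).1 ∈ W ∧ (S.ι d).2 = d.2 ∧ ex d.1 = ex (S.ι d).1 ∧ d.2 ≠ ex d.1) ∨
    d ∈ X ∨ S.ι d ∈ X

/-- `u` and `v` are joined by a binary flow supported in `P` -/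
def Join (P : V × Fin 3 → Prop) (u v : V) : Prop :=
  ∃ f : V × Fin 3 → ZMod 2, (∀ d, f (S.ι d) = f d) ∧ (∀ d, f d ≠ 0 → P d) ∧
    ∀ p, ∑ k, f (p, k) = (if p = u then 1 else 0) + (if p = v then 1 else 0)

theorem join_refl (P : V × Fin 3 → Prop) (u : V) : S.Join P u u := by
  refine ⟨fun _ => 0, fun _ => rfl, fun d h => absurd rfl h, fun p => ?_⟩
  rw [CharTwo.add_self_eq_zero]
  simp

theorem join_symm {P : V × Fin 3 → Prop} {u v : V} (h : S.Join P u v) : S.Join P v u := by
  obtain ⟨f, h1, h2, h3⟩ := h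
  exact ⟨f, h1, h2, fun p => by rw [h3, add_comm]⟩

theorem join_trans {P : V × Fin 3 → Prop} {u v w : V} (h : S.Join P u v) (h' : S.Join P v w) :
    S.Join P u w := by
  obtain ⟨f, h1, h2, h3⟩ := h
  obtain ⟨g, g1, g2, g3⟩ := h'
  refine ⟨fun d => f d + g d, fun d => by simp only [h1, g1], fun d hd => ?_, fun p => ?_⟩
  · by_cases hf : f d = 0
    · refine g2 d (fun hg => hd ?_)
      simp only [hf, hg, add_zero]
    · exact h2 d hf
  · rw [Finset.sum_add_distrib, h3, g3]
    generalize (if p = u then (1 : ZMod 2) else 0) = a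
    generalize (if p = v then (1 : ZMod 2) else 0) = b
    generalize (if p = w then (1 : ZMod 2) else 0) = c
    revert a b c
    decide

theorem join_mono {P Q : V × Fin 3 → Prop} (hPQ : ∀ d, P d → Q d) {u v : V}
    (h : S.Join P u v) : S.Join Q u v := by
  obtain ⟨f, h1, h2, h3⟩ := h
  exact ⟨f, h1, fun d hd => hPQ d (h2 d hd), h3⟩

theorem join_step {P : V × Fin 3 → Prop} (d : V × Fin 3) (h1 : P d) (h2 : P (S.ι d)) :
    S.Join P d.1 (S.ι d).1 := by
  refine ⟨fun x => (if x = d then 1 else 0) + (if x = S.ι d then 1 else 0), ?_, ?_, ?_⟩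
  · intro x
    have e1 : (S.ι x = d) ↔ (x = S.ι d) := by
      constructor
      · intro h; rw [← h, S.inv]
      · intro h; rw [h, S.inv]
    have e2 : (S.ι x = S.ι d) ↔ (x = d) := by
      constructor
      · intro h
        have := congrArg S.ι h
        rwa [S.inv, S.inv] at this
      · intro h; rw [h]
    simp only [e1, e2]
    rw [add_comm]
  · intro x hx
    by_cases hxd : x = d
    · rw [hxd]; exact h1
    · by_cases hxd' : x = S.ι d
      · rw [hxd']; exact h2
      · simp [hxd, hxd'] at hx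
  · intro p
    rw [Finset.sum_add_distrib]
    have key : ∀ e : V × Fin 3, ∑ k, (if (p, k) = e then (1 : ZMod 2) else 0) =
        if p = e.1 then 1 else 0 := by
      intro e
      obtain ⟨e1, e2⟩ := e
      by_cases hp : p = e1
      · subst hp
        simp
      · simp [hp]
    rw [key, key]

/-- the geometric part of a configuration -/
structure Geo (W : Finset V) (ex : V → Fin 3) (X : Finset (V × Fin 3)) : Prop where
  exv : ∀ w ∈ W, ex w ≠ 1
  xW : ∀ x ∈ X, x.1 ∈ W ∧ (S.ι x).1 ∈ W
  xt : ∀ x ∈ X, (S.ι x).2 = x.2 ∨ (x.2 ≠ 1 ∧ (S.ι x).2 ≠ 1)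
  xp : ∀ x ∈ X, ¬ (x.2 = ex x.1 ∧ (S.ι x).2 = ex (S.ι x).1)
  jn : ∀ u ∈ W, ∀ v ∈ W, S.Join (S.inK W ex X) u v

theorem join_region {W : Finset V} {ex : V → Fin 3} {X : Finset (V × Fin 3)} (R : Finset V)
    (z : Fin 3) (hRW : R ⊆ W) (hex : ∀ v ∈ R, ex v = z) (v0 : V)
    (hconn : ∀ v ∈ R, Relation.ReflTransGen (fun p q => Step S.ι z p q ∧ p ∈ R ∧ q ∈ R) v0 v) :
    ∀ v ∈ R, S.Join (S.inK W ex X) v0 v := by
  intro v hv
  have h := hconn v hv
  induction h with
  | refl => exact S.join_refl _ _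
  | tail h1 h2 ih =>
    rename_i b c
    obtain ⟨⟨k, hk, hs⟩, hb, hc⟩ := h2
    refine S.join_trans (ih hb) ?_
    have hP : S.inK W ex X (b, k) := by
      left
      rw [hs]
      refine ⟨hRW hb, hRW hc, rfl, ?_, ?_⟩
      · show ex b = ex c
        rw [hex b hb, hex c hc]
      · show k ≠ ex b
        rw [hex b hb]; exact hk
    have hP' : S.inK W ex X (S.ι (b, k)) := by
      left
      rw [S.inv, hs]
      refine ⟨hRW hc, hRW hb, rfl, ?_, ?_⟩
      · show ex c = ex b
        rw [hex b hb, hex c hc]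
      · show k ≠ ex c
        rw [hex c hc]; exact hk
    have := S.join_step (b, k) hP hP'
    rwa [hs] at this

theorem inK_mono {W W' : Finset V} {ex ex' : V → Fin 3} {X X' : Finset (V × Fin 3)}
    (hW : W ⊆ W') (hex : ∀ w ∈ W, ex' w = ex w) (hX : X ⊆ X') (d : V × Fin 3)
    (h : S.inK W ex X d) : S.inK W' ex' X' d := by
  rcases h with ⟨h1, h2, h3, h4, h5⟩ | h | h
  · left
    refine ⟨hW h1, hW h2, h3, ?_, ?_⟩
    · rw [hex _ h1, hex _ h2, h4]
    · rw [hex _ h1]; exact h5
  · right; left; exact hX h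
  · right; right; exact hX h

theorem extend {W : Finset V} {ex : V → Fin 3} {X : Finset (V × Fin 3)} (hG : S.Geo W ex X)
    (R : Finset V) (hdis : ∀ v ∈ R, v ∉ W) (z : Fin 3) (hz : z ≠ 1) (v0 : V)
    (hconn : ∀ v ∈ R, Relation.ReflTransGen (fun p q => Step S.ι z p q ∧ p ∈ R ∧ q ∈ R) v0 v)
    (x : V × Fin 3) (hx1 : x.1 ∈ R) (hx2 : (S.ι x).1 ∈ W)
    (hx3 : (S.ι x).2 = x.2 ∨ (x.2 ≠ 1 ∧ (S.ι x).2 ≠ 1)) (hx4 : x.2 ≠ z) :
    S.Geo (W ∪ R) (fun v => if v ∈ R then z else ex v) (insert x X) := by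
  have hexW : ∀ w ∈ W, (fun v => if v ∈ R then z else ex v) w = ex w := by
    intro w hw
    have : w ∉ R := fun h => hdis w h hw
    simp [this]
  have hjR := S.join_region (W := W ∪ R) (ex := fun v => if v ∈ R then z else ex v)
    (X := insert x X) R z subset_union_right (fun v hv => by simp [hv]) v0 hconn
  have hmono := fun d => S.inK_mono (d := d) (W := W) (W' := W ∪ R) (ex := ex)
    (ex' := fun v => if v ∈ R then z else ex v) (X := X) (X' := insert x X)
    subset_union_left hexW (subset_insert _ _)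
  have hxj : S.Join (S.inK (W ∪ R) (fun v => if v ∈ R then z else ex v) (insert x X))
      x.1 (S.ι x).1 := by
    refine S.join_step x ?_ ?_
    · right; left; exact mem_insert_self _ _
    · right; right; rw [S.inv]; exact mem_insert_self _ _
  have hall : ∀ u ∈ W ∪ R, S.Join (S.inK (W ∪ R) (fun v => if v ∈ R then z else ex v)
      (insert x X)) v0 u := by
    intro u hu
    rcases mem_union.1 hu with hu | hu
    · refine S.join_trans (hjR x.1 hx1) (S.join_trans hxj ?_)
      exact S.join_mono hmono (hG.jn _ hx2 _ hu)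
    · exact hjR u hu
  refine ⟨?_, ?_, ?_, ?_, ?_⟩
  · intro w hw
    by_cases hwR : w ∈ R
    · simp only [hwR, if_true]; exact hz
    · simp only [hwR, if_false]
      rcases mem_union.1 hw with h | h
      · exact hG.exv w h
      · exact absurd h hwR
  · intro y hy
    rcases mem_insert.1 hy with rfl | hy
    · exact ⟨mem_union_right _ hx1, mem_union_left _ hx2⟩
    · obtain ⟨h1, h2⟩ := hG.xW y hy
      exact ⟨mem_union_left _ h1, mem_union_left _ h2⟩
  · intro y hy
    rcases mem_insert.1 hy with rfl | hy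
    · exact hx3
    · exact hG.xt y hy
  · intro y hy
    rcases mem_insert.1 hy with rfl | hy
    · rintro ⟨h, _⟩
      simp only [hx1, if_true] at h
      exact hx4 h
    · obtain ⟨h1, h2⟩ := hG.xW y hy
      have e1 := hexW _ h1
      have e2 := hexW _ h2
      simp only [] at e1 e2
      simp only [e1, e2]
      exact hG.xp y hy
  · intro u hu v hv
    exact S.join_trans (S.join_symm (hall u hu)) (hall v hv)

open Classical in
theorem arm {W : Finset V} {ex : V → Fin 3} {X : Finset (V × Fin 3)} (hG : S.Geo W ex X)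
    (z : Fin 3) (hz : z ≠ 1) (v0 w : V) (hw : w ∈ W) (hr : Reach S.ι z v0 w) :
    ∃ (W' : Finset V) (ex' : V → Fin 3) (X' : Finset (V × Fin 3)), S.Geo W' ex' X' ∧ W ⊆ W' ∧
      v0 ∈ W' ∧ X'.card ≤ X.card + 1 ∧ ∀ v ∈ W', v ∈ W ∨ Reach S.ι z v0 v := by
  by_cases h0 : v0 ∈ W
  · exact ⟨W, ex, X, hG, Subset.refl _, h0, Nat.le_succ _, fun v hv => Or.inl hv⟩
  set rr : V → V → Prop := fun p q => Step S.ι z p q ∧ p ∉ W ∧ q ∉ W with hrr
  set R : Finset V := univ.filter (fun v => Relation.ReflTransGen rr v0 v) with hR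
  have hRnW : ∀ v ∈ R, v ∉ W := by
    intro v hv
    simp only [hR, mem_filter, mem_univ, true_and] at hv
    cases hv with
    | refl => exact h0
    | tail _ h2 => exact h2.2.2
  have hv0 : v0 ∈ R := by
    simp only [hR, mem_filter, mem_univ, true_and]
    exact Relation.ReflTransGen.refl
  have hconn : ∀ v ∈ R, Relation.ReflTransGen (fun p q => Step S.ι z p q ∧ p ∈ R ∧ q ∈ R) v0 v := by
    intro v hv
    have hv' : Relation.ReflTransGen rr v0 v := by
      simpa only [hR, mem_filter, mem_univ, true_and] using hv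
    clear hv
    induction hv' with
    | refl => exact Relation.ReflTransGen.refl
    | tail h1 h2 ih =>
      refine Relation.ReflTransGen.tail ih ⟨h2.1, ?_, ?_⟩
      · simp only [hR, mem_filter, mem_univ, true_and]; exact h1
      · simp only [hR, mem_filter, mem_univ, true_and]; exact Relation.ReflTransGen.tail h1 h2
  have hReachR : ∀ v ∈ R, Reach S.ι z v0 v := by
    intro v hv
    have hv' : Relation.ReflTransGen rr v0 v := by
      simpa only [hR, mem_filter, mem_univ, true_and] using hv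
    clear hv
    induction hv' with
    | refl => exact Relation.ReflTransGen.refl
    | tail _ h2 ih => exact Relation.ReflTransGen.tail ih h2.1
  -- a leaving step
  have hleave : ∀ u, Reach S.ι z v0 u → u ∈ R ∨ ∃ v ∈ R, ∃ w' ∈ W, Step S.ι z v w' := by
    intro u hu
    induction hu with
    | refl => exact Or.inl hv0
    | tail h1 h2 ih =>
      rename_i b c
      rcases ih with hb | h
      · by_cases hc : c ∈ W
        · exact Or.inr ⟨b, hb, c, hc, h2⟩
        · left
          have hb' : Relation.ReflTransGen rr v0 b := by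
            simpa only [hR, mem_filter, mem_univ, true_and] using hb
          simp only [hR, mem_filter, mem_univ, true_and]
          exact Relation.ReflTransGen.tail hb' ⟨h2, hRnW b hb, hc⟩
      · exact Or.inr h
  rcases hleave w hr with hw' | ⟨v, hv, w', hw', k, hk, hs⟩
  · exact absurd hw (hRnW w hw')
  refine ⟨W ∪ R, _, insert (v, k) X, S.extend hG R hRnW z hz v0 hconn (v, k) hv ?_ ?_ hk,
    subset_union_left, mem_union_right _ hv0, card_insert_le _ _, ?_⟩
  · rw [hs]; exact hw'
  · left; rw [hs]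
  · intro u hu
    rcases mem_union.1 hu with h | h
    · exact Or.inl h
    · exact Or.inr (hReachR u h)

open Classical in
theorem pass {W : Finset V} {ex : V → Fin 3} {X : Finset (V × Fin 3)} (hG : S.Geo W ex X)
    (h : V × Fin 3) (hl : (S.ι h).2 ≠ 1) (hl' : h.2 ≠ 1) (hne : (S.ι h).2 ≠ h.2)
    (hp : (S.ι h).1 ∈ W) (hd : ∀ v, Reach S.ι (S.ι h).2 h.1 v → v ∉ W) :
    ∃ (W' : Finset V) (ex' : V → Fin 3) (X' : Finset (V × Fin 3)), S.Geo W' ex' X' ∧ W ⊆ W' ∧
      (∀ v, Reach S.ι (S.ι h).2 h.1 v → v ∈ W') ∧ X'.card ≤ X.card + 1 ∧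
      ∀ v ∈ W', v ∈ W ∨ Reach S.ι (S.ι h).2 h.1 v := by
  set z := (S.ι h).2 with hz
  set R : Finset V := univ.filter (fun v => Reach S.ι z h.1 v) with hR
  have hmem : ∀ v, v ∈ R ↔ Reach S.ι z h.1 v := by
    intro v; simp only [hR, mem_filter, mem_univ, true_and]
  have hconn : ∀ v ∈ R, Relation.ReflTransGen (fun p q => Step S.ι z p q ∧ p ∈ R ∧ q ∈ R) h.1 v := by
    intro v hv
    have hv' : Reach S.ι z h.1 v := (hmem v).1 hv
    clear hv
    induction hv' with
    | refl => exact Relation.ReflTransGen.refl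
    | tail h1 h2 ih =>
      exact Relation.ReflTransGen.tail ih ⟨h2, (hmem _).2 h1, (hmem _).2 (Relation.ReflTransGen.tail h1 h2)⟩
  refine ⟨W ∪ R, _, insert h X, S.extend hG R (fun v hv => hd v ((hmem v).1 hv)) z hl h.1 hconn h
    ((hmem _).2 Relation.ReflTransGen.refl) hp (Or.inr ⟨hl', hl⟩) (fun e => hne e.symm),
    subset_union_left, fun v hv => mem_union_right _ ((hmem v).2 hv), card_insert_le _ _, ?_⟩
  intro u hu
  rcases mem_union.1 hu with h' | h'
  · exact Or.inl h'
  · exact Or.inr ((hmem u).1 h')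

open Classical in
theorem start (z : Fin 3) (hz : z ≠ 1) (v0 : V) :
    S.Geo (univ.filter (fun v => Reach S.ι z v0 v)) (fun _ => z) ∅ := by
  set R : Finset V := univ.filter (fun v => Reach S.ι z v0 v) with hR
  have hmem : ∀ v, v ∈ R ↔ Reach S.ι z v0 v := by
    intro v; simp only [hR, mem_filter, mem_univ, true_and]
  have hconn : ∀ v ∈ R, Relation.ReflTransGen (fun p q => Step S.ι z p q ∧ p ∈ R ∧ q ∈ R) v0 v := by
    intro v hv
    have hv' : Reach S.ι z v0 v := (hmem v).1 hv
    clear hv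
    induction hv' with
    | refl => exact Relation.ReflTransGen.refl
    | tail h1 h2 ih =>
      exact Relation.ReflTransGen.tail ih ⟨h2, (hmem _).2 h1, (hmem _).2 (Relation.ReflTransGen.tail h1 h2)⟩
  have hj := S.join_region (W := R) (ex := fun _ => z) (X := ∅) R z (Subset.refl _)
    (fun _ _ => rfl) v0 hconn
  refine ⟨fun _ _ => hz, fun x hx => ?_, fun x hx => ?_, fun x hx => ?_, fun u hu v hv => ?_⟩
  · exact absurd hx (notMem_empty _)
  · exact absurd hx (notMem_empty _)
  · exact absurd hx (notMem_empty _)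
  · exact S.join_trans (S.join_symm (hj u hu)) (hj v hv)

end Sys

end Pool.Agent.Helper915.WeakOdd
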