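import Pool.Agent.Helper915.WeakOdd3

set_option autoImplicit false
set_option linter.unusedSectionVars false

namespace Pool.Agent.Helper915.WeakOdd

open Finset

namespace Sys
variable {V : Type*} [Fintype V] [DecidableEq V] (S : Sys V)

/-- number of conflict darts -/
def fc (Q : Finset (V × Fin 3)) : ℕ := (Q.filter (fun h => h.2 = 1)).card

/-- number of open darts -/
def uc (Q : Finset (V × Fin 3)) : ℕ := (Q.filter (fun h => h.2 ≠ 1 ∧ S.ι h ∉ Q)).card

/-- a family of relevant darts closed under `theta` and `ι` -/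
structure Fam (R : Finset (V × Fin 3)) : Prop where
  rel : ∀ h ∈ R, Rel S.ι h
  th : ∀ h ∈ R, S.theta h ∈ R
  io : ∀ h ∈ R, h.2 ≠ 1 → S.ι h ∈ R

/-- a configuration -/
structure Conf (R : Finset (V × Fin 3)) (W : Finset V) (ex : V → Fin 3)
    (X : Finset (V × Fin 3)) (Q : Finset (V × Fin 3)) : Prop where
  geo : S.Geo W ex X
  QR : Q ⊆ R
  th : ∀ h ∈ Q, S.theta h ∈ Q
  f1 : ∀ h ∈ Q, h.2 = 1 → h.1 ∈ W
  u1 : ∀ h ∈ Q, h.2 ≠ 1 → S.ι h ∉ Q → h.1 ∈ W
  WR : ∀ v ∈ W, ∃ g ∈ R, Reach S.ι (S.ι g).2 g.1 v
  cost : 2 * X.card ≤ Q.card + fc Q + S.uc Q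

theorem fc_insert {Q : Finset (V × Fin 3)} {h : V × Fin 3} (hh : h ∉ Q) :
    fc (insert h Q) = fc Q + (if h.2 = 1 then 1 else 0) := by
  unfold fc
  rw [filter_insert]
  split_ifs with h1
  · rw [card_insert_of_notMem]
    intro h2
    exact hh (mem_filter.1 h2).1
  · rfl

/-- the cost of Step A1 -/
theorem stepA1 {R : Finset (V × Fin 3)} (hR : S.Fam R) {W : Finset V} {ex : V → Fin 3}
    {X Q : Finset (V × Fin 3)} (hC : S.Conf R W ex X Q) (h : V × Fin 3) (hh : h ∈ Q)
    (h1 : h.2 ≠ 1) (h2 : S.ι h ∉ Q) (g1 : (S.theta (S.ι h)).2 ≠ 1)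
    (g2 : S.ι (S.theta (S.ι h)) ∈ Q) :
    S.Conf R W ex X (insert (S.ι h) (insert (S.theta (S.ι h)) Q)) := by
  have hhR := hC.QR hh
  have hi := hR.io h hhR h1
  have hiRel := hR.rel _ hi
  have hgR := hR.th _ hi
  obtain ⟨t1, t2, t3, t4⟩ := S.theta_spec hiRel
  have ttg := S.theta_theta hiRel
  set h' := S.ι h with hh'
  set g := S.theta h' with hg
  have hgQ : g ∉ Q := by
    intro hq
    have := hC.th g hq
    rw [ttg] at this
    exact h2 this
  have h'1 : h'.2 ≠ 1 := (hR.rel h hhR).2
  have hih' : S.ι h' = h := S.inv h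
  have hiig : S.ι (S.ι g) = g := S.inv g
  have hh'n : h' ∉ insert g Q := by
    simp only [mem_insert, not_or]
    exact ⟨t1.symm, h2⟩
  refine ⟨hC.geo, ?_, ?_, ?_, ?_, hC.WR, ?_⟩
  · intro x hx
    simp only [mem_insert] at hx
    rcases hx with rfl | rfl | hx
    · exact hi
    · exact hgR
    · exact hC.QR hx
  · intro x hx
    simp only [mem_insert] at hx ⊢
    rcases hx with rfl | rfl | hx
    · right; left; rfl
    · left; exact ttg
    · right; right; exact hC.th x hx
  · intro x hx hx1
    simp only [mem_insert] at hx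
    rcases hx with rfl | rfl | hx
    · exact absurd hx1 h'1
    · exact absurd hx1 g1
    · exact hC.f1 x hx hx1
  · intro x hx hx1 hx2
    simp only [mem_insert, not_or] at hx hx2
    rcases hx with rfl | rfl | hx
    · exact absurd (by rw [hih']; exact hh) hx2.2.2
    · exact absurd g2 hx2.2.2
    · exact hC.u1 x hx hx1 hx2.2.2
  · have hc : (insert h' (insert g Q)).card = Q.card + 2 := by
      rw [card_insert_of_notMem hh'n, card_insert_of_notMem hgQ]
    have hf : fc (insert h' (insert g Q)) = fc Q := by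
      rw [fc_insert hh'n, fc_insert hgQ, if_neg h'1, if_neg g1]
      rfl
    have hu : S.uc Q ≤ S.uc (insert h' (insert g Q)) + 2 := by
      unfold uc
      have hsub : Q.filter (fun x => x.2 ≠ 1 ∧ S.ι x ∉ Q) ⊆
          insert h (insert (S.ι g) ((insert h' (insert g Q)).filter
            (fun x => x.2 ≠ 1 ∧ S.ι x ∉ insert h' (insert g Q)))) := by
        intro x hx
        simp only [mem_filter] at hx
        simp only [mem_insert, mem_filter, not_or]
        by_cases e1 : x = h
        · left; exact e1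
        · by_cases e2 : x = S.ι g
          · right; left; exact e2
          · right; right
            refine ⟨Or.inr (Or.inr hx.1), hx.2.1, ?_, ?_, hx.2.2⟩
            · intro e
              apply e1
              have := congrArg S.ι e
              rwa [S.inv, hih'] at this
            · intro e
              apply e2
              have := congrArg S.ι e
              rwa [S.inv] at this
      calc _ ≤ _ := card_le_card hsub
        _ ≤ _ := (card_insert_le _ _)
        _ ≤ _ := Nat.add_le_add_right (card_insert_le _ _) 1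
    have := hC.cost
    rw [hc, hf]
    omega

/-- Step A2: the new dart `g` is counted -/
theorem stepA2 {R : Finset (V × Fin 3)} (hR : S.Fam R) {W : Finset V} {ex : V → Fin 3}
    {X Q : Finset (V × Fin 3)} (hC : S.Conf R W ex X Q) (h : V × Fin 3) (hh : h ∈ Q)
    (h1 : h.2 ≠ 1) (h2 : S.ι h ∉ Q)
    (g2 : (S.theta (S.ι h)).2 = 1 ∨ S.ι (S.theta (S.ι h)) ∉ Q) :
    ∃ (W' : Finset V) (ex' : V → Fin 3) (X' : Finset (V × Fin 3)),
    S.Conf R W' ex' X' (insert (S.ι h) (insert (S.theta (S.ι h)) Q)) := by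
  have hhR := hC.QR hh
  have hi := hR.io h hhR h1
  have hiRel := hR.rel _ hi
  have hgR := hR.th _ hi
  have hhW := hC.u1 h hh h1 h2
  obtain ⟨t1, t2, t3, t4⟩ := S.theta_spec hiRel
  have ttg := S.theta_theta hiRel
  set h' := S.ι h with hh'
  set g := S.theta h' with hg
  have hgQ : g ∉ Q := by
    intro hq
    have := hC.th g hq
    rw [ttg] at this
    exact h2 this
  have h'1 : h'.2 ≠ 1 := (hR.rel h hhR).2
  have hih' : S.ι h' = h := S.inv h
  have hiig : S.ι (S.ι g) = g := S.inv g
  have hh'n : h' ∉ insert g Q := by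
    simp only [mem_insert, not_or]
    exact ⟨t1.symm, h2⟩
  have hgi : g.2 ≠ 1 → S.ι g ∉ insert h' (insert g Q) := by
    intro hg1
    simp only [mem_insert, not_or]
    refine ⟨?_, ?_, ?_⟩
    · intro e
      have e2 := congrArg S.ι e
      rw [hiig, hih'] at e2
      exact hgQ (by rw [e2]; exact hh)
    · intro e
      exact S.ne g (by rw [e])
    · exact g2.resolve_left hg1
  -- geometric step
  obtain ⟨W', ex', X', hG', hWW', hgW', hX', hsub'⟩ : ∃ (W' : Finset V) (ex' : V → Fin 3)
      (X' : Finset (V × Fin 3)), S.Geo W' ex' X' ∧ W ⊆ W' ∧ g.1 ∈ W' ∧ X'.card ≤ X.card + 1 ∧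
      ∀ v ∈ W', v ∈ W ∨ Reach S.ι (S.ι g).2 g.1 v := by
    have hzg : (S.ι g).2 = (S.ι h').2 := t3
    have hz1 : (S.ι h').2 ≠ 1 := hiRel.2
    by_cases hmeet : ∃ w ∈ W, Reach S.ι (S.ι g).2 g.1 w
    · obtain ⟨w, hw, hr⟩ := hmeet
      exact S.arm hC.geo (S.ι g).2 (by rw [hzg]; exact hz1) g.1 w hw hr
    · push Not at hmeet
      have hline : ∀ v, Reach S.ι (S.ι h').2 h'.1 v → Reach S.ι (S.ι g).2 g.1 v := by
        intro v hv
        rw [hzg]
        exact Reach.trans' (Reach.symm' S.inv t4) hv
      obtain ⟨W', ex', X', a1, a2, a3, a4, a5⟩ := S.pass hC.geo h' hz1 h'1 (fun e => hiRel.1 e)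
        (by rw [hih']; exact hhW)
        (fun v hv hvW => hmeet v hvW (hline v hv))
      refine ⟨W', ex', X', a1, a2, a3 _ t4, a4, ?_⟩
      intro v hv
      rcases a5 v hv with h | h
      · exact Or.inl h
      · exact Or.inr (hline v h)
  refine ⟨W', ex', X', hG', ?_, ?_, ?_, ?_, ?_, ?_⟩
  · intro x hx
    simp only [mem_insert] at hx
    rcases hx with rfl | rfl | hx
    · exact hi
    · exact hgR
    · exact hC.QR hx
  · intro x hx
    simp only [mem_insert] at hx ⊢
    rcases hx with rfl | rfl | hx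
    · right; left; rfl
    · left; exact ttg
    · right; right; exact hC.th x hx
  · intro x hx hx1
    simp only [mem_insert] at hx
    rcases hx with rfl | rfl | hx
    · exact absurd hx1 h'1
    · exact hgW'
    · exact hWW' (hC.f1 x hx hx1)
  · intro x hx hx1 hx2
    simp only [mem_insert, not_or] at hx hx2
    rcases hx with rfl | rfl | hx
    · exact absurd (by rw [hih']; exact hh) hx2.2.2
    · exact hgW'
    · exact hWW' (hC.u1 x hx hx1 hx2.2.2)
  · intro v hv
    rcases hsub' v hv with h | h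
    · exact hC.WR v h
    · exact ⟨g, hgR, h⟩
  · have hc : (insert h' (insert g Q)).card = Q.card + 2 := by
      rw [card_insert_of_notMem hh'n, card_insert_of_notMem hgQ]
    have hf : fc (insert h' (insert g Q)) = fc Q + (if g.2 = 1 then 1 else 0) := by
      rw [fc_insert hh'n, fc_insert hgQ, if_neg h'1]
      rfl
    have hu : S.uc Q + (if g.2 = 1 then 0 else 1) ≤ S.uc (insert h' (insert g Q)) + 1 := by
      unfold uc
      have hsub : Q.filter (fun x => x.2 ≠ 1 ∧ S.ι x ∉ Q) ⊆
          insert h (((insert h' (insert g Q)).filter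
            (fun x => x.2 ≠ 1 ∧ S.ι x ∉ insert h' (insert g Q))).erase g) := by
        intro x hx
        simp only [mem_filter] at hx
        have hxg : x ≠ g := by
          intro e
          exact hgQ (by rw [← e]; exact hx.1)
        simp only [mem_insert, mem_erase, mem_filter, not_or]
        by_cases e1 : x = h
        · left; exact e1
        · right
          refine ⟨hxg, Or.inr (Or.inr hx.1), hx.2.1, ?_, ?_, hx.2.2⟩
          · intro e
            apply e1
            have := congrArg S.ι e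
            rwa [S.inv, hih'] at this
          · intro e
            have e3 := congrArg S.ι e
            rw [S.inv] at e3
            -- x = ι g, so ι g ∈ Q
            have hx2 : S.ι g ∈ Q := by rw [← e3]; exact hx.1
            by_cases hg1 : g.2 = 1
            · apply hx.2.2
              exact absurd hg1 (by
                intro _
                have : x.2 ≠ 1 := hx.2.1
                -- if g.2 = 1 then ι x = g has colour 1, but x relevant
                have hxr := (hR.rel x (hC.QR hx.1)).2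
                rw [e] at hxr
                exact hxr hg1)
            · exact (g2.resolve_left hg1) hx2
      have hle := (card_le_card hsub).trans (card_insert_le _ _)
      split_ifs with hg1
      · have := card_erase_le (s := ((insert h' (insert g Q)).filter
            (fun x => x.2 ≠ 1 ∧ S.ι x ∉ insert h' (insert g Q)))) (a := g)
        omega
      · have hmem : g ∈ ((insert h' (insert g Q)).filter
            (fun x => x.2 ≠ 1 ∧ S.ι x ∉ insert h' (insert g Q))) := by
          rw [mem_filter]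
          exact ⟨mem_insert_of_mem (mem_insert_self _ _), hg1, hgi hg1⟩
        have := card_erase_add_one hmem
        omega
    have := hC.cost
    rw [hc, hf]
    split_ifs at hu ⊢ <;> omega

/-- Step B: a fresh pair of darts whose line meets `W` -/
theorem stepB {R : Finset (V × Fin 3)} (hR : S.Fam R) {W : Finset V} {ex : V → Fin 3}
    {X Q : Finset (V × Fin 3)} (hC : S.Conf R W ex X Q)
    (hcl : ∀ h ∈ Q, h.2 ≠ 1 → S.ι h ∈ Q) (g : V × Fin 3) (hgR : g ∈ R) (hgQ : g ∉ Q)
    (w : V) (hw : w ∈ W) (hr : Reach S.ι (S.ι g).2 g.1 w) :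
    ∃ (W' : Finset V) (ex' : V → Fin 3) (X' : Finset (V × Fin 3)),
    S.Conf R W' ex' X' (insert g (insert (S.theta g) Q)) := by
  have hgRel := hR.rel g hgR
  obtain ⟨t1, t2, t3, t4⟩ := S.theta_spec hgRel
  have ttg := S.theta_theta hgRel
  have hg'R := hR.th g hgR
  set g' := S.theta g with hg'
  have hg'Q : g' ∉ Q := by
    intro hq
    have := hC.th g' hq
    rw [ttg] at this
    exact hgQ this
  have hgn : g ∉ insert g' Q := by
    simp only [mem_insert, not_or]
    exact ⟨t1.symm, hgQ⟩
  have hz1 : (S.ι g).2 ≠ 1 := hgRel.2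
  obtain ⟨W1, ex1, X1, hG1, hWW1, hgW1, hX1, hs1⟩ := S.arm hC.geo (S.ι g).2 hz1 g.1 w hw hr
  obtain ⟨W2, ex2, X2, hG2, hWW2, hgW2, hX2, hs2⟩ := S.arm hG1 (S.ι g).2 hz1 g'.1 w (hWW1 hw)
    (Reach.trans' (Reach.symm' S.inv t4) hr)
  have hnn : S.ι g ≠ g' := by
    intro e
    apply t2.1
    rw [t3, e]
  have hnotQ : ∀ x, x ∉ Q → (S.ι x).2 ≠ 1 → x.2 ≠ 1 → S.ι x ∉ Q := by
    intro x hx hx1 hx2 hq
    have := hcl _ hq hx1
    rw [S.inv] at this
    exact hx this
  refine ⟨W2, ex2, X2, hG2, ?_, ?_, ?_, ?_, ?_, ?_⟩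
  · intro x hx
    simp only [mem_insert] at hx
    rcases hx with rfl | rfl | hx
    · exact hgR
    · exact hg'R
    · exact hC.QR hx
  · intro x hx
    simp only [mem_insert] at hx ⊢
    rcases hx with rfl | rfl | hx
    · right; left; rfl
    · left; exact ttg
    · right; right; exact hC.th x hx
  · intro x hx hx1
    simp only [mem_insert] at hx
    rcases hx with rfl | rfl | hx
    · exact hWW2 hgW1
    · exact hgW2
    · exact hWW2 (hWW1 (hC.f1 x hx hx1))
  · intro x hx hx1 hx2
    simp only [mem_insert, not_or] at hx hx2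
    rcases hx with rfl | rfl | hx
    · exact hWW2 hgW1
    · exact hgW2
    · exact hWW2 (hWW1 (hC.u1 x hx hx1 hx2.2.2))
  · intro v hv
    rcases hs2 v hv with h | h
    · rcases hs1 v h with h | h
      · exact hC.WR v h
      · exact ⟨g, hgR, h⟩
    · exact ⟨g, hgR, Reach.trans' t4 h⟩
  · have hc : (insert g (insert g' Q)).card = Q.card + 2 := by
      rw [card_insert_of_notMem hgn, card_insert_of_notMem hg'Q]
    have hf : fc (insert g (insert g' Q)) = fc Q + (if g'.2 = 1 then 1 else 0) +
        (if g.2 = 1 then 1 else 0) := by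
      rw [fc_insert hgn, fc_insert hg'Q]
    have hu0 : S.uc Q = 0 := by
      unfold uc
      rw [card_eq_zero, filter_eq_empty_iff]
      intro x hx h
      exact h.2 (hcl x hx h.1)
    have hmem : ∀ x, (x = g ∨ x = g') → x.2 ≠ 1 → x ∈ (insert g (insert g' Q)).filter
        (fun x => x.2 ≠ 1 ∧ S.ι x ∉ insert g (insert g' Q)) := by
      intro x hx hx1
      simp only [mem_filter, mem_insert, not_or]
      rcases hx with rfl | rfl
      · exact ⟨Or.inl rfl, hx1, fun e => S.ne _ (by rw [e]), hnn, hnotQ _ hgQ hz1 hx1⟩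
      · refine ⟨Or.inr (Or.inl rfl), hx1, ?_, fun e => S.ne _ (by rw [e]),
          hnotQ _ hg'Q t2.2 hx1⟩
        intro e
        apply hnn
        rw [← e, S.inv]
    have hu : (if g.2 = 1 then 0 else 1) + (if g'.2 = 1 then 0 else 1) ≤
        S.uc (insert g (insert g' Q)) := by
      unfold uc
      split_ifs with e1 e2 e2
      · exact Nat.zero_le _
      · exact card_pos.2 ⟨g', hmem g' (Or.inr rfl) e2⟩
      · exact card_pos.2 ⟨g, hmem g (Or.inl rfl) e1⟩
      · have hsub : ({g, g'} : Finset (V × Fin 3)) ⊆ (insert g (insert g' Q)).filter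
            (fun x => x.2 ≠ 1 ∧ S.ι x ∉ insert g (insert g' Q)) := by
          intro x hx
          rw [mem_insert, mem_singleton] at hx
          rcases hx with rfl | rfl
          · exact hmem _ (Or.inl rfl) e1
          · exact hmem _ (Or.inr rfl) e2
        have := card_le_card hsub
        rw [card_pair t1.symm] at this
        exact this
    have := hC.cost
    rw [hc, hf]
    split_ifs at hu ⊢ <;> omega

open Classical in
/-- the initial configuration -/
theorem conf_start {R : Finset (V × Fin 3)} (hR : S.Fam R) (h : V × Fin 3) (hh : h ∈ R) :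
    ∃ (W' : Finset V) (ex' : V → Fin 3) (X' : Finset (V × Fin 3)),
      S.Conf R W' ex' X' {h, S.theta h} := by
  have hrel := hR.rel h hh
  obtain ⟨t1, t2, t3, t4⟩ := S.theta_spec hrel
  have ttg := S.theta_theta hrel
  refine ⟨_, _, _, S.start (S.ι h).2 hrel.2 h.1, ?_, ?_, ?_, ?_, ?_, ?_⟩
  · intro x hx
    rw [mem_insert, mem_singleton] at hx
    rcases hx with rfl | rfl
    · exact hh
    · exact hR.th _ hh
  · intro x hx
    rw [mem_insert, mem_singleton] at hx ⊢
    rcases hx with rfl | rfl
    · right; rfl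
    · left; exact ttg
  · intro x hx _
    rw [mem_insert, mem_singleton] at hx
    rw [mem_filter]
    rcases hx with rfl | rfl
    · exact ⟨mem_univ _, Relation.ReflTransGen.refl⟩
    · exact ⟨mem_univ _, t4⟩
  · intro x hx _ _
    rw [mem_insert, mem_singleton] at hx
    rw [mem_filter]
    rcases hx with rfl | rfl
    · exact ⟨mem_univ _, Relation.ReflTransGen.refl⟩
    · exact ⟨mem_univ _, t4⟩
  · intro v hv
    rw [mem_filter] at hv
    exact ⟨h, hh, hv.2⟩
  · simp

open Classical in
/-- a maximal configuration -/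
theorem conf_max {R : Finset (V × Fin 3)} (hR : S.Fam R) (hne : R.Nonempty) :
    ∃ (W : Finset V) (ex : V → Fin 3) (X Q : Finset (V × Fin 3)),
      S.Conf R W ex X Q ∧ Q.Nonempty ∧ S.Fam Q ∧ 2 * X.card ≤ Q.card + fc Q ∧
      ∀ g ∈ R, g ∉ Q → ∀ w ∈ W, ¬ Reach S.ι (S.ι g).2 g.1 w := by
  obtain ⟨h, hh⟩ := hne
  set P : Finset (Finset (V × Fin 3)) := univ.filter (fun Q => ∃ (W : Finset V) (ex : V → Fin 3)
    (X : Finset (V × Fin 3)), S.Conf R W ex X Q) with hP
  have hPm : ∀ Q, Q ∈ P ↔ ∃ (W : Finset V) (ex : V → Fin 3)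
    (X : Finset (V × Fin 3)), S.Conf R W ex X Q := by
    intro Q
    simp only [hP, mem_filter, mem_univ, true_and]
  have hPne : P.Nonempty := ⟨_, (hPm _).2 (S.conf_start hR h hh)⟩
  obtain ⟨Q, hQ, hmax⟩ := Finset.exists_max_image P Finset.card hPne
  obtain ⟨W, ex, X, hC⟩ := (hPm Q).1 hQ
  have hQpos : 2 ≤ Q.card := by
    have h1 := hmax _ ((hPm _).2 (S.conf_start hR h hh))
    rw [card_pair (S.theta_spec (hR.rel h hh)).1.symm] at h1
    exact h1
  have hcl : ∀ x ∈ Q, x.2 ≠ 1 → S.ι x ∈ Q := by
    intro x hx hx1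
    by_contra hx2
    have hi := hR.io x (hC.QR hx) hx1
    have hiRel := hR.rel _ hi
    obtain ⟨t1, t2, t3, t4⟩ := S.theta_spec hiRel
    have ttg := S.theta_theta hiRel
    have hbig : insert (S.ι x) (insert (S.theta (S.ι x)) Q) ∈ P := by
      rw [hPm]
      by_cases hg : (S.theta (S.ι x)).2 ≠ 1 ∧ S.ι (S.theta (S.ι x)) ∈ Q
      · exact ⟨W, ex, X, S.stepA1 hR hC x hx hx1 hx2 hg.1 hg.2⟩
      · refine S.stepA2 hR hC x hx hx1 hx2 ?_
        by_cases h1 : (S.theta (S.ι x)).2 = 1
        · exact Or.inl h1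
        · exact Or.inr (fun h2 => hg ⟨h1, h2⟩)
    have h1 := hmax _ hbig
    have h2 : Q.card < (insert (S.ι x) (insert (S.theta (S.ι x)) Q)).card := by
      apply card_lt_card
      rw [ssubset_iff_of_subset]
      · exact ⟨S.ι x, mem_insert_self _ _, hx2⟩
      · exact (subset_insert _ _).trans (subset_insert _ _)
    omega
  refine ⟨W, ex, X, Q, hC, card_pos.1 (by omega), ⟨fun x hx => hR.rel x (hC.QR hx), hC.th, hcl⟩,
    ?_, ?_⟩
  · have := hC.cost
    have hu0 : S.uc Q = 0 := by
      unfold uc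
      rw [card_eq_zero, filter_eq_empty_iff]
      intro x hx h
      exact h.2 (hcl x hx h.1)
    omega
  · intro g hg hgQ w hw hr
    have hbig : insert g (insert (S.theta g) Q) ∈ P := by
      rw [hPm]
      exact S.stepB hR hC hcl g hg hgQ w hw hr
    have h1 := hmax _ hbig
    have h2 : Q.card < (insert g (insert (S.theta g) Q)).card := by
      apply card_lt_card
      rw [ssubset_iff_of_subset]
      · exact ⟨g, mem_insert_self _ _, hgQ⟩
      · exact (subset_insert _ _).trans (subset_insert _ _)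
    omega

end Sys

end Pool.Agent.Helper915.WeakOdd
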