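import Pool.Agent.Helper915.WeakOdd4

set_option autoImplicit false
set_option linter.unusedSectionVars false

namespace Pool.Agent.Helper915.WeakOdd

open Finset

namespace Sys
variable {V : Type*} [Fintype V] [DecidableEq V] (S : Sys V)

/-- event vertices -/
def Evt (f : V × Fin 3 → ZMod 2) (v : V) : Prop :=
  (f (v, 0) ≠ 0 ∧ f (v, 2) ≠ 0) ∨
  (f (v, 1) ≠ 0 ∧ f (v, 2) ≠ 0 ∧ (S.ι (v, 1)).2 = 1 ∧ f ((S.ι (v, 1)).1, 0) ≠ 0)

open Classical in
/-- the set of event vertices -/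
noncomputable def Ev (f : V × Fin 3 → ZMod 2) : Finset V := univ.filter (S.Evt f)

/-- an anomaly at `v` whose partner vertex is `q` -/
def CAn (f : V × Fin 3 → ZMod 2) (v q : V) : Prop :=
  f (v, 0) = 0 ∧ f (v, 1) ≠ 0 ∧ f (v, 2) ≠ 0 ∧ S.ι (v, 1) = (q, 1) ∧ f (q, 0) ≠ 0 ∧
    f (q, 1) ≠ 0 ∧ f (q, 2) = 0

/-- the charging relation -/
def Ch (f : V × Fin 3 → ZMod 2) (ex : V → Fin 3) (v : V) (c : V × Fin 3) : Prop :=
  ((f (v, 0) ≠ 0 ∧ f (v, 2) ≠ 0) ∧ c = (v, ex v)) ∨
  ∃ q, S.CAn f v q ∧ (c = (v, 1) ∨ (c = (v, 2) ∧ ex v = 2) ∨ (c = (q, 0) ∧ ex q = 0))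

theorem inK_W {W : Finset V} {ex : V → Fin 3} {X : Finset (V × Fin 3)} (hG : S.Geo W ex X)
    {d : V × Fin 3} (h : S.inK W ex X d) : d.1 ∈ W := by
  rcases h with h | h | h
  · exact h.1
  · exact (hG.xW d h).1
  · have := (hG.xW _ h).2
    rwa [S.inv] at this

theorem inK_imp {W : Finset V} {ex : V → Fin 3} {X : Finset (V × Fin 3)}
    {d : V × Fin 3} (h : S.inK W ex X d) (hd : d.2 = ex d.1) : d ∈ X ∨ S.ι d ∈ X := by
  rcases h with h | h | h
  · exact absurd hd h.2.2.2.2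
  · exact Or.inl h
  · exact Or.inr h

theorem ch_exists {W : Finset V} {ex : V → Fin 3} {X : Finset (V × Fin 3)} (hG : S.Geo W ex X)
    (f : V × Fin 3 → ZMod 2) (h1 : ∀ d, f (S.ι d) = f d) (h2 : ∀ d, f d ≠ 0 → S.inK W ex X d)
    (h3 : ∀ p, (S.ι (p, 1)).2 = 1 → ∑ k, f (p, k) = 0) (v : V) (hv : S.Evt f v) :
    ∃ c, (c ∈ X ∨ S.ι c ∈ X) ∧ S.Ch f ex v c := by
  have key : ∀ a b c : ZMod 2, a + b + c = 0 → a ≠ 0 → b ≠ 0 → c = 0 := by decide
  have key2 : ∀ a b c : ZMod 2, a + b + c = 0 → b ≠ 0 → c ≠ 0 → a = 0 := by decide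
  have hfin : ∀ x : Fin 3, x ≠ 1 → x = 0 ∨ x = 2 := by decide
  rcases hv with hz | ⟨hv1, hv2, hm, hq0⟩
  · refine ⟨(v, ex v), ?_, Or.inl ⟨hz, rfl⟩⟩
    have hvW : v ∈ W := S.inK_W hG (h2 _ hz.1)
    have hne : f (v, ex v) ≠ 0 := by
      rcases hfin _ (hG.exv v hvW) with h | h
      · rw [h]; exact hz.1
      · rw [h]; exact hz.2
    exact S.inK_imp (h2 _ hne) rfl
  · obtain ⟨q, hq⟩ : ∃ q, S.ι (v, 1) = (q, 1) := ⟨(S.ι (v, 1)).1, Prod.ext rfl hm⟩
    rw [hq] at hq0
    have hq1 : f (q, 1) ≠ 0 := by rw [← hq, h1]; exact hv1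
    have sv := h3 v hm
    rw [Fin.sum_univ_three] at sv
    have hiq : S.ι (q, 1) = (v, 1) := by rw [← hq, S.inv]
    have sq := h3 q (by rw [hiq])
    rw [Fin.sum_univ_three] at sq
    have hCA : S.CAn f v q := ⟨key2 _ _ _ sv hv1 hv2, hv1, hv2, hq, hq0, hq1,
      key _ _ _ sq hq0 hq1⟩
    have hvW : v ∈ W := S.inK_W hG (h2 _ hv1)
    have hqW : q ∈ W := S.inK_W hG (h2 _ hq1)
    by_cases he : ex v = ex q
    · rcases hfin _ (hG.exv v hvW) with h | h
      · refine ⟨(q, 0), ?_, Or.inr ⟨q, hCA, Or.inr (Or.inr ⟨rfl, by rw [← he]; exact h⟩)⟩⟩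
        exact S.inK_imp (h2 _ hq0) (by show (0 : Fin 3) = ex q; rw [← he, h])
      · refine ⟨(v, 2), ?_, Or.inr ⟨q, hCA, Or.inr (Or.inl ⟨rfl, h⟩)⟩⟩
        exact S.inK_imp (h2 _ hv2) (by show (2 : Fin 3) = ex v; rw [h])
    · refine ⟨(v, 1), ?_, Or.inr ⟨q, hCA, Or.inl rfl⟩⟩
      rcases h2 _ hv1 with h | h | h
      · exfalso
        have := h.2.2.2.1
        rw [hq] at this
        exact he this
      · exact Or.inl h
      · exact Or.inr h

theorem ch_imp {W : Finset V} {ex : V → Fin 3} {X : Finset (V × Fin 3)} (hG : S.Geo W ex X)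
    (f : V × Fin 3 → ZMod 2) (h2 : ∀ d, f d ≠ 0 → S.inK W ex X d) {v : V} {c : V × Fin 3}
    (h : S.Ch f ex v c) : (c.2 = ex c.1 ∧ c.1 ∈ W) ∨ ∃ q, S.CAn f v q ∧ c = (v, 1) := by
  rcases h with ⟨h, rfl⟩ | ⟨q, hq, rfl | ⟨rfl, h⟩ | ⟨rfl, h⟩⟩
  · exact Or.inl ⟨rfl, (S.inK_W hG (h2 _ h.1) : v ∈ W)⟩
  · exact Or.inr ⟨q, hq, rfl⟩
  · exact Or.inl ⟨h.symm, (S.inK_W hG (h2 _ hq.2.1) : v ∈ W)⟩
  · exact Or.inl ⟨h.symm, (S.inK_W hG (h2 _ hq.2.2.2.2.1) : q ∈ W)⟩

theorem ch_eq {W : Finset V} {ex : V → Fin 3} {X : Finset (V × Fin 3)} (hG : S.Geo W ex X)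
    (f : V × Fin 3 → ZMod 2) (h2 : ∀ d, f d ≠ 0 → S.inK W ex X d) {v v' : V} {c : V × Fin 3}
    (h : S.Ch f ex v c) (h' : S.Ch f ex v' c) : v = v' := by
  have hzW : ∀ v, f (v, 0) ≠ 0 ∧ f (v, 2) ≠ 0 → ex v ≠ 1 :=
    fun v hz => hG.exv v (S.inK_W hG (h2 _ hz.1))
  have aux : ∀ v v' : V, ∀ c : V × Fin 3, (f (v, 0) ≠ 0 ∧ f (v, 2) ≠ 0) → c = (v, ex v) →
      (∃ q, S.CAn f v' q ∧ (c = (v', 1) ∨ (c = (v', 2) ∧ ex v' = 2) ∨ (c = (q, 0) ∧ ex q = 0))) →
      False := by
    intro v v' c hz hc ⟨q, hq, h⟩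
    rcases h with h | ⟨h, _⟩ | ⟨h, _⟩
    · rw [h] at hc
      have e := (Prod.ext_iff.1 hc).2
      exact hzW v hz e.symm
    · rw [h] at hc
      have e := (Prod.ext_iff.1 hc).1
      simp only at e
      rw [← e] at hz
      exact hz.1 hq.1
    · rw [h] at hc
      have e := (Prod.ext_iff.1 hc).1
      simp only at e
      rw [← e] at hz
      exact hz.2 hq.2.2.2.2.2.2
  rcases h with ⟨hz, hc⟩ | h
  · rcases h' with ⟨hz', hc'⟩ | h'
    · rw [hc] at hc'
      exact (Prod.ext_iff.1 hc').1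
    · exact (aux v v' c hz hc h').elim
  · rcases h' with ⟨hz', hc'⟩ | h'
    · exact (aux v' v c hz' hc' h).elim
    · obtain ⟨q, hq, h⟩ := h
      obtain ⟨q', hq', h'⟩ := h'
      rcases h with h | ⟨h, _⟩ | ⟨h, _⟩ <;> rcases h' with h' | ⟨h', _⟩ | ⟨h', _⟩ <;>
        rw [h] at h'
      · exact (Prod.ext_iff.1 h').1
      · exact absurd (Prod.ext_iff.1 h').2 (by simp)
      · exact absurd (Prod.ext_iff.1 h').2 (by simp)
      · exact absurd (Prod.ext_iff.1 h').2 (by simp)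
      · exact (Prod.ext_iff.1 h').1
      · exact absurd (Prod.ext_iff.1 h').2 (by simp)
      · exact absurd (Prod.ext_iff.1 h').2 (by simp)
      · exact absurd (Prod.ext_iff.1 h').2 (by simp)
      · have e := (Prod.ext_iff.1 h').1
        simp only at e
        have e1 := hq.2.2.2.1
        have e2 := hq'.2.2.2.1
        rw [e, ← e2] at e1
        have e3 := congrArg S.ι e1
        rw [S.inv, S.inv] at e3
        exact (Prod.ext_iff.1 e3).1

theorem ch_ne {W : Finset V} {ex : V → Fin 3} {X : Finset (V × Fin 3)} (hG : S.Geo W ex X)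
    (f : V × Fin 3 → ZMod 2) (h2 : ∀ d, f d ≠ 0 → S.inK W ex X d) {v v' : V} {c : V × Fin 3}
    (hX : c ∈ X ∨ S.ι c ∈ X)
    (h : S.Ch f ex v c) (h' : S.Ch f ex v' (S.ι c)) : False := by
  rcases S.ch_imp hG f h2 h with ⟨hi, hiW⟩ | ⟨q, hq, hc⟩
  · rcases S.ch_imp hG f h2 h' with ⟨hi', hiW'⟩ | ⟨q', hq', hc'⟩
    · rcases hX with hX | hX
      · exact hG.xp c hX ⟨hi, hi'⟩
      · refine hG.xp _ hX ⟨hi', ?_⟩
        rw [S.inv]; exact hi
    · have e := congrArg S.ι hc'
      rw [S.inv, hq'.2.2.2.1] at e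
      rw [e] at hi hiW
      exact hG.exv _ hiW hi.symm
  · rcases S.ch_imp hG f h2 h' with ⟨hi', hiW'⟩ | ⟨q', hq', hc'⟩
    · rw [hc, hq.2.2.2.1] at hi' hiW'
      exact hG.exv _ hiW' hi'.symm
    · rw [hc, hq.2.2.2.1] at hc'
      have e := (Prod.ext_iff.1 hc').1
      simp only at e
      have h1 := hq.2.2.2.2.2.2
      rw [e] at h1
      exact hq'.2.2.1 h1

open Classical in
theorem event_le {W : Finset V} {ex : V → Fin 3} {X : Finset (V × Fin 3)} (hG : S.Geo W ex X)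
    (f : V × Fin 3 → ZMod 2) (h1 : ∀ d, f (S.ι d) = f d) (h2 : ∀ d, f d ≠ 0 → S.inK W ex X d)
    (h3 : ∀ p, (S.ι (p, 1)).2 = 1 → ∑ k, f (p, k) = 0) : (S.Ev f).card ≤ X.card := by
  have hch : ∀ v : V, ∃ c, S.Evt f v → (c ∈ X ∨ S.ι c ∈ X) ∧ S.Ch f ex v c := by
    intro v
    by_cases hv : S.Evt f v
    · obtain ⟨c, hc⟩ := S.ch_exists hG f h1 h2 h3 v hv
      exact ⟨c, fun _ => hc⟩
    · exact ⟨(v, 0), fun h => absurd h hv⟩
  choose c hc using hch
  refine Finset.card_le_card_of_injOn (fun v => if c v ∈ X then c v else S.ι (c v)) ?_ ?_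
  · intro v hv
    have hv' : S.Evt f v := by
      have := hv
      simp only [Ev, coe_filter, mem_univ, true_and, Set.mem_ofPred_eq] at this
      exact this
    obtain ⟨ha, _⟩ := hc v hv'
    show (if c v ∈ X then c v else S.ι (c v)) ∈ X
    split_ifs with h
    · exact h
    · exact ha.resolve_left h
  · intro v hv v' hv' he
    have hv1 : S.Evt f v := by
      simp only [Ev, coe_filter, mem_univ, true_and, Set.mem_ofPred_eq] at hv
      exact hv
    have hv1' : S.Evt f v' := by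
      simp only [Ev, coe_filter, mem_univ, true_and, Set.mem_ofPred_eq] at hv'
      exact hv'
    obtain ⟨ha, hb⟩ := hc v hv1
    obtain ⟨ha', hb'⟩ := hc v' hv1'
    have hcases : c v = c v' ∨ c v' = S.ι (c v) := by
      simp only at he
      split_ifs at he with e1 e2 e2
      · exact Or.inl he
      · right
        have := congrArg S.ι he
        rw [S.inv] at this
        exact this.symm
      · right; exact he.symm
      · left
        have := congrArg S.ι he
        rwa [S.inv, S.inv] at this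
    rcases hcases with h | h
    · rw [← h] at hb'
      exact S.ch_eq hG f h2 hb hb'
    · rw [h] at hb'
      exact (S.ch_ne hG f h2 ha hb hb').elim

theorem tjoin {P : V × Fin 3 → Prop} (r : V) (T : Finset V) (hT : Even T.card)
    (hj : ∀ t ∈ T, S.Join P r t) :
    ∃ f : V × Fin 3 → ZMod 2, (∀ d, f (S.ι d) = f d) ∧ (∀ d, f d ≠ 0 → P d) ∧
      ∀ p, ∑ k, f (p, k) = if p ∈ T then 1 else 0 := by
  have hch : ∀ t : V, ∃ f : V × Fin 3 → ZMod 2, t ∈ T → (∀ d, f (S.ι d) = f d) ∧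
      (∀ d, f d ≠ 0 → P d) ∧
      ∀ p, ∑ k, f (p, k) = (if p = r then 1 else 0) + (if p = t then 1 else 0) := by
    intro t
    by_cases ht : t ∈ T
    · obtain ⟨f, hf⟩ := hj t ht
      exact ⟨f, fun _ => hf⟩
    · exact ⟨0, fun h => absurd h ht⟩
  choose f hf using hch
  refine ⟨fun d => ∑ t ∈ T, f t d, ?_, ?_, ?_⟩
  · intro d
    exact Finset.sum_congr rfl (fun t ht => (hf t ht).1 d)
  · intro d hd
    obtain ⟨t, ht, hne⟩ := Finset.exists_ne_zero_of_sum_ne_zero hd
    exact (hf t ht).2.1 d hne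
  · intro p
    rw [Finset.sum_comm]
    rw [Finset.sum_congr rfl (fun t ht => (hf t ht).2.2 p)]
    rw [Finset.sum_add_distrib, Finset.sum_const, Finset.sum_ite_eq, nsmul_eq_mul]
    have : ((T.card : ℕ) : ZMod 2) = 0 := (ZMod.natCast_eq_zero_iff_even).2 hT
    rw [this, zero_mul, zero_add]

theorem fam_even {Q : Finset (V × Fin 3)} (hQ : S.Fam Q) : Even (fc Q) := by
  have h1 : Even Q.card := even_of_invol Q S.theta hQ.th
    (fun a ha => S.theta_theta (hQ.rel a ha)) (fun a ha => (S.theta_spec (hQ.rel a ha)).1)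
  have h2 : Even (Q.filter (fun h => ¬ h.2 = 1)).card := by
    refine even_of_invol _ S.ι ?_ (fun a _ => S.inv a) (fun a _ e => S.ne a (by rw [e]))
    intro a ha
    rw [mem_filter] at ha ⊢
    exact ⟨hQ.io a ha.1 ha.2, (hQ.rel a ha.1).2⟩
  have h3 : (Q.filter (fun h => h.2 = 1)).card + (Q.filter (fun h => ¬ h.2 = 1)).card = Q.card :=
    Finset.card_filter_add_card_filter_not _
  rw [← h3] at h1
  exact (Nat.even_add.1 h1).2 h2

open Classical in
theorem flow_exists (n : ℕ) : ∀ R : Finset (V × Fin 3), R.card ≤ n → S.Fam R →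
    ∃ f : V × Fin 3 → ZMod 2, (∀ d, f (S.ι d) = f d) ∧
      (∀ d, f d ≠ 0 → ∃ g ∈ R, Reach S.ι (S.ι g).2 g.1 d.1) ∧
      (∀ p, ∑ k, f (p, k) = if (p, 1) ∈ R then 1 else 0) ∧
      2 * (S.Ev f).card ≤ R.card + fc R := by
  induction n with
  | zero =>
    intro R hR _
    have : R = ∅ := card_eq_zero.1 (Nat.le_zero.1 hR)
    subst this
    refine ⟨fun _ => 0, fun _ => rfl, fun d h => absurd rfl h, fun p => by simp, ?_⟩
    have : S.Ev (fun _ => (0 : ZMod 2)) = ∅ := by
      unfold Ev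
      rw [filter_eq_empty_iff]
      intro x _ h
      rcases h with h | h
      · exact h.1 rfl
      · exact h.1 rfl
    rw [this]
    simp
  | succ n ih =>
    intro R hRn hR
    by_cases hne : R.Nonempty
    swap
    · exact ih R (by rw [not_nonempty_iff_eq_empty.1 hne]; simp) hR
    obtain ⟨W, ex, X, Q, hC, hQne, hQF, hcost, hdis⟩ := S.conf_max hR hne
    -- the rest
    have hRQ : S.Fam (R \ Q) := by
      refine ⟨fun h hh => hR.rel h (mem_sdiff.1 hh).1, fun h hh => ?_, fun h hh h1 => ?_⟩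
      · rw [mem_sdiff] at hh ⊢
        refine ⟨hR.th h hh.1, fun hq => hh.2 ?_⟩
        have := hQF.th _ hq
        rwa [S.theta_theta (hR.rel h hh.1)] at this
      · rw [mem_sdiff] at hh ⊢
        refine ⟨hR.io h hh.1 h1, fun hq => hh.2 ?_⟩
        have := hQF.io _ hq (hR.rel h hh.1).2
        rwa [S.inv] at this
    have hcardQ : (R \ Q).card + Q.card = R.card := card_sdiff_add_card_eq_card hC.QR
    have hQpos := card_pos.2 hQne
    obtain ⟨f', a1, a2, a3, a4⟩ := ih (R \ Q) (by omega) hRQ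
    -- the flow for Q
    set T : Finset V := (Q.filter (fun h => h.2 = 1)).image Prod.fst with hT
    have hTm : ∀ p, p ∈ T ↔ (p, 1) ∈ Q := by
      intro p
      simp only [hT, mem_image, mem_filter]
      constructor
      · rintro ⟨h, ⟨h1, h2⟩, h3⟩
        have : h = (p, 1) := Prod.ext h3 h2
        rwa [← this]
      · intro h
        exact ⟨(p, 1), ⟨h, rfl⟩, rfl⟩
    have hTc : T.card = fc Q := by
      rw [hT]
      unfold fc
      apply card_image_of_injOn
      intro x hx y hy he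
      simp only [coe_filter, Set.mem_ofPred_eq] at hx hy
      exact Prod.ext he (by rw [hx.2, hy.2])
    have hTe : Even T.card := by rw [hTc]; exact S.fam_even hQF
    obtain ⟨f, b1, b2, b3⟩ : ∃ f : V × Fin 3 → ZMod 2, (∀ d, f (S.ι d) = f d) ∧
        (∀ d, f d ≠ 0 → S.inK W ex X d) ∧
        ∀ p, ∑ k, f (p, k) = if p ∈ T then 1 else 0 := by
      by_cases hTn : T.Nonempty
      · obtain ⟨r, hr⟩ := hTn
        have hTW : ∀ t ∈ T, t ∈ W := fun t ht => hC.f1 (t, 1) ((hTm t).1 ht) rfl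
        exact S.tjoin r T hTe (fun t ht => hC.geo.jn r (hTW r hr) t (hTW t ht))
      · rw [not_nonempty_iff_eq_empty] at hTn
        refine ⟨fun _ => 0, fun _ => rfl, fun d h => absurd rfl h, fun p => ?_⟩
        rw [hTn]
        simp
    have hb4 := S.event_le hC.geo f b1 b2 (by
      intro p hp
      rw [b3, if_neg]
      intro hpT
      have h := (hC.QR ((hTm p).1 hpT))
      exact (hR.rel _ h).1 hp)
    have hfW : ∀ v k, v ∈ W → f' (v, k) = 0 := by
      intro v k hv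
      by_contra hc
      obtain ⟨g, hg, hr⟩ := a2 (v, k) hc
      rw [mem_sdiff] at hg
      exact hdis g hg.1 hg.2 v hv hr
    have hfW2 : ∀ v k, v ∉ W → f (v, k) = 0 := by
      intro v k hv
      by_contra hc
      exact hv (S.inK_W hC.geo (b2 _ hc))
    refine ⟨fun d => f d + f' d, fun d => by simp only [a1, b1], ?_, ?_, ?_⟩
    · intro d hd
      by_cases hf : f d = 0
      · have : f' d ≠ 0 := by
          intro h; apply hd; simp only [hf, h, add_zero]
        obtain ⟨g, hg, hr⟩ := a2 d this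
        exact ⟨g, (mem_sdiff.1 hg).1, hr⟩
      · exact hC.WR _ (S.inK_W hC.geo (b2 d hf))
    · intro p
      rw [Finset.sum_add_distrib, a3, b3]
      simp only [hTm, mem_sdiff]
      by_cases h1 : (p, 1) ∈ Q
      · have := hC.QR h1
        simp [h1, this]
      · simp [h1]
    · have hsub : S.Ev (fun d => f d + f' d) ⊆ S.Ev f ∪ S.Ev f' := by
        intro v hv
        simp only [Ev, mem_filter, mem_univ, true_and, mem_union] at hv ⊢
        by_cases hvW : v ∈ W
        · left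
          rcases hv with ⟨h1, h2⟩ | ⟨h1, h2, h3, h4⟩
          · left
            simp only [hfW v _ hvW, add_zero] at h1 h2
            exact ⟨h1, h2⟩
          · right
            simp only [hfW v _ hvW, add_zero] at h1 h2
            have hq : (S.ι (v, 1)).1 ∈ W := by
              have : f (S.ι (v, 1)) ≠ 0 := by rw [b1]; exact h1
              exact S.inK_W hC.geo (b2 _ this)
            simp only [hfW _ _ hq, add_zero] at h4
            exact ⟨h1, h2, h3, h4⟩
        · right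
          rcases hv with ⟨h1, h2⟩ | ⟨h1, h2, h3, h4⟩
          · left
            simp only [hfW2 v _ hvW, zero_add] at h1 h2
            exact ⟨h1, h2⟩
          · right
            simp only [hfW2 v _ hvW, zero_add] at h1 h2
            have hq : (S.ι (v, 1)).1 ∉ W := by
              intro hq
              apply h1
              rw [← a1]
              exact hfW _ _ hq
            simp only [hfW2 _ _ hq, zero_add] at h4
            exact ⟨h1, h2, h3, h4⟩
      have h1 := card_le_card hsub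
      have h2 := card_union_le (S.Ev f) (S.Ev f')
      have h3 : fc R = fc Q + fc (R \ Q) := by
        unfold fc
        rw [← card_union_of_disjoint, ← filter_union, union_sdiff_of_subset hC.QR]
        exact disjoint_filter_filter disjoint_sdiff
      omega

end Sys

end Pool.Agent.Helper915.WeakOdd
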