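import Pool.Agent.Helper915.WeakOdd5

set_option autoImplicit false
set_option linter.unusedSectionVars false

namespace Pool.Agent.Helper915.WeakOdd

open Finset

namespace Sys
variable {V : Type*} [Fintype V] [DecidableEq V] (S : Sys V)

/-- all relevant darts -/
def allR : Finset (V × Fin 3) := univ.filter (fun h => (S.ι h).2 ≠ h.2 ∧ (S.ι h).2 ≠ 1)

/-- all mismatched darts -/
def mis : Finset (V × Fin 3) := univ.filter (fun h => (S.ι h).2 ≠ h.2)

theorem allR_fam : S.Fam S.allR := by
  have hm : ∀ h, h ∈ S.allR ↔ Rel S.ι h := by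
    intro h
    simp only [allR, mem_filter, mem_univ, true_and]
    rfl
  refine ⟨fun h hh => (hm h).1 hh, fun h hh => ?_, fun h hh h1 => ?_⟩
  · rw [hm] at hh ⊢
    exact (S.theta_spec hh).2.1
  · rw [hm] at hh ⊢
    refine ⟨?_, ?_⟩
    · rw [S.inv]; exact fun e => hh.1 e.symm
    · rw [S.inv]; exact h1

theorem allR_card : S.allR.card + fc S.allR ≤ S.mis.card := by
  have h1 : (S.mis.filter (fun h => (S.ι h).2 ≠ 1)).card +
      (S.mis.filter (fun h => ¬ (S.ι h).2 ≠ 1)).card = S.mis.card :=
    Finset.card_filter_add_card_filter_not _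
  have h2 : S.allR = S.mis.filter (fun h => (S.ι h).2 ≠ 1) := by
    ext h
    simp only [allR, mis, mem_filter, mem_univ, true_and]
  have h3 : fc S.allR ≤ (S.mis.filter (fun h => ¬ (S.ι h).2 ≠ 1)).card := by
    unfold fc
    refine Finset.card_le_card_of_injOn S.ι ?_ ?_
    · intro h hh
      simp only [allR, mis, mem_filter, mem_univ, true_and, mem_coe, not_not] at hh ⊢
      refine ⟨?_, ?_⟩
      · rw [S.inv]; exact fun e => hh.1.1 e.symm
      · rw [S.inv]; exact hh.2
    · intro a _ b _ he
      have := congrArg S.ι he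
      rwa [S.inv, S.inv] at this
  rw [h2] at h3 ⊢
  omega

open Classical in
theorem core :
    ∃ J : V × Fin 3 → ZMod 2, (∀ d, J (S.ι d) = J d) ∧ (∀ v, ∑ k, J (v, k) = 1) ∧
      ∃ A : Finset V, A.card ≤ S.mis.card ∧
        ∀ C : Finset V, (∀ v ∈ C, ∀ k, J (v, k) = 0 → (S.ι (v, k)).1 ∈ C) →
          Disjoint C A → Even C.card := by
  obtain ⟨f, f1, _, f3, f4⟩ := S.flow_exists S.allR.card S.allR le_rfl S.allR_fam
  have hcard := S.allR_card
  set B : V × Fin 3 → ZMod 2 := fun d => if d.2 = 1 ∧ (S.ι d).2 = 1 then 1 else 0 with hB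
  refine ⟨fun d => B d + f d, ?_, ?_, ?_⟩
  · intro d
    simp only [f1, hB, S.inv]
    congr 1
    simp only [and_comm]
  · intro v
    rw [Finset.sum_add_distrib, f3]
    have : ∑ k, B (v, k) = if (S.ι (v, 1)).2 = 1 then 1 else 0 := by
      rw [Fin.sum_univ_three]
      simp [hB]
    rw [this]
    have h2 : (v, (1 : Fin 3)) ∈ S.allR ↔ (S.ι (v, 1)).2 ≠ 1 := by
      simp only [allR, mem_filter, mem_univ, true_and, and_self]
    by_cases h : (S.ι (v, 1)).2 = 1
    · rw [if_pos h, if_neg (fun h' => (h2.1 h') h), add_zero]
    · rw [if_neg h, if_pos (h2.2 h), zero_add]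
  · set J : V × Fin 3 → ZMod 2 := fun d => B d + f d with hJ
    have hJi : ∀ d, J (S.ι d) = J d := by
      intro d
      simp only [hJ, f1, hB, S.inv]
      congr 1
      simp only [and_comm]
    have hJs : ∀ v, J (v, 0) + J (v, 1) + J (v, 2) = 1 := by
      intro v
      have : ∑ k, J (v, k) = 1 := by
        simp only [hJ]
        rw [Finset.sum_add_distrib, f3]
        have : ∑ k, B (v, k) = if (S.ι (v, 1)).2 = 1 then 1 else 0 := by
          rw [Fin.sum_univ_three]
          simp [hB]
        rw [this]
        have h2 : (v, (1 : Fin 3)) ∈ S.allR ↔ (S.ι (v, 1)).2 ≠ 1 := by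
          simp only [allR, mem_filter, mem_univ, true_and, and_self]
        by_cases h : (S.ι (v, 1)).2 = 1
        · rw [if_pos h, if_neg (fun h' => (h2.1 h') h), add_zero]
        · rw [if_neg h, if_pos (h2.2 h), zero_add]
      rwa [Fin.sum_univ_three] at this
    have hJ0 : ∀ v, J (v, 0) = f (v, 0) := by
      intro v
      simp [hJ, hB]
    have hJ2 : ∀ v, J (v, 2) = f (v, 2) := by
      intro v
      simp [hJ, hB]
    have hJ1 : ∀ v, (S.ι (v, 1)).2 = 1 → J (v, 1) = 1 + f (v, 1) := by
      intro v hv
      simp [hJ, hB, hv]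
    set A2 : Finset V := (S.mis.filter (fun d => d.2 < (S.ι d).2)).image Prod.fst with hA2
    have hA2c : 2 * A2.card ≤ S.mis.card := by
      have h1 : A2.card ≤ (S.mis.filter (fun d => d.2 < (S.ι d).2)).card := card_image_le
      have h2 : (S.mis.filter (fun d => d.2 < (S.ι d).2)).card ≤
          (S.mis.filter (fun d => ¬ d.2 < (S.ι d).2)).card := by
        refine Finset.card_le_card_of_injOn S.ι ?_ ?_
        · intro h hh
          simp only [mis, mem_filter, mem_univ, true_and, mem_coe, not_lt] at hh ⊢
          refine ⟨?_, ?_⟩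
          · rw [S.inv]; exact fun e => hh.1 e.symm
          · rw [S.inv]; exact hh.2.le
        · intro a _ b _ he
          have := congrArg S.ι he
          rwa [S.inv, S.inv] at this
      have h3 : (S.mis.filter (fun d => d.2 < (S.ι d).2)).card +
          (S.mis.filter (fun d => ¬ d.2 < (S.ι d).2)).card = S.mis.card :=
        Finset.card_filter_add_card_filter_not _
      omega
    refine ⟨S.Ev f ∪ A2, ?_, ?_⟩
    · have := card_union_le (S.Ev f) A2
      omega
    · intro C hC hdis
      have hnE : ∀ v ∈ C, ¬ S.Evt f v := by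
        intro v hv he
        refine disjoint_left.1 hdis hv (mem_union_left _ ?_)
        simp only [Ev, mem_filter, mem_univ, true_and]
        exact he
      have hnA : ∀ v ∈ C, ∀ k, J (v, k) = 0 → (S.ι (v, k)).2 = k := by
        intro v hv k hk
        by_contra hne
        rcases lt_or_gt_of_ne hne with hlt | hlt
        · have hw := hC v hv k hk
          refine disjoint_left.1 hdis hw (mem_union_right _ ?_)
          rw [hA2, mem_image]
          refine ⟨S.ι (v, k), ?_, rfl⟩
          simp only [mis, mem_filter, mem_univ, true_and]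
          rw [S.inv]
          exact ⟨fun e => hne e.symm, hlt⟩
        · refine disjoint_left.1 hdis hv (mem_union_right _ ?_)
          rw [hA2, mem_image]
          refine ⟨(v, k), ?_, rfl⟩
          simp only [mis, mem_filter, mem_univ, true_and]
          exact ⟨hne, hlt⟩
      have z2 : ∀ x : ZMod 2, x ≠ 0 → x = 1 := by decide
      -- the two halves
      have hE1 : Even (C.filter (fun v => J (v, 2) = 0)).card := by
        refine even_of_invol _ (fun v => (S.ι (v, 2)).1) ?_ ?_ ?_
        · intro v hv
          rw [mem_filter] at hv ⊢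
          have h2 := hnA v hv.1 2 hv.2
          have e : S.ι (v, 2) = ((S.ι (v, 2)).1, 2) := Prod.ext rfl h2
          refine ⟨hC v hv.1 2 hv.2, ?_⟩
          rw [← e, hJi]
          exact hv.2
        · intro v hv
          rw [mem_filter] at hv
          have h2 := hnA v hv.1 2 hv.2
          have e : S.ι (v, 2) = ((S.ι (v, 2)).1, 2) := Prod.ext rfl h2
          show (S.ι ((S.ι (v, 2)).1, 2)).1 = v
          rw [← e, S.inv]
        · intro v _
          exact S.ne (v, 2)
      have hE2 : Even (C.filter (fun v => ¬ J (v, 2) = 0)).card := by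
        have hfacts : ∀ v ∈ C, ¬ J (v, 2) = 0 → J (v, 1) = 0 ∧
            ∃ q ∈ C, S.ι (v, 1) = (q, 1) ∧ ¬ J (q, 2) = 0 := by
          intro v hv h2
          have hne := hnE v hv
          have f2 : f (v, 2) ≠ 0 := by rw [← hJ2]; exact h2
          have f0 : f (v, 0) = 0 := by
            by_contra h0
            exact hne (Or.inl ⟨h0, f2⟩)
          have j0 : J (v, 0) = 0 := by rw [hJ0]; exact f0
          have j2 : J (v, 2) = 1 := z2 _ h2
          have hs := hJs v
          rw [j0, j2, zero_add] at hs
          have j1 : J (v, 1) = 0 := by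
            revert hs
            generalize J (v, 1) = x
            revert x
            decide
          have hm := hnA v hv 1 j1
          have e : S.ι (v, 1) = ((S.ι (v, 1)).1, 1) := Prod.ext rfl hm
          set q := (S.ι (v, 1)).1 with hq
          have hqC : q ∈ C := hC v hv 1 j1
          have f1v : f (v, 1) ≠ 0 := by
            have := hJ1 v hm
            rw [j1] at this
            intro h0
            rw [h0] at this
            exact absurd this (by decide)
          have fq0 : f (q, 0) = 0 := by
            by_contra h0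
            exact hne (Or.inr ⟨f1v, f2, hm, h0⟩)
          have jq1 : J (q, 1) = 0 := by rw [← e, hJi]; exact j1
          have hsq := hJs q
          rw [hJ0, fq0, jq1, zero_add, zero_add] at hsq
          refine ⟨j1, q, hqC, e, ?_⟩
          rw [hsq]
          decide
        refine even_of_invol _ (fun v => (S.ι (v, 1)).1) ?_ ?_ ?_
        · intro v hv
          rw [mem_filter] at hv ⊢
          obtain ⟨_, q, hq, e, h2⟩ := hfacts v hv.1 hv.2
          show (S.ι (v, 1)).1 ∈ C ∧ ¬ J ((S.ι (v, 1)).1, 2) = 0
          rw [e]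
          exact ⟨hq, h2⟩
        · intro v hv
          rw [mem_filter] at hv
          obtain ⟨_, q, hq, e, h2⟩ := hfacts v hv.1 hv.2
          show (S.ι ((S.ι (v, 1)).1, 1)).1 = v
          rw [e]
          show (S.ι (q, 1)).1 = v
          rw [← e, S.inv]
        · intro v _
          exact S.ne (v, 1)
      have : (C.filter (fun v => J (v, 2) = 0)).card + (C.filter (fun v => ¬ J (v, 2) = 0)).card =
          C.card := Finset.card_filter_add_card_filter_not _
      rw [← this]
      exact hE1.add hE2

end Sys

end Pool.Agent.Helper915.WeakOdd
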