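import Pool.Agent.Helper915.WeakOdd6

set_option autoImplicit false
set_option linter.unusedSectionVars false

namespace Pool.Agent.Helper915.WeakOdd

open Finset

section graph
variable {V E : Type} [Fintype V] [DecidableEq V] [Fintype E] [DecidableEq E] (s t : E → V)

/-- the vertex of a half-edge -/
def vt (d : E × Bool) : V := if d.2 then t d.1 else s d.1

/-- the opposite half-edge -/
def flp (d : E × Bool) : E × Bool := (d.1, !d.2)

theorem flp_flp (d : E × Bool) : flp (flp d) = d := by
  obtain ⟨e, b⟩ := d
  simp [flp]

theorem vt_flp_ne (hl : ∀ e, s e ≠ t e) (d : E × Bool) : vt s t (flp d) ≠ vt s t d := by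
  obtain ⟨e, b⟩ := d
  cases b
  · simpa [vt, flp] using (hl e).symm
  · simpa [vt, flp] using hl e

/-- the half-edge map of a colouring -/
def hmap (col : E × Bool → Fin 3) (d : E × Bool) : V × Fin 3 := (vt s t d, col d)

/-- mismatched half-edges -/
def misD (col : E × Bool → Fin 3) : Finset (E × Bool) :=
  univ.filter (fun d => col (flp d) ≠ col d)

/-- the involution of a good colouring -/
noncomputable def io {col : E × Bool → Fin 3} (hb : Function.Bijective (hmap s t col))
    (h : V × Fin 3) : V × Fin 3 :=
  hmap s t col (flp ((Equiv.ofBijective _ hb).symm h))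

theorem io_hmap {col : E × Bool → Fin 3} (hb : Function.Bijective (hmap s t col))
    (d : E × Bool) : io s t hb (hmap s t col d) = hmap s t col (flp d) := by
  unfold io
  have : (Equiv.ofBijective _ hb).symm (hmap s t col d) = d := by
    rw [Equiv.symm_apply_eq]
    rfl
  rw [this]

theorem io_inv {col : E × Bool → Fin 3} (hb : Function.Bijective (hmap s t col))
    (h : V × Fin 3) : io s t hb (io s t hb h) = h := by
  obtain ⟨d, rfl⟩ := hb.2 h
  rw [io_hmap, io_hmap, flp_flp]

theorem io_ne (hl : ∀ e, s e ≠ t e) {col : E × Bool → Fin 3}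
    (hb : Function.Bijective (hmap s t col)) (h : V × Fin 3) : (io s t hb h).1 ≠ h.1 := by
  obtain ⟨d, rfl⟩ := hb.2 h
  rw [io_hmap]
  exact vt_flp_ne s t hl d

open Classical in
/-- the swap lemma -/
theorem swap_lemma {col : E × Bool → Fin 3}
    (hb : Function.Bijective (hmap s t col))
    (hminc : ∀ col' : E × Bool → Fin 3, Function.Bijective (hmap s t col') →
      (misD col).card ≤ (misD col').card)
    (v : V) (x : Fin 3) (w : V) (y z : Fin 3) (hvw : io s t hb (v, x) = (w, y)) (hxy : x ≠ y)
    (hzx : z ≠ x) (hzy : z ≠ y) : Reach (io s t hb) z v w := by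
  by_contra hnr
  set Cp : V → Prop := fun p => Reach (io s t hb) z v p with hCp
  set σ : Equiv.Perm (Fin 3) := Equiv.swap x y with hσ
  set col' : E × Bool → Fin 3 := fun d => if Cp (vt s t d) then σ (col d) else col d with hcol'
  have hσσ : ∀ k, σ (σ k) = k := fun k => Equiv.swap_apply_self x y k
  have hσz : σ z = z := Equiv.swap_apply_of_ne_of_ne hzx hzy
  have hb' : Function.Bijective (hmap s t col') := by
    set τ : V × Fin 3 → V × Fin 3 := fun h => (h.1, if Cp h.1 then σ h.2 else h.2) with hτ
    have hττ : ∀ h, τ (τ h) = h := by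
      intro h
      obtain ⟨p, k⟩ := h
      simp only [hτ]
      split_ifs
      · rw [hσσ]
      · rfl
    have h1 : hmap s t col' = τ ∘ hmap s t col := by
      funext d
      rfl
    rw [h1]
    have hτb : Function.Bijective τ := (Function.Involutive.bijective hττ)
    exact hτb.comp hb
  have hlt : (misD col').card < (misD col).card := by
    apply card_lt_card
    obtain ⟨d0, hd0⟩ := hb.2 (v, x)
    have hd0' : hmap s t col (flp d0) = (w, y) := by
      rw [← hvw, ← hd0, io_hmap]
    have e1 : vt s t d0 = v := congrArg Prod.fst hd0
    have e2 : col d0 = x := congrArg Prod.snd hd0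
    have e3 : vt s t (flp d0) = w := congrArg Prod.fst hd0'
    have e4 : col (flp d0) = y := congrArg Prod.snd hd0'
    rw [ssubset_iff_of_subset]
    · refine ⟨d0, ?_, ?_⟩
      · simp only [misD, mem_filter, mem_univ, true_and]
        rw [e2, e4]
        exact hxy.symm
      · simp only [misD, mem_filter, mem_univ, true_and, not_not, hcol']
        have hCv : Cp v := Relation.ReflTransGen.refl
        have hCw : ¬ Cp w := hnr
        rw [e1, e2, e3, e4, if_neg hCw, if_pos hCv]
        exact (Equiv.swap_apply_left x y).symm
    · intro d hd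
      simp only [misD, mem_filter, mem_univ, true_and] at hd ⊢
      intro hm
      apply hd
      simp only [hcol']
      by_cases hz : col d = z
      · rw [hm, hz, hσz]
        simp
      · have hst : Step (io s t hb) z (vt s t d) (vt s t (flp d)) := by
          refine ⟨col d, hz, ?_⟩
          have := io_hmap s t hb d
          unfold hmap at this
          rw [hm] at this
          exact this
        have hiff : Cp (vt s t (flp d)) ↔ Cp (vt s t d) := by
          constructor
          · intro h
            exact Relation.ReflTransGen.tail h (Step.symm' (io_inv s t hb) hst)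
          · intro h
            exact Relation.ReflTransGen.tail h hst
        simp only [hiff, hm]
  exact absurd (hminc col' hb') (by omega)

/-- the system of a minimal colouring -/
noncomputable def mkSys (hl : ∀ e, s e ≠ t e) {col : E × Bool → Fin 3}
    (hb : Function.Bijective (hmap s t col))
    (hminc : ∀ col' : E × Bool → Fin 3, Function.Bijective (hmap s t col') →
      (misD col).card ≤ (misD col').card) : Sys V where
  ι := io s t hb
  inv := io_inv s t hb
  ne := io_ne s t hl hb
  hmin := fun v x w y z h1 h2 h3 h4 => swap_lemma s t hb hminc v x w y z h1 h2 h3 h4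

theorem mis_card (hl : ∀ e, s e ≠ t e) {col : E × Bool → Fin 3}
    (hb : Function.Bijective (hmap s t col))
    (hminc : ∀ col' : E × Bool → Fin 3, Function.Bijective (hmap s t col') →
      (misD col).card ≤ (misD col').card) :
    (mkSys s t hl hb hminc).mis.card ≤ (misD col).card := by
  have : (mkSys s t hl hb hminc).mis ⊆ (misD col).image (hmap s t col) := by
    intro h hh
    simp only [Sys.mis, mem_filter, mem_univ, true_and] at hh
    obtain ⟨d, rfl⟩ := hb.2 h
    refine mem_image_of_mem _ ?_
    simp only [misD, mem_filter, mem_univ, true_and]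
    have h1 : (mkSys s t hl hb hminc).ι (hmap s t col d) = hmap s t col (flp d) :=
      io_hmap s t hb d
    rw [h1] at hh
    exact hh
  exact (card_le_card this).trans card_image_le

open Classical in
/-- an initial colouring -/
theorem init_col (hl : ∀ e, s e ≠ t e)
    (hdeg : ∀ v : V, Set.ncard {e : E | s e = v ∨ t e = v} = 3)
    (S : Finset E) (c : E → Fin 3)
    (hc : ∀ e f : E, e ∉ S → f ∉ S → e ≠ f →
      (s e = s f ∨ s e = t f ∨ t e = s f ∨ t e = t f) → c e ≠ c f) :
    ∃ col : E × Bool → Fin 3, Function.Bijective (hmap s t col) ∧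
      ∀ d : E × Bool, d.1 ∉ S → col d = c d.1 := by
  -- fibres
  have hfib : ∀ v : V, Fintype.card {d : E × Bool // vt s t d = v} = 3 := by
    intro v
    have h1 := hdeg v
    rw [← Nat.card_eq_fintype_card]
    have h2 : Nat.card {d : E × Bool // vt s t d = v} =
        Set.ncard {e : E | s e = v ∨ t e = v} := by
      rw [← Nat.card_coe_set_eq]
      refine Nat.card_congr (Equiv.ofBijective
        (fun d : {d : E × Bool // vt s t d = v} => (⟨d.1.1, ?_⟩ : {e : E | s e = v ∨ t e = v})) ?_)
      · obtain ⟨⟨e, b⟩, hd⟩ := d
        cases b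
        · left; simpa [vt] using hd
        · right; simpa [vt] using hd
      · constructor
        · rintro ⟨⟨e, b⟩, hd⟩ ⟨⟨e', b'⟩, hd'⟩ he
          have he' : e = e' := congrArg Subtype.val he
          subst he'
          cases b <;> cases b'
          · rfl
          · exfalso
            simp only [vt, if_true] at hd hd'
            simp at hd
            exact hl e (by rw [hd, hd'])
          · exfalso
            simp only [vt, if_true] at hd hd'
            simp at hd'
            exact hl e (by rw [hd, hd'])
          · rfl
        · rintro ⟨e, he⟩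
          rcases he with he | he
          · exact ⟨⟨(e, false), by simpa [vt] using he⟩, rfl⟩
          · exact ⟨⟨(e, true), by simpa [vt] using he⟩, rfl⟩
    rw [h2, h1]
  have hex : ∀ v : V, ∃ φ : {d : E × Bool // vt s t d = v} → Fin 3, Function.Bijective φ ∧
      ∀ d, d.1.1 ∉ S → φ d = c d.1.1 := by
    intro v
    obtain ⟨g, hg⟩ := Finset.exists_equiv_extend_of_card_eq
      (α := {d : E × Bool // vt s t d = v}) (β := Fin 3) (t := univ)
      (by rw [hfib v]; rfl) (s := univ.filter (fun d => d.1.1 ∉ S))
      (f := fun d => c d.1.1) (fun _ _ => mem_univ _) (by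
        intro d hd d' hd' he
        simp only [coe_filter, mem_univ, true_and] at hd hd'
        by_contra hne
        have hne' : d.1.1 ≠ d'.1.1 := by
          intro h
          apply hne
          obtain ⟨⟨e, b⟩, h1⟩ := d
          obtain ⟨⟨e', b'⟩, h2⟩ := d'
          simp only at h
          subst h
          cases b <;> cases b'
          · rfl
          · exfalso
            simp only [vt, if_true] at h1 h2
            simp at h1
            exact hl e (by rw [h1, h2])
          · exfalso
            simp only [vt, if_true] at h1 h2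
            simp at h2
            exact hl e (by rw [h1, h2])
          · rfl
        refine hc d.1.1 d'.1.1 hd hd' hne' ?_ he
        obtain ⟨⟨e, b⟩, h1⟩ := d
        obtain ⟨⟨e', b'⟩, h2⟩ := d'
        cases b <;> cases b' <;> simp [vt] at h1 h2 ⊢ <;> rw [h1, h2] <;> simp)
    refine ⟨fun d => (g d).1, ?_, ?_⟩
    · constructor
      · intro a b hab
        exact g.injective (Subtype.ext hab)
      · intro k
        obtain ⟨a, ha⟩ := g.surjective ⟨k, mem_univ k⟩
        exact ⟨a, by show (g a).1 = k; rw [ha]⟩
    · intro d hd
      exact hg d (by simpa using hd)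
  choose φ hφ1 hφ2 using hex
  refine ⟨fun d => φ (vt s t d) ⟨d, rfl⟩, ?_, ?_⟩
  · constructor
    · intro d d' he
      have e1 : vt s t d = vt s t d' := congrArg Prod.fst he
      have e2 : φ (vt s t d) ⟨d, rfl⟩ = φ (vt s t d') ⟨d', rfl⟩ := congrArg Prod.snd he
      have e3 : φ (vt s t d') ⟨d', rfl⟩ = φ (vt s t d) ⟨d', e1.symm⟩ := by
        have key : ∀ (u : V) (hu : vt s t d' = u), φ (vt s t d') ⟨d', rfl⟩ = φ u ⟨d', hu⟩ := by
          intro u hu
          subst hu
          rfl
        exact key _ e1.symm
      rw [e3] at e2
      have := (hφ1 (vt s t d)).1 e2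
      exact congrArg Subtype.val this
    · rintro ⟨v, k⟩
      obtain ⟨⟨d, hd⟩, hk⟩ := (hφ1 v).2 k
      refine ⟨d, ?_⟩
      subst hd
      exact Prod.ext rfl hk
  · intro d hd
    exact hφ2 _ _ hd

end graph

end Pool.Agent.Helper915.WeakOdd
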