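import Pool.Agent.Helper915.WeakOdd7

set_option autoImplicit false
set_option linter.unusedSectionVars false

namespace Pool.Agent.Helper915.WeakOdd

open Finset

open Classical in
theorem main (V E : Type) [Fintype V] [Fintype E] (s t : E → V) (hl : ∀ e : E, s e ≠ t e)
    (hdeg : ∀ v : V, Set.ncard {e : E | s e = v ∨ t e = v} = 3)
    (S : Finset E)
    (hS : ∃ c : E → Fin 3, ∀ e f : E, e ∉ S → f ∉ S → e ≠ f →
          (s e = s f ∨ s e = t f ∨ t e = s f ∨ t e = t f) → c e ≠ c f) :
    ∃ F : Set E,
          (∀ v : V, Even (Set.ncard {e : E | e ∈ F ∧ (s e = v ∨ t e = v)})) ∧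
          Set.ncard {C : (SimpleGraph.fromRel
              (fun x y : V => ∃ f : E, f ∈ F ∧ s f = x ∧ t f = y)).ConnectedComponent |
            Odd (SimpleGraph.ConnectedComponent.supp C).ncard} ≤ 2 * S.card := by
  obtain ⟨c, hc⟩ := hS
  obtain ⟨col0, hb0, hcol0⟩ := init_col s t hl hdeg S c hc
  -- minimal colouring
  obtain ⟨col, hcolm, hmin'⟩ := Finset.exists_min_image
    (univ.filter (fun col : E × Bool → Fin 3 => Function.Bijective (hmap s t col)))
    (fun col => (misD col).card) ⟨col0, by
      rw [mem_filter]; exact ⟨mem_univ _, hb0⟩⟩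
  have hb : Function.Bijective (hmap s t col) := (mem_filter.1 hcolm).2
  have hminc : ∀ col' : E × Bool → Fin 3, Function.Bijective (hmap s t col') →
      (misD col).card ≤ (misD col').card := by
    intro col' h
    exact hmin' col' (by rw [mem_filter]; exact ⟨mem_univ _, h⟩)
  have h0 : (misD col0).card ≤ 2 * S.card := by
    have hsub : misD col0 ⊆ S ×ˢ (univ : Finset Bool) := by
      intro d hd
      simp only [misD, mem_filter, mem_univ, true_and] at hd
      rw [mem_product]
      refine ⟨?_, mem_univ _⟩
      by_contra h
      apply hd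
      rw [hcol0 d h, hcol0 (flp d) h]
      rfl
    have := card_le_card hsub
    rw [card_product] at this
    simp at this
    omega
  have hm := mis_card s t hl hb hminc
  have hm2 := hminc col0 hb0
  set Y := mkSys s t hl hb hminc with hY
  obtain ⟨J, J1, J2, A, hA, hpar⟩ := Y.core
  have hAS : A.card ≤ 2 * S.card := by omega
  have hι : ∀ d, Y.ι (hmap s t col d) = hmap s t col (flp d) := fun d => io_hmap s t hb d
  -- the even subgraph
  set F : Set E := {e | J (hmap s t col (e, false)) = 0} with hF
  have hFm : ∀ d : E × Bool, d.1 ∈ F ↔ J (hmap s t col d) = 0 := by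
    rintro ⟨e, b⟩
    cases b
    · exact Iff.rfl
    · show J (hmap s t col (e, false)) = 0 ↔ J (hmap s t col (e, true)) = 0
      have h1 := hι (e, false)
      have h2 : flp (e, false) = (e, true) := rfl
      rw [h2] at h1
      rw [← h1, J1]
  refine ⟨F, ?_, ?_⟩
  · intro v
    have hcard : Set.ncard {e : E | e ∈ F ∧ (s e = v ∨ t e = v)} =
        (univ.filter (fun k : Fin 3 => J (v, k) = 0)).card := by
      rw [← Nat.card_coe_set_eq]
      have h1 : (univ.filter (fun k : Fin 3 => J (v, k) = 0)).card =
          Nat.card {k : Fin 3 // J (v, k) = 0} := by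
        rw [Nat.card_eq_fintype_card, Fintype.card_subtype]
      rw [h1]
      have hpick : ∀ k : Fin 3, ∃ d : E × Bool, hmap s t col d = (v, k) := fun k => hb.2 (v, k)
      choose dk hdk using hpick
      refine (Nat.card_congr (Equiv.ofBijective
        (fun k : {k : Fin 3 // J (v, k) = 0} =>
          (⟨(dk k.1).1, ?_⟩ : {e : E | e ∈ F ∧ (s e = v ∨ t e = v)})) ?_)).symm
      · refine ⟨(hFm _).2 (by rw [hdk]; exact k.2), ?_⟩
        have h2 : vt s t (dk k.1) = v := congrArg Prod.fst (hdk k.1)
        revert h2
        generalize dk k.1 = d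
        obtain ⟨e, b⟩ := d
        cases b
        · intro h2; left; simpa [vt] using h2
        · intro h2; right; simpa [vt] using h2
      · constructor
        · intro k k' he
          have he' : (dk k.1).1 = (dk k'.1).1 := congrArg Subtype.val he
          have h2 : vt s t (dk k.1) = v := congrArg Prod.fst (hdk k.1)
          have h3 : vt s t (dk k'.1) = v := congrArg Prod.fst (hdk k'.1)
          have hd : dk k.1 = dk k'.1 := by
            by_contra hne
            have hfl : dk k'.1 = flp (dk k.1) := by
              have hb2 : (dk k'.1).2 = !(dk k.1).2 := by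
                have hne2 : (dk k.1).2 ≠ (dk k'.1).2 := fun h => hne (Prod.ext he' h)
                revert hne2
                generalize (dk k.1).2 = a
                generalize (dk k'.1).2 = b
                revert a b
                decide
              exact Prod.ext he'.symm hb2
            exact vt_flp_ne s t hl (dk k.1) (by rw [← hfl, h2, h3])
          have h4 := hdk k.1
          rw [hd, hdk] at h4
          exact Subtype.ext (congrArg Prod.snd h4).symm
        · rintro ⟨e, heF, he⟩
          obtain ⟨d, hd1, hd2⟩ : ∃ d : E × Bool, d.1 = e ∧ vt s t d = v := by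
            rcases he with he | he
            · exact ⟨(e, false), rfl, by simpa [vt] using he⟩
            · exact ⟨(e, true), rfl, by simpa [vt] using he⟩
          have hmd : hmap s t col d = (v, col d) := Prod.ext hd2 rfl
          have hJd : J (v, col d) = 0 := by
            rw [← hmd, ← hFm, hd1]
            exact heF
          refine ⟨⟨col d, hJd⟩, ?_⟩
          have h5 : dk (col d) = d := hb.1 (by rw [hdk, hmd])
          apply Subtype.ext
          show (dk (col d)).1 = e
          rw [h5, hd1]
    rw [hcard]
    have hs := J2 v
    rw [Fin.sum_univ_three] at hs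
    have key : ∀ a b c : ZMod 2, a + b + c = 1 →
        Even ((if a = 0 then 1 else 0) + (if b = 0 then 1 else 0) + (if c = 0 then 1 else 0) : ℕ) := by
      decide
    have h6 := key _ _ _ hs
    rw [Finset.card_filter, Fin.sum_univ_three]
    exact h6
  · set G := SimpleGraph.fromRel (fun x y : V => ∃ f : E, f ∈ F ∧ s f = x ∧ t f = y) with hG
    have hsub : {C : G.ConnectedComponent | Odd (SimpleGraph.ConnectedComponent.supp C).ncard} ⊆
        G.connectedComponentMk '' (A : Set V) := by
      intro C hC
      have hC' : Odd (SimpleGraph.ConnectedComponent.supp C).ncard := hC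
      by_contra hnot
      set Cs : Finset V := univ.filter (fun v => v ∈ C.supp) with hCs
      have hCc : Cs.card = (SimpleGraph.ConnectedComponent.supp C).ncard := by
        rw [Set.ncard_eq_toFinset_card']
        congr 1
        ext v
        simp [hCs]
      have hev := hpar Cs (by
        intro v hv k hk
        rw [hCs, mem_filter] at hv ⊢
        refine ⟨mem_univ _, ?_⟩
        obtain ⟨d, hd⟩ := hb.2 (v, k)
        have hdF : d.1 ∈ F := (hFm d).2 (by rw [hd]; exact hk)
        have h2 : vt s t d = v := congrArg Prod.fst hd
        rw [← hd, hι]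
        show vt s t (flp d) ∈ C.supp
        have hadj : G.Adj v (vt s t (flp d)) := by
          rw [hG, SimpleGraph.fromRel_adj]
          refine ⟨?_, ?_⟩
          · rw [← h2]; exact (vt_flp_ne s t hl d).symm
          · rw [← h2]
            obtain ⟨e, b⟩ := d
            cases b
            · left; exact ⟨e, hdF, rfl, rfl⟩
            · right; exact ⟨e, hdF, rfl, rfl⟩
        have h3 := hv.2
        rw [SimpleGraph.ConnectedComponent.mem_supp_iff] at h3 ⊢
        rw [← h3]
        exact (SimpleGraph.ConnectedComponent.connectedComponentMk_eq_of_adj hadj).symm) (by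
        rw [Finset.disjoint_left]
        intro a ha haA
        apply hnot
        rw [hCs, mem_filter, SimpleGraph.ConnectedComponent.mem_supp_iff] at ha
        exact ⟨a, haA, ha.2⟩)
      rw [hCc] at hev
      exact (Nat.not_even_iff_odd.2 hC') hev
    calc _ ≤ (G.connectedComponentMk '' (A : Set V)).ncard :=
          Set.ncard_le_ncard hsub (Set.toFinite _)
      _ ≤ (A : Set V).ncard := Set.ncard_image_le (Set.toFinite _)
      _ = A.card := Set.ncard_coe_finset A
      _ ≤ 2 * S.card := hAS

end Pool.Agent.Helper915.WeakOdd
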